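import Pool.Agent.Erdos456.Mertens

/-!
Library H998_EK (helper998): additive functions.
-/

set_option autoImplicit false

namespace Pool.Agent.H998_EK

open Finset

/-- a real additive function bounded by one at the primes -/
structure AddF (f : ℕ → ℝ) : Prop where
  add : ∀ m n : ℕ, 1 ≤ m → 1 ≤ n → Nat.Coprime m n → f (m * n) = f m + f n
  le : ∀ p : ℕ, p.Prime → |f p| ≤ 1

/-- the mean -/
noncomputable def Am (f : ℕ → ℝ) (X : ℕ) : ℝ := ∑ p ∈ (Icc 1 X).filter Nat.Prime, f p / p

/-- the variance -/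
noncomputable def Bq (f : ℕ → ℝ) (X : ℕ) : ℝ := ∑ p ∈ (Icc 1 X).filter Nat.Prime, f p ^ 2 / p

lemma Bq_mono (f : ℕ → ℝ) {X Y : ℕ} (h : X ≤ Y) : Bq f X ≤ Bq f Y := by
  unfold Bq
  apply sum_le_sum_of_subset_of_nonneg
  · intro p hp
    rw [mem_filter, mem_Icc] at hp ⊢
    exact ⟨⟨hp.1.1, hp.1.2.trans h⟩, hp.2⟩
  · intro p _ _
    positivity

lemma Bq_nonneg (f : ℕ → ℝ) (X : ℕ) : 0 ≤ Bq f X := by
  unfold Bq
  positivity

/-- the primes between two bounds -/
theorem tail_inv (R : ℕ) : ∃ C : ℝ, 0 ≤ C ∧ ∀ z X : ℕ, 3 ≤ z → X < (z + 1) ^ R →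
    ∑ p ∈ (Ioc z X).filter Nat.Prime, (1 : ℝ) / p ≤ C := by
  obtain ⟨C, hC⟩ := Pool.Agent.Erdos456.Mert.mertens_inv
  have hC0 : 0 ≤ C := (abs_nonneg _).trans (hC 3 le_rfl)
  refine ⟨2 * C + Real.log (2 * R + 2), by
    have : 0 ≤ Real.log (2 * R + 2) := Real.log_nonneg (by linarith [(Nat.cast_nonneg R : (0 : ℝ) ≤ R)])
    positivity, fun z X hz hX => ?_⟩
  have hlog0 : 0 ≤ Real.log (2 * R + 2) :=
    Real.log_nonneg (by linarith [(Nat.cast_nonneg R : (0 : ℝ) ≤ R)])
  rcases Nat.lt_or_ge X z with h | h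
  · have : (Ioc z X) = ∅ := Ioc_eq_empty (by omega)
    rw [this]
    simp only [filter_empty, sum_empty]
    positivity
  have h1 : ∑ p ∈ (Icc 1 X).filter Nat.Prime, (1 : ℝ) / p =
      ∑ p ∈ (Icc 1 z).filter Nat.Prime, (1 : ℝ) / p + ∑ p ∈ (Ioc z X).filter Nat.Prime, (1 : ℝ) / p := by
    rw [← sum_union]
    · congr 1
      rw [← filter_union]
      congr 1
      ext p
      simp only [mem_Icc, mem_union, mem_Ioc]
      omega
    · rw [disjoint_left]
      intro p hp hp'
      rw [mem_filter, mem_Icc] at hp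
      rw [mem_filter, mem_Ioc] at hp'
      omega
  have h2 := abs_le.1 (hC X (hz.trans h))
  have h3 := abs_le.1 (hC z hz)
  have hz0 : (3 : ℝ) ≤ z := by exact_mod_cast hz
  have hlz : 1 ≤ Real.log z := by
    rw [Real.le_log_iff_exp_le (by linarith)]
    have := Real.exp_one_lt_d9
    linarith
  have h4 : Real.log (Real.log X) ≤ Real.log (Real.log z) + Real.log (2 * R + 2) := by
    rw [← Real.log_mul (by linarith) (by positivity)]
    have hX0 : (3 : ℝ) ≤ X := hz0.trans (by exact_mod_cast h)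
    have h5 : (X : ℝ) ≤ (z : ℝ) ^ (2 * R) := by
      have h6 : X ≤ (z ^ 2) ^ R := hX.le.trans (Nat.pow_le_pow_left (by nlinarith) R)
      rw [← pow_mul] at h6
      exact_mod_cast h6
    have h6 : Real.log X ≤ 2 * R * Real.log z := by
      have := Real.log_le_log (by linarith) h5
      rw [Real.log_pow] at this
      push_cast at this
      exact this
    apply Real.log_le_log
    · apply Real.log_pos; linarith
    · nlinarith
  linarith

/-! ### the values at a good integer -/

/-- only small squares divide `N` -/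
def Good (D N : ℕ) : Prop := ∀ d : ℕ, d ^ 2 ∣ N → d ≤ D

lemma f_one {f : ℕ → ℝ} (hf : AddF f) : f 1 = 0 := by
  have := hf.add 1 1 le_rfl le_rfl (by simp)
  simp at this
  exact this

lemma f_fact {f : ℕ → ℝ} (hf : AddF f) {N : ℕ} (hN : 1 ≤ N) :
    f N = ∑ p ∈ N.primeFactors, f (p ^ N.factorization p) := by
  have := Nat.multiplicative_factorization (β := Multiplicative ℝ)
    (fun n => Multiplicative.ofAdd (f n)) (by
      intro x y hxy
      rw [← ofAdd_add]
      congr 1
      rcases Nat.eq_zero_or_pos x with hx | hx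
      · subst hx
        have : y = 1 := by simpa using hxy
        subst this
        rw [f_one hf]
        simp
      rcases Nat.eq_zero_or_pos y with hy | hy
      · subst hy
        have : x = 1 := by simpa using hxy
        subst this
        rw [f_one hf]
        simp
      exact hf.add x y hx hy hxy) (by
      show Multiplicative.ofAdd (f 1) = 1
      rw [f_one hf]; rfl) (n := N) (by omega)
  have h2 := congrArg Multiplicative.toAdd this
  rw [Finsupp.prod, toAdd_prod] at h2
  exact h2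

lemma big_primes {N z r : ℕ} (hN : 1 ≤ N) (h : N < (z + 1) ^ (r + 1)) :
    (N.primeFactors.filter (fun p => z < p)).card ≤ r := by
  by_contra hc
  have hc' : r + 1 ≤ (N.primeFactors.filter (fun p => z < p)).card := by omega
  have h1 : (z + 1) ^ (N.primeFactors.filter (fun p => z < p)).card ≤
      ∏ p ∈ N.primeFactors.filter (fun p => z < p), p := by
    apply Finset.pow_card_le_prod
    intro p hp
    rw [mem_filter] at hp
    exact hp.2
  have h2 : ∏ p ∈ N.primeFactors.filter (fun p => z < p), p ≤ N := by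
    apply Nat.le_of_dvd hN
    exact (prod_dvd_prod_of_subset _ _ _ (filter_subset _ _)).trans (Nat.prod_primeFactors_dvd N)
  have h3 : (z + 1) ^ (r + 1) ≤ (z + 1) ^ (N.primeFactors.filter (fun p => z < p)).card :=
    Nat.pow_le_pow_right (by omega) hc'
  omega

/-- the truncated strongly additive function -/
theorem f_trunc {f : ℕ → ℝ} (hf : AddF f) {N p₀ z r D : ℕ} (hN : 1 ≤ N)
    (h : N < (z + 1) ^ (r + 1)) (hD : Good D N) :
    |f N - ∑ p ∈ (Ioc p₀ z).filter Nat.Prime, (if p ∣ N then f p else 0)| ≤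
      p₀ + r + ∑ q ∈ range (D ^ 3 + 1), (|f q| + 1) := by
  classical
  set S := N.primeFactors with hS
  set P := (Ioc p₀ z).filter Nat.Prime with hP
  have hNN : N ≠ 0 := by omega
  have h1 : ∑ p ∈ P, (if p ∣ N then f p else 0) = ∑ p ∈ S, (if p ∈ P then f p else 0) := by
    rw [← sum_filter, ← sum_filter]
    apply sum_congr _ (fun _ _ => rfl)
    ext p
    simp only [mem_filter, hP, hS, Nat.mem_primeFactors]
    constructor
    · rintro ⟨⟨ha, hb⟩, hc⟩
      exact ⟨⟨hb, hc, hNN⟩, ha, hb⟩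
    · rintro ⟨⟨hb, hc, _⟩, ha, _⟩
      exact ⟨⟨ha, hb⟩, hc⟩
  rw [h1, f_fact hf hN, ← hS, ← sum_sub_distrib]
  have hpt : ∀ p ∈ S, |f (p ^ N.factorization p) - (if p ∈ P then f p else 0)| ≤
      (if p ≤ p₀ then 1 else 0) + (if z < p then 1 else 0) +
      (if 2 ≤ N.factorization p then |f (p ^ N.factorization p)| + 1 else 0) := by
    intro p hp
    have hpp : p.Prime := (Nat.mem_primeFactors.1 hp).1
    have hv : 1 ≤ N.factorization p := by
      have := (Nat.mem_primeFactors.1 hp)
      exact (Nat.Prime.dvd_iff_one_le_factorization hpp hNN).1 this.2.1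
    have hle := hf.le p hpp
    have hle' := abs_le.1 hle
    have e1 : (0 : ℝ) ≤ if p ≤ p₀ then 1 else 0 := by split_ifs <;> norm_num
    have e2 : (0 : ℝ) ≤ if z < p then 1 else 0 := by split_ifs <;> norm_num
    rcases Nat.lt_or_ge (N.factorization p) 2 with h2 | h2
    · have h3 : N.factorization p = 1 := by omega
      rw [h3, pow_one, if_neg (by norm_num : ¬ 2 ≤ 1)]
      by_cases h4 : p ∈ P
      · rw [if_pos h4, sub_self, abs_zero]
        linarith
      · rw [if_neg h4, sub_zero]
        rw [hP, mem_filter, mem_Ioc] at h4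
        by_cases h5 : p ≤ p₀
        · rw [if_pos h5]; linarith
        · have h6 : z < p := by
            by_contra h6
            exact h4 ⟨⟨by omega, by omega⟩, hpp⟩
          rw [if_pos h6]; linarith
    · rw [if_pos h2]
      have h3 : |(if p ∈ P then f p else 0)| ≤ 1 := by
        split_ifs
        · exact hle
        · simp
      have h4 := abs_sub (f (p ^ N.factorization p)) (if p ∈ P then f p else 0)
      linarith
  refine (abs_sum_le_sum_abs _ _).trans ((sum_le_sum hpt).trans ?_)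
  rw [sum_add_distrib, sum_add_distrib]
  refine add_le_add (add_le_add ?_ ?_) ?_
  · rw [← sum_filter, sum_const, nsmul_eq_mul, mul_one]
    have : (S.filter (fun p => p ≤ p₀)) ⊆ Icc 1 p₀ := by
      intro p hp
      rw [mem_filter] at hp
      exact mem_Icc.2 ⟨(Nat.mem_primeFactors.1 hp.1).1.pos, hp.2⟩
    have := card_le_card this
    rw [Nat.card_Icc] at this
    exact_mod_cast (by omega : (S.filter (fun p => p ≤ p₀)).card ≤ p₀)
  · rw [← sum_filter, sum_const, nsmul_eq_mul, mul_one]
    exact_mod_cast big_primes hN h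
  · rw [← sum_filter]
    have hinj : Set.InjOn (fun p => p ^ N.factorization p)
        (S.filter (fun p => 2 ≤ N.factorization p) : Finset ℕ) := by
      intro p hp q hq hpq
      rw [coe_filter, Set.mem_ofPred_eq] at hp hq
      have h1 : p.Prime := (Nat.mem_primeFactors.1 hp.1).1
      have h2 : q.Prime := (Nat.mem_primeFactors.1 hq.1).1
      have h3 : p ∣ q ^ N.factorization q := by
        rw [← show p ^ N.factorization p = q ^ N.factorization q from hpq]
        exact dvd_pow_self p (by omega)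
      exact (Nat.prime_dvd_prime_iff_eq h1 h2).1 (h1.dvd_of_dvd_pow h3)
    rw [← sum_image (f := fun q => |f q| + 1) hinj]
    apply sum_le_sum_of_subset_of_nonneg
    · intro q hq
      rw [mem_image] at hq
      obtain ⟨p, hp, rfl⟩ := hq
      rw [mem_filter] at hp
      rw [mem_range]
      set v := N.factorization p with hv
      have h1 : p ^ v ∣ N := Nat.ordProj_dvd N p
      have h2 : (p ^ (v / 2)) ^ 2 ∣ N := by
        rw [← pow_mul]
        exact (pow_dvd_pow p (by omega)).trans h1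
      have h3 := hD _ h2
      have h4 : p ^ v ≤ (p ^ (v / 2)) ^ 3 := by
        rw [← pow_mul]
        exact Nat.pow_le_pow_right (Nat.mem_primeFactors.1 hp.1).1.pos (by omega)
      have h5 := Nat.pow_le_pow_left h3 3
      show p ^ v < D ^ 3 + 1
      omega
    · intro q _ _
      positivity

open scoped Classical in
/-- most integers have only small square divisors -/
theorem bad_count {D Y : ℕ} (hD : 1 ≤ D) :
    (((Icc 1 Y).filter (fun N => ∃ d, D < d ∧ d ^ 2 ∣ N)).card : ℝ) ≤ Y / D := by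
  rcases Nat.lt_or_ge Y D with h | h
  · have : (Icc 1 Y).filter (fun N => ∃ d, D < d ∧ d ^ 2 ∣ N) = ∅ := by
      rw [filter_eq_empty_iff]
      rintro N hN ⟨d, hd, hdN⟩
      rw [mem_Icc] at hN
      have := Nat.le_of_dvd hN.1 hdN
      nlinarith
    rw [this]
    simp only [card_empty, Nat.cast_zero]
    positivity
  have h1 : (Icc 1 Y).filter (fun N => ∃ d, D < d ∧ d ^ 2 ∣ N) ⊆
      (Ioc D Y).biUnion (fun d => (Ioc 0 Y).filter (fun N => d ^ 2 ∣ N)) := by
    intro N hN
    rw [mem_filter, mem_Icc] at hN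
    obtain ⟨⟨h1, h2⟩, d, hd, hdN⟩ := hN
    rw [mem_biUnion]
    refine ⟨d, mem_Ioc.2 ⟨hd, ?_⟩, mem_filter.2 ⟨mem_Ioc.2 ⟨h1, h2⟩, hdN⟩⟩
    have := Nat.le_of_dvd h1 hdN
    nlinarith
  have h2 : ((((Icc 1 Y).filter (fun N => ∃ d, D < d ∧ d ^ 2 ∣ N)).card : ℕ) : ℝ) ≤
      ∑ d ∈ Ioc D Y, (Y : ℝ) * ((d : ℝ) ^ 2)⁻¹ := by
    have h3 := (card_le_card h1).trans card_biUnion_le
    have h4 : ((∑ d ∈ Ioc D Y, ((Ioc 0 Y).filter (fun N => d ^ 2 ∣ N)).card : ℕ) : ℝ) ≤
        ∑ d ∈ Ioc D Y, (Y : ℝ) * ((d : ℝ) ^ 2)⁻¹ := by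
      push_cast
      apply sum_le_sum
      intro d _
      rw [Nat.Ioc_filter_dvd_card_eq_div, ← div_eq_mul_inv]
      exact_mod_cast Nat.cast_div_le (α := ℝ) (m := Y) (n := d ^ 2)
    exact le_trans (by exact_mod_cast h3) h4
  refine h2.trans ?_
  rw [← mul_sum, div_eq_mul_inv]
  apply mul_le_mul_of_nonneg_left _ (Nat.cast_nonneg _)
  refine (sum_Ioc_inv_sq_le_sub (α := ℝ) (by omega) h).trans ?_
  have : (0 : ℝ) ≤ (Y : ℝ)⁻¹ := by positivity
  linarith

open scoped Classical in
/-- most values of a linear form have only small square divisors -/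
theorem bad_form {D a b : ℕ} (hD : 1 ≤ D) (ha : 1 ≤ a) (X : ℕ) :
    (((range X).filter (fun n => a * n + b = 0 ∨ ¬ Good D (a * n + b))).card : ℝ) ≤
      (a * X + b : ℕ) / D + 1 := by
  have h1 : ((range X).filter (fun n => a * n + b = 0 ∨ ¬ Good D (a * n + b))).image
      (fun n => a * n + b) ⊆ insert 0 ((Icc 1 (a * X + b)).filter (fun N => ∃ d, D < d ∧ d ^ 2 ∣ N)) := by
    intro N hN
    rw [mem_image] at hN
    obtain ⟨n, hn, rfl⟩ := hN
    rw [mem_filter, mem_range] at hn
    rw [mem_insert, mem_filter, mem_Icc]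
    by_cases h0 : a * n + b = 0
    · exact Or.inl h0
    · right
      have h2 := hn.2.resolve_left h0
      unfold Good at h2
      push Not at h2
      obtain ⟨d, hd1, hd2⟩ := h2
      exact ⟨⟨by omega, by nlinarith [hn.1]⟩, d, hd2, hd1⟩
  have h2 : ((range X).filter (fun n => a * n + b = 0 ∨ ¬ Good D (a * n + b))).card ≤
      ((Icc 1 (a * X + b)).filter (fun N => ∃ d, D < d ∧ d ^ 2 ∣ N)).card + 1 := by
    rw [← card_image_of_injective _ (f := fun n => a * n + b) (by
      intro x y hxy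
      have : a * x = a * y := by simpa using hxy
      exact Nat.eq_of_mul_eq_mul_left ha this)]
    exact (card_le_card h1).trans (card_insert_le _ _)
  have h3 := bad_count (D := D) (Y := a * X + b) hD
  have h4 : ((((range X).filter (fun n => a * n + b = 0 ∨ ¬ Good D (a * n + b))).card : ℕ) : ℝ) ≤
      ((((Icc 1 (a * X + b)).filter (fun N => ∃ d, D < d ∧ d ^ 2 ∣ N)).card : ℕ) : ℝ) + 1 := by
    exact_mod_cast h2
  linarith

end Pool.Agent.H998_EK
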