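import Pool.Agent.H998_EK.Win

/-!
Library H998_EK (helper998): local averages of the windows.
-/

set_option autoImplicit false
set_option linter.unusedSectionVars false

namespace Pool.Agent.H998_EK

open Finset Filter Topology

lemma MV.add {F G : ℕ → ℝ} {c d : ℝ} (hF : MV F c) (hG : MV G d) : MV (fun n => F n + G n) (c + d) := by
  unfold MV at *
  refine (Tendsto.add hF hG).congr fun X => ?_
  rw [sum_add_distrib, add_div]

lemma MV.const_mul {F : ℕ → ℝ} {c : ℝ} (a : ℝ) (hF : MV F c) : MV (fun n => a * F n) (a * c) := by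
  unfold MV at *
  refine (Tendsto.const_mul a hF).congr fun X => ?_
  rw [← mul_sum, mul_div_assoc]

lemma MV.const (a : ℝ) : MV (fun _ => a) a := by
  unfold MV
  refine tendsto_const_nhds.congr' ?_
  filter_upwards [eventually_ge_atTop 1] with X hX
  rw [sum_const, card_range, nsmul_eq_mul]
  have : (X : ℝ) ≠ 0 := by exact_mod_cast (by omega : X ≠ 0)
  field_simp

lemma MV.sum {κ : Type} (s : Finset κ) {F : κ → ℕ → ℝ} (h : ∀ i ∈ s, MV (F i) 0) :
    MV (fun n => ∑ i ∈ s, F i n) 0 := by
  classical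
  induction s using Finset.induction_on with
  | empty => simpa using MV.const 0
  | insert a s ha ih =>
    have h1 := (h a (mem_insert_self _ _)).add (ih fun i hi => h i (mem_insert_of_mem hi))
    rw [add_zero] at h1
    simpa [sum_insert ha] using h1

/-- combining the residue classes -/
lemma MV.residues {F : ℕ → ℝ} (hF : ∀ x, |F x| ≤ 1) {Q : ℕ} (hQ : 1 ≤ Q)
    (h : ∀ r < Q, MV (fun y => F (r + Q * y)) 0) : MV F 0 := by
  have hQ0 : (0 : ℝ) < Q := by exact_mod_cast hQ
  have h1 : Tendsto (fun Y : ℕ => ∑ r ∈ range Q, |(∑ y ∈ range Y, F (r + Q * y)) / Y|) atTop (𝓝 0) := by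
    have : Tendsto (fun Y : ℕ => ∑ r ∈ range Q, |(∑ y ∈ range Y, F (r + Q * y)) / Y|) atTop
        (𝓝 (∑ r ∈ range Q, |(0 : ℝ)|)) := by
      apply tendsto_finsetSum
      intro r hr
      exact (h r (mem_range.1 hr)).abs
    simpa using this
  have h2 : Tendsto (fun X : ℕ => X / Q) atTop atTop := Nat.tendsto_div_const_atTop (by omega)
  have h3 := (h1.comp h2).add (tendsto_const_div_atTop_nhds_zero_nat (Q : ℝ))
  rw [add_zero] at h3
  unfold MV
  apply squeeze_zero_norm _ h3
  intro X
  rcases Nat.eq_zero_or_pos X with h0 | h0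
  · subst h0; simp
  have hX0 : (0 : ℝ) < X := by exact_mod_cast h0
  rw [Real.norm_eq_abs, abs_div, Nat.abs_cast, div_le_iff₀ hX0]
  have e1 : ∑ n ∈ range X, F n = ∑ r ∈ range Q, ∑ y ∈ range (X / Q), F (r + Q * y) +
      ∑ n ∈ range (X % Q), F (Q * (X / Q) + n) := by
    conv_lhs => rw [← Nat.div_add_mod X Q]
    rw [sum_range_add, sum_blocks, sum_comm]
  rw [e1]
  refine (abs_add_le _ _).trans ?_
  rw [add_mul, div_mul_cancel₀ _ hX0.ne']
  apply add_le_add
  · refine (abs_sum_le_sum_abs _ _).trans ?_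
    show _ ≤ (∑ r ∈ range Q, |(∑ y ∈ range (X / Q), F (r + Q * y)) / ((X / Q : ℕ) : ℝ)|) * X
    rw [sum_mul]
    apply sum_le_sum
    intro r _
    rcases Nat.eq_zero_or_pos (X / Q) with h4 | h4
    · rw [h4]; simp
    have h5 : (0 : ℝ) < (X / Q : ℕ) := by exact_mod_cast h4
    have h6 : ((X / Q : ℕ) : ℝ) ≤ X := by exact_mod_cast Nat.div_le_self _ _
    rw [abs_div, Nat.abs_cast, div_mul_eq_mul_div, le_div_iff₀ h5]
    exact mul_le_mul_of_nonneg_left h6 (abs_nonneg _)
  · refine (abs_sum_le_sum_abs _ _).trans ((sum_le_sum fun n _ => hF _).trans ?_)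
    rw [sum_const, card_range, nsmul_eq_mul, mul_one]
    exact_mod_cast (Nat.mod_lt X hQ).le

variable {f α β : ℕ → ℝ}

/-- the centred window function -/
noncomputable def Gw (f α β : ℕ → ℝ) (c : ℕ) (U : List ℝ) (x : ℕ) : ℝ := Wn f α β c U x - Vb c U x

lemma Gw_abs (c : ℕ) (U : List ℝ) (x : ℕ) : |Gw f α β c U x| ≤ 1 := by
  have h1 := Wn_01 f α β c U x
  have h2 := Vb_01 c U x
  unfold Gw
  rw [abs_le]
  constructor <;> linarith

lemma corr (hf : AddF f) (hB : Tendsto (Bq f) atTop atTop) (hn : Nrm f α β)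
    {c : ℕ} {sg : ℝ} (hc : sg = 2 * c - 3) (hsg : sg ^ 2 = 1) {U : List ℝ} (hU : U ≠ []) {K : ℕ}
    (hK : 1 ≤ K) {h h' : ℕ} (hh : h < h') :
    MV (fun x => Gw f α β c U (x + 2 ^ (U.length - 1) * K * h) *
      Gw f α β c U (x + 2 ^ (U.length - 1) * K * h')) 0 := by
  set Q := 2 ^ (U.length - 1) with hQ
  have hQ1 : 1 ≤ Q := Nat.one_le_two_pow
  have hQ0 : (0 : ℝ) < Q := by exact_mod_cast hQ1
  apply MV.residues (Q := Q) (fun x => ?_) hQ1
  · intro r _
    set i₁ : Item := ⟨Q, r + Q * K * h, U⟩ with hi₁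
    set i₂ : Item := ⟨Q, r + Q * K * h', U⟩ with hi₂
    have hok₁ : Ok i₁ := ⟨hQ1, hU, dvd_refl _⟩
    have hok₂ : Ok i₂ := ⟨hQ1, hU, dvd_refl _⟩
    have hper : ∀ k, Vb c U (r + Q * K * k) = Vb c U r := by
      intro k
      rw [mul_assoc]
      exact Vb_per c U r (K * k)
    have hwd : ∀ b : ℕ, (⟨Q, b, U⟩ : Item).wd = 1 / 3 := by
      intro b
      unfold Item.wd
      simp only
      rw [hQ]
      push_cast
      field_simp
    have hpos : ∀ k : ℕ, (⟨Q, r + Q * K * k, U⟩ : Item).pos sg = sg * (r / Q + K * k) := by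
      intro k
      unfold Item.pos
      simp only
      push_cast
      field_simp
    have hKh : (K : ℝ) * h + 1 ≤ K * h' := by
      have : K * h + 1 ≤ K * h' := by nlinarith
      exact_mod_cast this
    have hw1 := win hf hB hn hc hsg _ [i₁] rfl (by simpa using hok₁) (List.pairwise_singleton _ _)
    have hw2 := win hf hB hn hc hsg _ [i₂] rfl (by simpa using hok₂) (List.pairwise_singleton _ _)
    have hw12 : MV (fun y => Wn f α β c U (Q * y + (r + Q * K * h)) *
        Wn f α β c U (Q * y + (r + Q * K * h'))) (Vb c U r * Vb c U r) := by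
      have hs : sg = 1 ∨ sg = -1 := by
        have : (sg - 1) * (sg + 1) = 0 := by ring_nf; linarith
        rcases mul_eq_zero.1 this with h | h
        · left; linarith
        · right; linarith
      rcases hs with hs | hs
      · have := win hf hB hn hc hsg _ [i₁, i₂] rfl (by
          intro i hi
          simp only [List.mem_cons, List.not_mem_nil, or_false] at hi
          rcases hi with rfl | rfl <;> assumption) (by
          rw [List.pairwise_pair]
          unfold Bef
          rw [hi₁, hi₂, hwd, hpos, hpos, hs]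
          linarith)
        unfold PW PV at this
        simp only [List.map_cons, List.map_nil, List.prod_cons, List.prod_nil, mul_one] at this
        rw [hi₁, hi₂] at this
        simp only [hper] at this
        exact this
      · have := win hf hB hn hc hsg _ [i₂, i₁] rfl (by
          intro i hi
          simp only [List.mem_cons, List.not_mem_nil, or_false] at hi
          rcases hi with rfl | rfl <;> assumption) (by
          rw [List.pairwise_pair]
          unfold Bef
          rw [hi₁, hi₂, hwd, hpos, hpos, hs]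
          linarith)
        unfold PW PV at this
        simp only [List.map_cons, List.map_nil, List.prod_cons, List.prod_nil, mul_one] at this
        rw [hi₁, hi₂] at this
        simp only [hper] at this
        have h2 : (fun y => Wn f α β c U (Q * y + (r + Q * K * h)) *
            Wn f α β c U (Q * y + (r + Q * K * h'))) = fun y =>
            Wn f α β c U (Q * y + (r + Q * K * h')) * Wn f α β c U (Q * y + (r + Q * K * h)) := by
          funext y; ring
        rw [h2]
        exact this
    unfold PW PV at hw1 hw2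
    simp only [List.map_cons, List.map_nil, List.prod_cons, List.prod_nil, mul_one] at hw1 hw2
    rw [hi₁] at hw1
    rw [hi₂] at hw2
    simp only [hper] at hw1 hw2
    have htot := (hw12.add ((hw1.const_mul (-Vb c U r)).add ((hw2.const_mul (-Vb c U r)).add
      (MV.const (Vb c U r * Vb c U r)))))
    have e1 : Vb c U r * Vb c U r + (-Vb c U r * Vb c U r + (-Vb c U r * Vb c U r +
        Vb c U r * Vb c U r)) = 0 := by ring
    rw [e1] at htot
    convert htot using 2 with y
    have e2 : ∀ k, Vb c U (r + Q * y + Q * K * k) = Vb c U r := by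
      intro k
      rw [show r + Q * y + Q * K * k = r + Q * (y + K * k) by ring]
      exact Vb_per c U r _
    unfold Gw
    rw [e2, e2]
    rw [show r + Q * y + Q * K * h = Q * y + (r + Q * K * h) by ring,
      show r + Q * y + Q * K * h' = Q * y + (r + Q * K * h') by ring]
    ring
  · rw [abs_mul]
    exact mul_le_one₀ (Gw_abs _ _ _) (abs_nonneg _) (Gw_abs _ _ _)

/-- **the local averages** -/
theorem loc_avg (hf : AddF f) (hB : Tendsto (Bq f) atTop atTop) (hn : Nrm f α β)
    {c : ℕ} {sg : ℝ} (hc : sg = 2 * c - 3) (hsg : sg ^ 2 = 1) {U : List ℝ} (hU : U ≠ []) {K : ℕ}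
    (hK : 1 ≤ K) {η : ℝ} (hη : 0 < η) : ∃ H₀ : ℕ, ∀ H : ℕ, H₀ ≤ H → ∃ X₀ : ℕ, 1 ≤ H ∧ ∀ X : ℕ, X₀ ≤ X →
      ∑ x ∈ range X, |(∑ h ∈ range H, Wn f α β c U (x + 2 ^ (U.length - 1) * K * h)) / H - Vb c U x| ≤
        η * X := by
  classical
  set q := 2 ^ (U.length - 1) * K with hq
  obtain ⟨H₀, hH₀⟩ := exists_nat_gt (2 / η ^ 2)
  refine ⟨H₀ + 1, fun H hHH => ?_⟩
  have hH1 : 1 ≤ H := by omega
  have hH0 : (0 : ℝ) < H := by exact_mod_cast hH1
  have hH : 2 / (H : ℝ) ≤ η ^ 2 := by
    have : 2 / η ^ 2 < H := hH₀.trans_le (by exact_mod_cast (by omega : H₀ ≤ H))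
    rw [div_lt_iff₀ (by positivity)] at this
    rw [div_le_iff₀ hH0]
    linarith
  have hoff : MV (fun x => ∑ h ∈ range H, ∑ h' ∈ range H, if h = h' then 0 else
      Gw f α β c U (x + q * h) * Gw f α β c U (x + q * h')) 0 := by
    apply MV.sum
    intro h _
    apply MV.sum
    intro h' _
    rcases lt_trichotomy h h' with hlt | heq | hgt
    · have := corr hf hB hn hc hsg hU hK hlt
      simp only [if_neg hlt.ne]
      exact this
    · simp only [if_pos heq]
      exact MV.const 0
    · have := corr hf hB hn hc hsg hU hK hgt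
      simp only [if_neg hgt.ne']
      convert this using 2 with x
      ring
  obtain ⟨X₀, hX₀⟩ := Metric.tendsto_atTop.1 hoff 1 one_pos
  refine ⟨X₀ + 1, hH1, fun X hX => ?_⟩
  have hX0 : (0 : ℝ) < X := by exact_mod_cast (by omega : 0 < X)
  have h1 := hX₀ X (by omega)
  rw [Real.dist_eq, sub_zero, abs_div, Nat.abs_cast, div_lt_iff₀ hX0, one_mul] at h1
  have h2 := (abs_lt.1 h1).2
  have e1 : ∀ x, (∑ h ∈ range H, Wn f α β c U (x + q * h)) / H - Vb c U x =
      (∑ h ∈ range H, Gw f α β c U (x + q * h)) / H := by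
    intro x
    unfold Gw
    rw [sum_sub_distrib]
    have : ∀ h ∈ range H, Vb c U (x + q * h) = Vb c U x := by
      intro h _
      rw [hq, mul_assoc]
      exact Vb_per c U x _
    rw [sum_congr rfl this, sum_const, card_range, nsmul_eq_mul, sub_div]
    field_simp
  simp only [e1]
  have e2 : ∑ x ∈ range X, (∑ h ∈ range H, Gw f α β c U (x + q * h)) ^ 2 ≤ (H + 1) * X := by
    have e3 : ∀ x ∈ range X, (∑ h ∈ range H, Gw f α β c U (x + q * h)) ^ 2 ≤
        (∑ h ∈ range H, ∑ h' ∈ range H, if h = h' then 0 else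
          Gw f α β c U (x + q * h) * Gw f α β c U (x + q * h')) + H := by
      intro x _
      rw [sq, sum_mul_sum]
      have e4 : ∀ h ∈ range H, ∑ h' ∈ range H, Gw f α β c U (x + q * h) * Gw f α β c U (x + q * h') ≤
          (∑ h' ∈ range H, if h = h' then 0 else
            Gw f α β c U (x + q * h) * Gw f α β c U (x + q * h')) + 1 := by
        intro h hh
        have e5 : ∀ h' ∈ range H, Gw f α β c U (x + q * h) * Gw f α β c U (x + q * h') =
            (if h = h' then 0 else Gw f α β c U (x + q * h) * Gw f α β c U (x + q * h')) +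
            (if h = h' then Gw f α β c U (x + q * h) * Gw f α β c U (x + q * h') else 0) := by
          intro h' _
          split_ifs <;> simp
        rw [sum_congr rfl e5, sum_add_distrib, sum_ite_eq, if_pos hh]
        have := Gw_abs (f := f) (α := α) (β := β) c U (x + q * h)
        have h3 : Gw f α β c U (x + q * h) * Gw f α β c U (x + q * h) ≤ 1 := by
          rw [← abs_mul_abs_self]
          exact mul_le_one₀ this (abs_nonneg _) this
        linarith
      refine (sum_le_sum e4).trans (le_of_eq ?_)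
      rw [sum_add_distrib, sum_const, card_range, nsmul_eq_mul, mul_one]
    refine (sum_le_sum e3).trans ?_
    rw [sum_add_distrib, sum_const, card_range, nsmul_eq_mul]
    nlinarith
  have e3 : (∑ x ∈ range X, |(∑ h ∈ range H, Gw f α β c U (x + q * h)) / H|) ^ 2 ≤ (η * X) ^ 2 := by
    have e4 := sq_sum_le_card_mul_sum_sq (s := range X)
      (f := fun x => |(∑ h ∈ range H, Gw f α β c U (x + q * h)) / H|)
    rw [card_range] at e4
    refine e4.trans ?_
    have e5 : ∑ x ∈ range X, |(∑ h ∈ range H, Gw f α β c U (x + q * h)) / H| ^ 2 ≤ η ^ 2 * X := by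
      have e6 : ∀ x ∈ range X, |(∑ h ∈ range H, Gw f α β c U (x + q * h)) / H| ^ 2 =
          (∑ h ∈ range H, Gw f α β c U (x + q * h)) ^ 2 / (H : ℝ) ^ 2 := by
        intro x _
        rw [sq_abs, div_pow]
      rw [sum_congr rfl e6, ← sum_div]
      calc _ ≤ ((H + 1) * X) / (H : ℝ) ^ 2 := div_le_div_of_nonneg_right e2 (by positivity)
        _ ≤ (2 / H) * X := by
            have hH1' : (1 : ℝ) ≤ H := by exact_mod_cast hH1
            rw [div_le_iff₀ (by positivity)]
            have : 2 / (H : ℝ) * X * H ^ 2 = 2 * H * X := by field_simp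
            rw [this]
            nlinarith
        _ ≤ _ := mul_le_mul_of_nonneg_right hH hX0.le
    calc (X : ℝ) * ∑ x ∈ range X, |(∑ h ∈ range H, Gw f α β c U (x + q * h)) / H| ^ 2 ≤
          X * (η ^ 2 * X) := mul_le_mul_of_nonneg_left e5 hX0.le
      _ = _ := by ring
  exact (pow_le_pow_iff_left₀ (sum_nonneg fun _ _ => abs_nonneg _) (by positivity) (by norm_num)).1 e3

end Pool.Agent.H998_EK
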