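import Pool.Agent.R344.SP.MB
import Pool.Agent.H998_EK.Avg

/-!
Library H998_EK (helper998): windows along the trajectories of the integers of both signs.
-/

set_option autoImplicit false
set_option linter.unusedSectionVars false

namespace Pool.Agent.H998_EK

open Finset Filter Topology
open Pool.Agent.H499R2.CO (Tz)
open Pool.Agent.R344.SP

/-- the sampling principle with more general steps -/
theorem sampling_gen {T : ℤ → ℤ} (hT : ∀ x, T x = if x % 2 = 0 then x / 2 else (3 * x + 1) / 2)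
    {κ : ℝ} (hκ : κ < 2 / Real.log (4 / 3)) {ε : ℝ} (hε : 0 < ε) :
    ∃ m : ℕ, ∀ M H : ℕ, 1 ≤ H →
      Few (α := {g : ℕ → ℤ → ℝ // ∀ s x, |g s x| ≤ 1}) ε (fun g n => ∃ t : ℕ, (t : ℝ) ≤ κ * Real.log |(n : ℝ)| ∧
        ε * Real.log |(n : ℝ)| < |∑ k ∈ range t, (g.1 k (T^[k] n)
          - (∑ h ∈ range H, g.1 k (T^[k] n + (3 ^ m * M) * h)) / H)|) := by
  obtain ⟨κ', hκ0, hκκ, hκ1⟩ := kappa_bridge hκ
  have hsp : ∀ d : ℤ, (d = 1 ∨ d = -1) → ∃ m : ℕ, ∀ (q : ℤ) (H : ℕ), d * 3 ^ m ∣ q → 1 ≤ H →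
      ∃ N₀ : ℕ, ∀ N ≥ N₀, ∀ g : ℕ → ℤ → ℝ, (∀ s x, |g s x| ≤ 1) → ∀ S : Finset ℕ,
        (∀ n ∈ S, 1 ≤ n ∧ n ≤ N ∧ ∃ t : ℕ, (t : ℝ) ≤ κ' * Real.log n ∧ ε / 2 / 2 * Real.log N <
          |∑ k ∈ range t, (g k ((Tz d)^[k] n) - (∑ h ∈ range H, g k ((Tz d)^[k] n + q * h)) / H)|) →
        (S.card : ℝ) ≤ ε / 2 / 2 * N := by
    intro d hd
    apply sampling _ _ hκ0 hκ1 (by positivity)
    · rcases hd with h | h <;> rw [h] <;> norm_num
    · rcases hd with h | h <;> rw [h]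
      · exact isCoprime_one_left
      · exact (isCoprime_one_left).neg_left
  obtain ⟨m₁, hm₁⟩ := hsp 1 (Or.inl rfl)
  obtain ⟨m₂, hm₂⟩ := hsp (-1) (Or.inr rfl)
  refine ⟨m₁ + m₂, fun M H hH => few_of_signs fun d hd => ?_⟩
  have hq : ∃ N₀ : ℕ, ∀ N ≥ N₀, ∀ g : ℕ → ℤ → ℝ, (∀ s x, |g s x| ≤ 1) → ∀ S : Finset ℕ,
        (∀ n ∈ S, 1 ≤ n ∧ n ≤ N ∧ ∃ t : ℕ, (t : ℝ) ≤ κ' * Real.log n ∧ ε / 2 / 2 * Real.log N <
          |∑ k ∈ range t, (g k ((Tz d)^[k] n)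
            - (∑ h ∈ range H, g k ((Tz d)^[k] n + (d * (3 ^ (m₁ + m₂) * M)) * h)) / H)|) →
        (S.card : ℝ) ≤ ε / 2 / 2 * N := by
    rcases hd with rfl | rfl
    · exact hm₁ _ H ⟨3 ^ m₂ * M, by rw [pow_add]; ring⟩ hH
    · exact hm₂ _ H ⟨3 ^ m₁ * M, by rw [pow_add]; ring⟩ hH
  obtain ⟨N₀, hN₀⟩ := hq
  set α := {g : ℕ → ℤ → ℝ // ∀ s x, |g s x| ≤ 1} with hα
  have hfin := finish (α := α) hκκ (fun g n t => |∑ k ∈ range t, (g.1 k (d * (Tz d)^[k] n)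
      - (∑ h ∈ range H, g.1 k (d * ((Tz d)^[k] n + (d * (3 ^ (m₁ + m₂) * M)) * h))) / H)|)
      (ε := ε / 2) (by positivity)
      ⟨N₀, fun N hN g S hS => hN₀ N hN (fun k x => g.1 k (d * x)) (fun k x => g.2 _ _) S hS⟩
  obtain ⟨N₁, hN₁⟩ := hfin
  refine ⟨N₁, fun N hN g => le_trans ?_ (hN₁ N hN g)⟩
  have hdd : d * d = 1 := by rcases hd with rfl | rfl <;> norm_num
  have e1 : ∀ n t : ℕ, (∑ k ∈ range t, (g.1 k (T^[k] (d * n)) - (∑ h ∈ range H,
      g.1 k (T^[k] (d * n) + (3 ^ (m₁ + m₂) * M) * h)) / H)) = ∑ k ∈ range t, (g.1 k (d * (Tz d)^[k] n)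
      - (∑ h ∈ range H, g.1 k (d * ((Tz d)^[k] n + (d * (3 ^ (m₁ + m₂) * M)) * h))) / H) := by
    intro n t
    apply sum_congr rfl
    intro k _
    rw [iter_d hT hd]
    congr 2
    apply sum_congr rfl
    intro h _
    congr 1
    rw [mul_add, mul_assoc d, ← mul_assoc d d, hdd, one_mul]
  have hsub : {n : ℕ | 1 ≤ n ∧ n ≤ N ∧ ∃ t : ℕ, (t : ℝ) ≤ κ * Real.log |((d * n : ℤ) : ℝ)| ∧
        ε * Real.log |((d * n : ℤ) : ℝ)| < |∑ k ∈ range t, (g.1 k (T^[k] (d * n))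
          - (∑ h ∈ range H, g.1 k (T^[k] (d * n) + (3 ^ (m₁ + m₂) * M) * h)) / H)|}
      ⊆ {n : ℕ | 1 ≤ n ∧ n ≤ N ∧ ∃ t : ℕ, (t : ℝ) ≤ κ * Real.log n ∧ ε / 2 * Real.log n <
        |∑ k ∈ range t, (g.1 k (d * (Tz d)^[k] n)
      - (∑ h ∈ range H, g.1 k (d * ((Tz d)^[k] n + (d * (3 ^ (m₁ + m₂) * M)) * h))) / H)|} := by
    rintro n ⟨h1, h2, t, ht, hb⟩
    rw [abs_d hd] at ht hb
    rw [e1] at hb
    have hlog : 0 ≤ Real.log n := Real.log_nonneg (by exact_mod_cast h1)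
    exact ⟨h1, h2, t, ht, lt_of_le_of_lt (by nlinarith) hb⟩
  exact_mod_cast Set.ncard_le_ncard hsub ((Set.finite_Iic N).subset (fun n hn => hn.2.1))

/-- the indicator function of a window -/
noncomputable def WZ (f α β : ℕ → ℝ) (T : ℤ → ℤ) : List ℝ → ℤ → ℝ
  | [], _ => 1
  | u :: U, x => ie f α β u x.natAbs * WZ f α β T U (T x)

/-- the limit frequency, given the parities -/
noncomputable def VZ (T : ℤ → ℤ) : List ℝ → ℤ → ℝ
  | [], _ => 1
  | [u], _ => Phi u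
  | u :: v :: U, x => if x % 2 = 0 then VZ T (min u v :: U) (T x) else
      Phi u * VZ T (v :: U) (T x)
termination_by U => U.length

/-- the limit frequency of a window -/
noncomputable def Vl : List ℝ → ℝ
  | [] => 1
  | [u] => Phi u
  | u :: v :: U => (Vl (min u v :: U) + Phi u * Vl (v :: U)) / 2
termination_by U => U.length

variable {f α β : ℕ → ℝ}

lemma T_St {T : ℤ → ℤ} (hT : ∀ x, T x = if x % 2 = 0 then x / 2 else (3 * x + 1) / 2) {d : ℤ} {c : ℕ}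
    (hdc : d = 1 ∧ c = 2 ∨ d = -1 ∧ c = 1) (n : ℕ) : T (d * n) = d * (St c n : ℕ) := by
  rw [hT]
  unfold St
  rcases hdc with ⟨rfl, rfl⟩ | ⟨rfl, rfl⟩
  · by_cases h : n % 2 = 0
    · rw [if_pos (by omega), if_pos h]; omega
    · rw [if_neg (by omega), if_neg h]; omega
  · by_cases h : n % 2 = 0
    · rw [if_pos (by omega), if_pos h]; omega
    · rw [if_neg (by omega), if_neg h]; omega

lemma WZ_eq {T : ℤ → ℤ} (hT : ∀ x, T x = if x % 2 = 0 then x / 2 else (3 * x + 1) / 2) {d : ℤ} {c : ℕ}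
    (hdc : d = 1 ∧ c = 2 ∨ d = -1 ∧ c = 1) : ∀ (U : List ℝ) (n : ℕ),
    WZ f α β T U (d * n) = Wn f α β c U n
  | [], n => by simp [WZ, Wn]
  | u :: U, n => by
    rw [WZ, Wn, T_St hT hdc, WZ_eq hT hdc U]
    congr 2
    rcases hdc with ⟨rfl, _⟩ | ⟨rfl, _⟩ <;> simp

lemma VZ_eq {T : ℤ → ℤ} (hT : ∀ x, T x = if x % 2 = 0 then x / 2 else (3 * x + 1) / 2) {d : ℤ} {c : ℕ}
    (hdc : d = 1 ∧ c = 2 ∨ d = -1 ∧ c = 1) : ∀ (U : List ℝ) (n : ℕ),
    VZ T U (d * n) = Vb c U n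
  | [], n => by simp [VZ, Vb]
  | [u], n => by rw [VZ, Vb]
  | u :: v :: U, n => by
    have hpar : (d * (n : ℤ)) % 2 = 0 ↔ n % 2 = 0 := by
      rcases hdc with ⟨rfl, _⟩ | ⟨rfl, _⟩ <;> omega
    rw [VZ, Vb, T_St hT hdc]
    by_cases h : n % 2 = 0
    · rw [if_pos (hpar.2 h), if_pos h, VZ_eq hT hdc (min u v :: U)]
      congr 1
      unfold St
      rw [if_pos h]
    · rw [if_neg (fun h' => h (hpar.1 h')), if_neg h, VZ_eq hT hdc (v :: U)]
      congr 2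
      unfold St
      rw [if_neg h]
termination_by U => U.length

lemma WZ_01 (T : ℤ → ℤ) : ∀ (U : List ℝ) (x : ℤ), 0 ≤ WZ f α β T U x ∧ WZ f α β T U x ≤ 1
  | [], x => by simp [WZ]
  | u :: U, x => by
    have h1 := ie_01 f α β u x.natAbs
    have h2 := WZ_01 T U (T x)
    rw [WZ]
    exact ⟨mul_nonneg h1.1 h2.1, mul_le_one₀ h1.2 h2.1 h2.2⟩

lemma VZ_01 (T : ℤ → ℤ) : ∀ (U : List ℝ) (x : ℤ), 0 ≤ VZ T U x ∧ VZ T U x ≤ 1
  | [], x => by simp [VZ]
  | [u], x => by rw [VZ]; exact ⟨Phi_nonneg u, Phi_le_one u⟩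
  | u :: v :: U, x => by
    rw [VZ]
    split_ifs
    · exact VZ_01 T (min u v :: U) (T x)
    · have h1 := VZ_01 T (v :: U) (T x)
      exact ⟨mul_nonneg (Phi_nonneg u) h1.1, mul_le_one₀ (Phi_le_one u) h1.1 h1.2⟩
termination_by U => U.length

lemma VZ_per {T : ℤ → ℤ} (hT : ∀ x, T x = if x % 2 = 0 then x / 2 else (3 * x + 1) / 2) :
    ∀ (U : List ℝ) (x z : ℤ), VZ T U (x + (2 ^ (U.length - 1) : ℕ) * z) = VZ T U x
  | [], x, z => by simp [VZ]
  | [u], x, z => by simp [VZ]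
  | u :: v :: U, x, z => by
    have h0 : (u :: v :: U).length - 1 = U.length + 1 := by simp
    rw [h0]
    have h1 : x + ((2 ^ (U.length + 1) : ℕ) : ℤ) * z = x + 2 * (((2 ^ U.length : ℕ) : ℤ) * z) := by
      push_cast; ring
    rw [h1]
    set w := ((2 ^ U.length : ℕ) : ℤ) * z with hw
    have h2 : (x + 2 * w) % 2 = x % 2 := by omega
    rw [VZ, VZ, h2]
    by_cases h : x % 2 = 0
    · rw [if_pos h, if_pos h]
      have h3 : T (x + 2 * w) = T x + w := by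
        rw [hT, hT, if_pos (by omega), if_pos h]; omega
      rw [h3, hw]
      have := VZ_per hT (min u v :: U) (T x) z
      simpa using this
    · rw [if_neg h, if_neg h]
      have h3 : T (x + 2 * w) = T x + 3 * w := by
        rw [hT, hT, if_neg (by omega), if_neg h]; omega
      rw [h3, hw]
      have := VZ_per hT (v :: U) (T x) (3 * z)
      simp only [List.length_cons, Nat.add_sub_cancel] at this
      rw [← this]
      congr 2
      ring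
termination_by U => U.length

lemma sum_two (F : ℤ → ℝ) : ∀ n : ℕ, ∑ i ∈ range (2 * n), F i =
    ∑ i ∈ range n, F ((2 * i : ℕ) : ℤ) + ∑ i ∈ range n, F ((2 * i + 1 : ℕ) : ℤ)
  | 0 => by simp
  | n + 1 => by
    rw [show 2 * (n + 1) = 2 * n + 1 + 1 by ring, sum_range_succ, sum_range_succ, sum_two F n,
      sum_range_succ, sum_range_succ]
    ring

lemma VZ_mean {T : ℤ → ℤ} (hT : ∀ x, T x = if x % 2 = 0 then x / 2 else (3 * x + 1) / 2) :
    ∀ (U : List ℝ), mn (VZ T U) (2 ^ (U.length - 1)) = Vl U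
  | [] => by simp [mn, VZ, Vl]
  | [u] => by simp [mn, VZ, Vl]
  | u :: v :: U => by
    have ih1 := VZ_mean hT (min u v :: U)
    have ih2 := VZ_mean hT (v :: U)
    have h0 : (u :: v :: U).length - 1 = U.length + 1 := by simp
    simp only [List.length_cons, Nat.add_sub_cancel] at ih1 ih2
    rw [h0, Vl, ← ih1, ← ih2]
    unfold mn
    rw [pow_succ, mul_comm (2 ^ U.length) 2, sum_two]
    have h1 : ∀ i ∈ range (2 ^ U.length), VZ T (u :: v :: U) ((2 * i : ℕ) : ℤ) =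
        VZ T (min u v :: U) i := by
      intro i _
      rw [VZ, if_pos (by omega)]
      congr 1
      rw [hT, if_pos (by omega)]
      omega
    have h2 : ∀ i ∈ range (2 ^ U.length), VZ T (u :: v :: U) ((2 * i + 1 : ℕ) : ℤ) =
        Phi u * VZ T (v :: U) (2 + 3 * i) := by
      intro i _
      rw [VZ, if_neg (by omega)]
      congr 2
      rw [hT, if_neg (by omega)]
      omega
    have h3 : ∑ i ∈ range (2 ^ U.length), VZ T (v :: U) (2 + 3 * i) =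
        ∑ i ∈ range (2 ^ U.length), VZ T (v :: U) i := by
      apply cover_sum Nat.one_le_two_pow
      · intro x z
        have := VZ_per hT (v :: U) x z
        simpa using this
      · have : IsCoprime ((3 : ℤ) ^ 1) ((2 ^ U.length : ℕ) : ℤ) := cop3 (by
          apply Nat.Coprime.pow_right; norm_num)
        simpa using this
    rw [sum_congr rfl h1, sum_congr rfl h2, ← mul_sum, h3]
    push_cast
    field_simp
termination_by U => U.length

end Pool.Agent.H998_EK
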