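import Pool.Agent.H998_EK.Desc

/-!
Library H998_EK (helper998): the law of the boxes, and the terms of prescribed size and type.
-/

set_option autoImplicit false

namespace Pool.Agent.H998_EK

open Finset Filter Topology MeasureTheory ProbabilityTheory
open Pool.Agent.R344.SP

/-- the difference of two laws -/
theorem Ap_sub {T : ℤ → ℤ} {g g' : ℤ → ℝ} {κ L L' : ℝ} (h : ∀ c : ℝ, 0 < c → Ap T g κ L c)
    (h' : ∀ c : ℝ, 0 < c → Ap T g' κ L' c) {c : ℝ} (hc : 0 < c) :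
    Ap T (fun x => g x - g' x) κ (L - L') c := by
  have h1 := h (c / 2) (by positivity)
  have h2 := h' (c / 2) (by positivity)
  have h3 := Few.union h1 h2 (B'' := fun (w : Wt) n => ∃ t : ℕ, (t : ℝ) ≤ κ * Real.log |(n : ℝ)| ∧
    c * Real.log |(n : ℝ)| < |∑ k ∈ range t, w.1 k * (g (T^[k] n) - g' (T^[k] n) - (L - L'))|) id id ?_
  · have e : c / 2 + c / 2 = c := by ring
    rw [e] at h3
    exact h3
  rintro w n _ ⟨t, ht, hb⟩
  by_contra hcon
  rw [not_or] at hcon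
  obtain ⟨b1, b2⟩ := hcon
  push Not at b1 b2
  have c1 := b1 t ht
  have c2 := b2 t ht
  simp only [id] at c1 c2
  have e : ∑ k ∈ range t, w.1 k * (g (T^[k] n) - g' (T^[k] n) - (L - L')) =
      ∑ k ∈ range t, w.1 k * (g (T^[k] n) - L) - ∑ k ∈ range t, w.1 k * (g' (T^[k] n) - L') := by
    rw [← sum_sub_distrib]
    exact sum_congr rfl fun k _ => by ring
  rw [e] at hb
  have := (abs_sub _ _).trans (add_le_add c1 c2)
  linarith

lemma Phi_lt {u v : ℝ} (h : u < v) : Phi u < Phi v := by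
  have h1 : Set.Iic v = Set.Iic u ∪ Set.Ioc u v := (Set.Iic_union_Ioc_eq_Iic h.le).symm
  have h2 : Disjoint (Set.Iic u) (Set.Ioc u v) := by
    rw [Set.disjoint_left]
    intro x hx hx'
    exact absurd hx'.1 (not_lt.2 hx)
  unfold Phi
  rw [h1, measureReal_union h2 measurableSet_Ioc]
  have h3 : 0 < (gaussianReal 0 1).real (Set.Ioc u v) := by
    rw [measureReal_def, ENNReal.toReal_pos_iff]
    refine ⟨?_, measure_lt_top _ _⟩
    rw [pos_iff_ne_zero]
    intro h0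
    have h4 := gaussianReal_absolutelyContinuous' 0 (v := 1) one_ne_zero h0
    rw [Real.volume_Ioc] at h4
    have : v - u ≤ 0 := ENNReal.ofReal_eq_zero.1 h4
    linarith
  linarith

/-- the frequency of windows followed by boxes -/
noncomputable def Mb : List ℝ → List (ℝ × ℝ) → ℝ
  | U, [] => Vl U
  | U, p :: B => Mb (U ++ [p.2]) B - Mb (U ++ [p.1]) B

/-- boxes -/
noncomputable def BX (f α β : ℕ → ℝ) (T : ℤ → ℤ) : List (ℝ × ℝ) → ℤ → ℝ
  | [], _ => 1
  | p :: B, x => (ie f α β p.2 x.natAbs - ie f α β p.1 x.natAbs) * BX f α β T B (T x)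

lemma Mb_head : ∀ (B : List (ℝ × ℝ)) (U : List ℝ) (w w' : ℝ),
    Mb (w :: w' :: U) B = (Mb (min w w' :: U) B + Phi w * Mb (w' :: U) B) / 2
  | [], U, w, w' => by rw [Mb, Mb, Mb, Vl]
  | p :: B, U, w, w' => by
    rw [Mb, Mb, Mb]
    simp only [List.cons_append]
    rw [Mb_head B (U ++ [p.2]) w w', Mb_head B (U ++ [p.1]) w w']
    ring

lemma Mb_nil (p : ℝ × ℝ) (B : List (ℝ × ℝ)) : Mb [] (p :: B) = Mb [p.2] B - Mb [p.1] B := by
  rw [Mb]; simp

lemma Mb_one (w : ℝ) (p : ℝ × ℝ) (B : List (ℝ × ℝ)) : Mb [w] (p :: B) =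
    (Phi w * Mb [] (p :: B) + (Mb [min w p.2] B - Mb [min w p.1] B)) / 2 := by
  rw [Mb_nil, Mb]
  simp only [List.cons_append, List.nil_append]
  rw [Mb_head B [] w p.2, Mb_head B [] w p.1]
  ring

theorem Mb_pos : ∀ (B : List (ℝ × ℝ)) (p : ℝ × ℝ), p.1 < p.2 → (∀ q ∈ B, q.1 < q.2) → 0 < Mb [] (p :: B)
  | [], p, hp, _ => by
    rw [Mb_nil, Mb, Mb, Vl, Vl]
    linarith [Phi_lt hp]
  | q :: B, p, hp, hB => by
    have hq := hB q (by simp)
    have hB' : ∀ r ∈ B, r.1 < r.2 := fun r hr => hB r (by simp [hr])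
    rw [Mb_nil, Mb_one, Mb_one]
    have h1 := Mb_pos B q hq hB'
    have h2 := Phi_lt hp
    have h3 : 0 ≤ (Mb [min p.2 q.2] B - Mb [min p.2 q.1] B) - (Mb [min p.1 q.2] B - Mb [min p.1 q.1] B) := by
      by_cases h : max p.1 q.1 < min p.2 q.2
      · obtain ⟨g1, g2⟩ := max_lt_iff.1 h
        obtain ⟨g3, g4⟩ := lt_min_iff.1 g1
        obtain ⟨g5, g6⟩ := lt_min_iff.1 g2
        have h4 := Mb_pos B (max p.1 q.1, min p.2 q.2) h hB'
        rw [Mb_nil] at h4
        simp only at h4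
        rw [min_eq_right g5.le, min_eq_left g4.le]
        rcases le_total p.1 q.1 with h5 | h5
        · rw [max_eq_right h5] at h4
          rw [min_eq_left h5]
          linarith
        · rw [max_eq_left h5] at h4
          rw [min_eq_right h5]
          linarith
      · rw [not_lt] at h
        have h5 : p.2 ≤ q.1 ∨ q.2 ≤ p.1 := by
          rcases min_choice p.2 q.2 with h6 | h6
          · rw [h6] at h
            rcases le_max_iff.1 h with h7 | h7
            · linarith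
            · exact Or.inl h7
          · rw [h6] at h
            rcases le_max_iff.1 h with h7 | h7
            · exact Or.inr h7
            · linarith
        rcases h5 with h5 | h5
        · rw [min_eq_left (by linarith : p.2 ≤ q.2), min_eq_left h5, min_eq_left (by linarith : p.1 ≤ q.2),
            min_eq_left (by linarith : p.1 ≤ q.1)]
          linarith
        · rw [min_eq_right (by linarith : q.2 ≤ p.2), min_eq_right (by linarith : q.1 ≤ p.2),
            min_eq_right h5, min_eq_right (by linarith : q.1 ≤ p.1)]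
          linarith
    have h6 : 0 < (Phi p.2 - Phi p.1) * Mb [] (q :: B) := mul_pos (by linarith) h1
    have e : (Phi p.2 * Mb [] (q :: B) + (Mb [min p.2 q.2] B - Mb [min p.2 q.1] B)) / 2 -
        (Phi p.1 * Mb [] (q :: B) + (Mb [min p.1 q.2] B - Mb [min p.1 q.1] B)) / 2 =
        ((Phi p.2 - Phi p.1) * Mb [] (q :: B) +
          ((Mb [min p.2 q.2] B - Mb [min p.2 q.1] B) - (Mb [min p.1 q.2] B - Mb [min p.1 q.1] B))) / 2 := by
      ring
    rw [e]
    linarith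

variable {f α β : ℕ → ℝ}

lemma WZ_append (T : ℤ → ℤ) (v : ℝ) : ∀ (U : List ℝ) (x : ℤ),
    WZ f α β T (U ++ [v]) x = WZ f α β T U x * ie f α β v (T^[U.length] x).natAbs
  | [], x => by simp [WZ]
  | u :: U, x => by
    rw [List.cons_append, WZ, WZ, WZ_append T v U (T x), List.length_cons, Function.iterate_succ_apply]
    ring

theorem box_law {T : ℤ → ℤ} (hT : ∀ x, T x = if x % 2 = 0 then x / 2 else (3 * x + 1) / 2)
    (hf : AddF f) (hB : Tendsto (Bq f) atTop atTop) (hn : Nrm f α β) {κ : ℝ}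
    (hκ : κ < 2 / Real.log (4 / 3)) : ∀ (B : List (ℝ × ℝ)) (U : List ℝ), (U ≠ [] ∨ B ≠ []) → ∀ c : ℝ, 0 < c →
    Ap T (fun x => WZ f α β T U x * BX f α β T B (T^[U.length] x)) κ (Mb U B) c
  | [], U, hU, c, hc => by
    have h := window_law hT hf hB hn (U := U) (by simpa using hU) hκ hc
    rw [Mb]
    simp only [BX, mul_one]
    exact h
  | p :: B, U, _, c, hc => by
    have h := Ap_sub (fun c hc => box_law hT hf hB hn hκ B (U ++ [p.2]) (Or.inl (by simp)) c hc)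
      (fun c hc => box_law hT hf hB hn hκ B (U ++ [p.1]) (Or.inl (by simp)) c hc) hc
    rw [Mb]
    have e : (fun x => WZ f α β T U x * BX f α β T (p :: B) (T^[U.length] x)) =
        fun x => WZ f α β T (U ++ [p.2]) x * BX f α β T B (T^[(U ++ [p.2]).length] x) -
          WZ f α β T (U ++ [p.1]) x * BX f α β T B (T^[(U ++ [p.1]).length] x) := by
      funext x
      rw [WZ_append, WZ_append, BX, List.length_append, List.length_append, List.length_singleton,
        List.length_singleton, Function.iterate_succ_apply']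
      ring
    rw [e]
    exact h

theorem box_law' {T : ℤ → ℤ} (hT : ∀ x, T x = if x % 2 = 0 then x / 2 else (3 * x + 1) / 2)
    (hf : AddF f) (hB : Tendsto (Bq f) atTop atTop) (hn : Nrm f α β) {B : List (ℝ × ℝ)} (hBn : B ≠ []) (κ c : ℝ)
    (hκ : κ < 2 / Real.log (4 / 3)) (hc : 0 < c) : Ap T (BX f α β T B) κ (Mb [] B) c := by
  have h := box_law hT hf hB hn hκ B [] (Or.inr hBn) c hc
  simpa [WZ] using h

/-- the terms are large -/
lemma T_half {T : ℤ → ℤ} (hT : ∀ x, T x = if x % 2 = 0 then x / 2 else (3 * x + 1) / 2) (x : ℤ) :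
    |(x : ℝ)| / 2 ≤ |((T x : ℤ) : ℝ)| := by
  have h : |x| ≤ 2 * |T x| := by
    rw [hT]
    split_ifs with h
    · obtain ⟨y, rfl⟩ : ∃ y, x = 2 * y := ⟨x / 2, by omega⟩
      rw [Int.mul_ediv_cancel_left _ (by norm_num), abs_mul]
      norm_num
    · rcases abs_cases x with ⟨h1, h2⟩ | ⟨h1, h2⟩ <;> rcases abs_cases ((3 * x + 1) / 2) with ⟨h3, h4⟩ | ⟨h3, h4⟩ <;>
        omega
  have h2 : (|x| : ℝ) ≤ 2 * |((T x : ℤ) : ℝ)| := by exact_mod_cast h
  linarith

lemma T_iter_half {T : ℤ → ℤ} (hT : ∀ x, T x = if x % 2 = 0 then x / 2 else (3 * x + 1) / 2) (x : ℤ) :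
    ∀ i : ℕ, |(x : ℝ)| / 2 ^ i ≤ |((T^[i] x : ℤ) : ℝ)|
  | 0 => by simp
  | i + 1 => by
    rw [Function.iterate_succ_apply']
    refine le_trans ?_ (T_half hT _)
    have := T_iter_half hT x i
    rw [pow_succ, ← div_div]
    linarith

/-- a nonzero box indicator -/
lemma BX_ne {T : ℤ → ℤ} : ∀ (B : List (ℝ × ℝ)) (x : ℤ), (∀ p ∈ B, p.1 < p.2) →
    (∀ i < B.length, 0 ≤ β (T^[i] x).natAbs) → BX f α β T B x ≠ 0 →
    ∀ (i : ℕ) (hi : i < B.length), ¬ Ev f α β (B[i]).1 (T^[i] x).natAbs ∧ Ev f α β (B[i]).2 (T^[i] x).natAbs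
  | [], x, _, _, _, i, hi => by simp at hi
  | p :: B, x, hp, hb, hne, i, hi => by
    rw [BX] at hne
    obtain ⟨h1, h2⟩ := mul_ne_zero_iff.1 hne
    rcases i with _ | i
    · have hb0 : 0 ≤ β x.natAbs := hb 0 (by simp)
      have hp0 : p.1 < p.2 := hp p (by simp)
      show ¬ Ev f α β p.1 x.natAbs ∧ Ev f α β p.2 x.natAbs
      unfold ie at h1
      have hmono : Ev f α β p.1 x.natAbs → Ev f α β p.2 x.natAbs := by
        intro h
        unfold Ev at h ⊢
        have := mul_le_mul_of_nonneg_right hp0.le hb0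
        linarith
      by_cases g2 : Ev f α β p.2 x.natAbs
      · by_cases g1 : Ev f α β p.1 x.natAbs
        · rw [if_pos g2, if_pos g1] at h1; simp at h1
        · exact ⟨g1, g2⟩
      · rw [if_neg g2, if_neg (fun h => g2 (hmono h))] at h1; simp at h1
    · have := BX_ne B (T x) (fun q hq => hp q (by simp [hq])) (fun j hj => by
        have := hb (j + 1) (by simpa using hj)
        rwa [Function.iterate_succ_apply] at this) h2 i (by simpa using hi)
      rw [Function.iterate_succ_apply]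
      exact this

/-- **terms of prescribed size and type** -/
theorem box_few {T : ℤ → ℤ} (hT : ∀ x, T x = if x % 2 = 0 then x / 2 else (3 * x + 1) / 2)
    (hf : AddF f) (hBq : Tendsto (Bq f) atTop atTop) (hn : Nrm f α β) {B : List (ℝ × ℝ)}
    (hBn : B ≠ []) (hB : ∀ p ∈ B, p.1 < p.2) {a b : ℝ} (ha : 0 < a) (hab : a < b) (hb : b ≤ 1)
    {c : ℝ} (hc : 0 < c) :
    Few c (fun (_ : Unit) n => ¬ ∃ k : ℕ, |(n : ℝ)| ^ a ≤ |((T^[k] n : ℤ) : ℝ)| ∧
      |((T^[k] n : ℤ) : ℝ)| ≤ |(n : ℝ)| ^ b ∧ ∀ (i : ℕ) (hi : i < B.length),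
        ¬ Ev f α β (B[i]).1 (T^[i] (T^[k] n)).natAbs ∧ Ev f α β (B[i]).2 (T^[i] (T^[k] n)).natAbs) := by
  obtain ⟨q, B', rfl⟩ := List.exists_cons_of_ne_nil hBn
  have hV : 0 < Mb [] (q :: B') := Mb_pos B' q (hB q (by simp)) fun r hr => hB r (by simp [hr])
  have h1 := descent hT hV (fun κ c hκ hc => box_law' hT hf hBq hn hBn κ c hκ hc) ha hab hb
    (show 0 < c / 2 by positivity)
  -- positivity of the deviation
  have hev : ∀ᶠ N : ℕ in atTop, 0 ≤ β N := by
    filter_upwards [hn.be.eventually (lt_mem_nhds (show (0 : ℝ) < 1 by norm_num)),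
      hBq.eventually_gt_atTop 0] with N h2 h3
    have h4 : 0 < Real.sqrt (Bq f N) := Real.sqrt_pos.2 h3
    exact ((div_pos_iff_of_pos_right h4).1 h2).le
  obtain ⟨N₁, hN₁⟩ := eventually_atTop.1 hev
  set D : ℝ := (N₁ + 1) * 2 ^ (q :: B').length with hD
  have hD0 : 0 < D := by positivity
  have h2 := few_small (show 0 < c / 2 by positivity) (Real.log D / a)
  have h3 := Few.union h1 h2 (B'' := fun (_ : Unit) n => ¬ ∃ k : ℕ, |(n : ℝ)| ^ a ≤ |((T^[k] n : ℤ) : ℝ)| ∧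
      |((T^[k] n : ℤ) : ℝ)| ≤ |(n : ℝ)| ^ b ∧ ∀ (i : ℕ) (hi : i < (q :: B').length),
        ¬ Ev f α β ((q :: B')[i]).1 (T^[i] (T^[k] n)).natAbs ∧
          Ev f α β ((q :: B')[i]).2 (T^[i] (T^[k] n)).natAbs) id id ?_
  · exact Few.mono h3 (by linarith) id (fun _ _ _ h => h)
  intro _ n hn0 hbad
  by_contra hcon
  rw [not_or] at hcon
  obtain ⟨b1, b2⟩ := hcon
  push Not at b2
  apply hbad
  have b1' := not_not.1 b1
  obtain ⟨k, g1, g2, g3⟩ := b1'
  refine ⟨k, g1, g2, ?_⟩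
  have hnp : 0 < |(n : ℝ)| := by rw [abs_pos]; exact_mod_cast hn0
  rw [div_lt_iff₀ ha] at b2
  have hDn : D ≤ |(n : ℝ)| ^ a := by
    rw [Real.rpow_def_of_pos hnp, ← Real.exp_log hD0]
    exact Real.exp_le_exp.2 b2.le
  refine BX_ne (q :: B') (T^[k] n) hB ?_ g3
  intro i hi
  apply hN₁
  have h4 := T_iter_half hT (T^[k] n) i
  have h5 : (N₁ + 1 : ℝ) ≤ |((T^[i] (T^[k] n) : ℤ) : ℝ)| := by
    refine le_trans ?_ h4
    rw [le_div_iff₀ (by positivity)]
    refine le_trans ?_ (hDn.trans g1)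
    rw [hD]
    apply mul_le_mul_of_nonneg_left _ (by positivity)
    exact pow_le_pow_right₀ (by norm_num) hi.le
  have h6 : (N₁ : ℝ) ≤ ((T^[i] (T^[k] n)).natAbs : ℝ) := by
    rw [Nat.cast_natAbs]
    push_cast
    linarith
  exact_mod_cast h6

/-- few exceptions for every constant: density zero -/
theorem few_density {Q : ℤ → Prop} (h : ∀ c : ℝ, 0 < c → Few c (fun (_ : Unit) n => Q n)) :
    Tendsto (fun N : ℕ => (Set.ncard {n : ℤ | |n| ≤ N ∧ Q n} : ℝ) / N) atTop (𝓝 0) := by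
  rw [Metric.tendsto_atTop]
  intro ε hε
  obtain ⟨N₀, hN₀⟩ := h (ε / 4) (by positivity)
  obtain ⟨N₁, hN₁⟩ := exists_nat_gt (max 1 (4 / ε))
  refine ⟨max N₀ N₁, fun N hN => ?_⟩
  have h1 := hN₀ N ((le_max_left _ _).trans hN) ()
  have hNR : (N₁ : ℝ) ≤ N := by exact_mod_cast (le_max_right _ _).trans hN
  have hN1 : 1 ≤ (N : ℝ) := ((le_max_left _ _).trans hN₁.le).trans hNR
  have hN2 : 4 / ε ≤ N := ((le_max_right _ _).trans hN₁.le).trans hNR
  rw [div_le_iff₀ hε] at hN2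
  have hsub : {n : ℤ | |n| ≤ N ∧ Q n} ⊆ {n : ℤ | n ≠ 0 ∧ |n| ≤ N ∧ Q n} ∪ {0} := by
    rintro n ⟨h2, h3⟩
    by_cases h4 : n = 0
    · exact Or.inr h4
    · exact Or.inl ⟨h4, h2, h3⟩
  have hfin : {n : ℤ | n ≠ 0 ∧ |n| ≤ N ∧ Q n}.Finite := fin_box N Q
  have h2 := Set.ncard_le_ncard hsub (hfin.union (Set.finite_singleton 0))
  have h3 := Set.ncard_union_le {n : ℤ | n ≠ 0 ∧ |n| ≤ N ∧ Q n} {0}
  rw [Set.ncard_singleton] at h3
  have h4 : (Set.ncard {n : ℤ | |n| ≤ N ∧ Q n} : ℝ) ≤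
      (Set.ncard {n : ℤ | n ≠ 0 ∧ |n| ≤ N ∧ Q n} : ℝ) + 1 := by exact_mod_cast h2.trans h3
  rw [Real.dist_eq, sub_zero, abs_of_nonneg (by positivity), div_lt_iff₀ (by linarith)]
  have : 0 < ε * N := by positivity
  linarith

end Pool.Agent.H998_EK
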