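import Pool.Agent.H998_EK.Forms

/-!
Library H998_EK (helper998): convergence of the characteristic functions.
-/

set_option autoImplicit false

namespace Pool.Agent.H998_EK

open Finset Filter Topology

lemma exp_lip {x y : ℝ} (hx : 0 ≤ x) (hy : 0 ≤ y) : |Real.exp (-x) - Real.exp (-y)| ≤ |x - y| := by
  have key : ∀ u v : ℝ, 0 ≤ u → u ≤ v → |Real.exp (-u) - Real.exp (-v)| ≤ |u - v| := by
    intro u v hu huv
    have h1 : Real.exp (-v) ≤ Real.exp (-u) := Real.exp_le_exp.2 (by linarith)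
    rw [abs_of_nonneg (by linarith), abs_of_nonpos (by linarith)]
    have h2 : Real.exp (-v) = Real.exp (-u) * Real.exp (-(v - u)) := by
      rw [← Real.exp_add]; congr 1; ring
    have h3 : Real.exp (-u) ≤ 1 := Real.exp_le_one_iff.2 (by linarith)
    have h4 := Real.add_one_le_exp (-(v - u))
    have h5 := Real.exp_pos (-u)
    rw [h2]
    nlinarith
  rcases le_total x y with h | h
  · exact key x y hx h
  · rw [abs_sub_comm, abs_sub_comm x]
    exact key y x hy h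

lemma cis_lip (α β : ℝ) : ‖Complex.exp (α * Complex.I) - Complex.exp (β * Complex.I)‖ ≤ |α - β| := by
  have h1 := cis_taylor 1 (α - β)
  simp only [range_one, sum_singleton, pow_zero, Nat.factorial_zero, Nat.factorial_one, Nat.cast_one, div_one, pow_one] at h1
  have h2 : Complex.exp (α * Complex.I) - Complex.exp (β * Complex.I) =
      Complex.exp (β * Complex.I) * (Complex.exp ((α - β : ℝ) * Complex.I) - 1) := by
    rw [mul_sub, mul_one, ← Complex.exp_add]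
    congr 2
    push_cast
    ring
  rw [h2, norm_mul, Complex.norm_exp_ofReal_mul_I, one_mul]
  exact h1

lemma cis_two (α β : ℝ) : ‖Complex.exp (α * Complex.I) - Complex.exp (β * Complex.I)‖ ≤ 2 := by
  refine (norm_sub_le _ _).trans ?_
  rw [Complex.norm_exp_ofReal_mul_I, Complex.norm_exp_ofReal_mul_I]
  norm_num

/-- the primes which are left out do not matter -/
lemma left_out {g : ℕ → ℝ} (hg : ∀ p : ℕ, p.Prime → |g p| ≤ 1) {p₀ z X : ℕ} {C : ℝ}
    (hC : ∑ p ∈ (Ioc z X).filter Nat.Prime, (1 : ℝ) / p ≤ C) (hzX : z ≤ X) :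
    |∑ p ∈ (Icc 1 X).filter Nat.Prime, g p / p - ∑ p ∈ (Ioc p₀ z).filter Nat.Prime, g p / p| ≤ p₀ + C := by
  classical
  have h1 : (Ioc p₀ z).filter Nat.Prime ⊆ (Icc 1 X).filter Nat.Prime := by
    intro p hp
    rw [mem_filter, mem_Ioc] at hp
    rw [mem_filter, mem_Icc]
    exact ⟨⟨hp.2.one_lt.le, by omega⟩, hp.2⟩
  rw [← sum_sdiff h1, add_sub_cancel_right]
  refine (abs_sum_le_sum_abs _ _).trans ?_
  have h2 : ∀ p ∈ (Icc 1 X).filter Nat.Prime \ (Ioc p₀ z).filter Nat.Prime, |g p / p| ≤ 1 / p := by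
    intro p hp
    rw [Finset.mem_sdiff, mem_filter] at hp
    rw [abs_div, Nat.abs_cast]
    exact div_le_div_of_nonneg_right (hg p hp.1.2) (Nat.cast_nonneg _)
  refine (sum_le_sum h2).trans ?_
  have h3 : (Icc 1 X).filter Nat.Prime \ (Ioc p₀ z).filter Nat.Prime ⊆
      Icc 1 p₀ ∪ (Ioc z X).filter Nat.Prime := by
    intro p hp
    rw [Finset.mem_sdiff, mem_filter, mem_filter, mem_Icc, mem_Ioc] at hp
    rw [mem_union, mem_Icc, mem_filter, mem_Ioc]
    obtain ⟨⟨⟨h1, h2⟩, h3⟩, h4⟩ := hp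
    by_cases h5 : p ≤ p₀
    · exact Or.inl ⟨h1, h5⟩
    · refine Or.inr ⟨⟨?_, h2⟩, h3⟩
      by_contra h6
      exact h4 ⟨⟨by omega, by omega⟩, h3⟩
  have h4 : ∑ p ∈ (Icc 1 X).filter Nat.Prime \ (Ioc p₀ z).filter Nat.Prime, (1 : ℝ) / p ≤
      ∑ p ∈ Icc 1 p₀ ∪ (Ioc z X).filter Nat.Prime, (1 : ℝ) / p :=
    sum_le_sum_of_subset_of_nonneg h3 (fun _ _ _ => by positivity)
  have h5 : ∑ p ∈ Icc 1 p₀ ∪ (Ioc z X).filter Nat.Prime, (1 : ℝ) / p ≤
      ∑ p ∈ Icc 1 p₀, (1 : ℝ) / p + ∑ p ∈ (Ioc z X).filter Nat.Prime, (1 : ℝ) / p := by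
    rw [← sum_union_inter]
    have : 0 ≤ ∑ p ∈ Icc 1 p₀ ∩ (Ioc z X).filter Nat.Prime, (1 : ℝ) / p := sum_nonneg fun _ _ => by positivity
    linarith
  have h6 : ∑ p ∈ Icc 1 p₀, (1 : ℝ) / p ≤ p₀ := by
    refine (sum_le_sum (g := fun _ => (1 : ℝ)) fun p hp => ?_).trans ?_
    · rw [mem_Icc] at hp
      have : (1 : ℝ) ≤ p := by exact_mod_cast hp.1
      rw [div_le_one (by linarith)]; exact this
    · simp
  linarith

lemma sq_sum_le (p₀ z : ℕ) (hp₀ : 1 ≤ p₀) {g : ℕ → ℝ} (hg : ∀ p : ℕ, p.Prime → |g p| ≤ 1) :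
    ∑ p ∈ (Ioc p₀ z).filter Nat.Prime, g p / (p : ℝ) ^ 2 ≤ 1 := by
  have h1 : ∑ p ∈ (Ioc p₀ z).filter Nat.Prime, g p / (p : ℝ) ^ 2 ≤
      ∑ p ∈ (Ioc p₀ z).filter Nat.Prime, ((p : ℝ) ^ 2)⁻¹ := by
    apply sum_le_sum
    intro p hp
    rw [mem_filter] at hp
    rw [div_eq_mul_inv]
    have := (abs_le.1 (hg p hp.2)).2
    have h2 : (0 : ℝ) ≤ ((p : ℝ) ^ 2)⁻¹ := by positivity
    nlinarith
  refine h1.trans ?_
  refine (sum_le_sum_of_subset_of_nonneg (filter_subset _ _) (fun _ _ _ => by positivity)).trans ?_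
  rcases Nat.lt_or_ge z p₀ with h | h
  · rw [Ioc_eq_empty (by omega)]
    simp
  · refine (sum_Ioc_inv_sq_le_sub (α := ℝ) (by omega) h).trans ?_
    have h2 : (0 : ℝ) ≤ (z : ℝ)⁻¹ := by positivity
    have h3 : (1 : ℝ) ≤ p₀ := by exact_mod_cast hp₀
    have h4 : (p₀ : ℝ)⁻¹ ≤ 1 := inv_le_one_of_one_le₀ h3
    linarith

variable {ι : Type} [Fintype ι]

/-- the normalised value -/
noncomputable def FF (f : ℕ → ℝ) (X N : ℕ) : ℝ := (f N - Am f X) / Real.sqrt (Bq f X)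

lemma TT_nu (f : ℕ → ℝ) (B : ℝ) (s : ι → ℝ) (a b : ι → ℕ) (P : Finset ℕ) (n : ℕ) :
    TT P (nu f B s a b) n = ∑ i, s i * ((∑ p ∈ P, (if p ∣ a i * n + b i then f p else 0) -
      ∑ p ∈ P, f p / p) / B) := by
  unfold TT nu yy
  have h1 : ∀ p ∈ P, f p / B * ∑ i, s i * ((if p ∣ a i * n + b i then (1 : ℝ) else 0) - 1 / p) =
      ∑ i, s i * (((if p ∣ a i * n + b i then f p else 0) - f p / p) / B) := by
    intro p _
    rw [mul_sum]
    apply sum_congr rfl
    intro i _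
    split_ifs <;> ring
  rw [sum_congr rfl h1, sum_comm]
  apply sum_congr rfl
  intro i _
  rw [← mul_sum, ← sum_div, sum_sub_distrib]

open scoped Classical in
/-- **convergence of the characteristic functions** -/
theorem char_lim {f : ℕ → ℝ} (hf : AddF f) (hB : Tendsto (Bq f) atTop atTop) (s : ι → ℝ) {a b : ι → ℕ}
    (ha : ∀ i, 1 ≤ a i) (hne : ∀ i j, i ≠ j → a i * b j ≠ a j * b i) :
    Tendsto (fun X : ℕ => (∑ n ∈ range X,
      Complex.exp ((∑ i, s i * FF f X (a i * n + b i) : ℝ) * Complex.I)) / (X : ℂ)) atTop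
      (𝓝 (Real.exp (-(∑ i, s i ^ 2) / 2) : ℂ)) := by
  rw [Metric.tendsto_atTop]
  intro ε₀ hε₀
  obtain ⟨ε, hε, hεε⟩ : ∃ ε : ℝ, 0 < ε ∧ ε < ε₀ := ⟨ε₀ / 2, by linarith, by linarith⟩
  set σ := ∑ i, s i ^ 2 with hσ
  set S1 := ∑ i, |s i| with hS1
  set S := ∑ i, s i with hS
  have hσ0 : 0 ≤ σ := sum_nonneg fun _ _ => sq_nonneg _
  have hS10 : 0 ≤ S1 := sum_nonneg fun _ _ => abs_nonneg _
  -- the number of moments
  obtain ⟨m, hm⟩ : ∃ m : ℕ, 2 * Real.exp (4 * (σ + 1)) / 4 ^ m ≤ ε / 8 := by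
    obtain ⟨m, hm⟩ := pow_unbounded_of_one_lt (2 * Real.exp (4 * (σ + 1)) / (ε / 8))
      (by norm_num : (1 : ℝ) < 4)
    refine ⟨m, ?_⟩
    rw [div_lt_iff₀ (by positivity)] at hm
    rw [div_le_iff₀ (by positivity)]
    linarith
  obtain ⟨p₀, hp₀1, hp₀⟩ := gp_large ha hne
  set R := 4 * m + 1 with hR
  obtain ⟨C, hC0, hC⟩ := tail_inv R
  -- the bound for the squares
  set ab := ∑ i, ((a i : ℝ) + b i) with hab
  have hab0 : 0 ≤ ab := sum_nonneg fun _ _ => by positivity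
  obtain ⟨D, hD1, hD⟩ : ∃ D : ℕ, 1 ≤ D ∧ 2 * ab / D ≤ ε / 8 := by
    obtain ⟨D, hD⟩ := exists_nat_gt (2 * ab / (ε / 8))
    refine ⟨D + 1, by omega, ?_⟩
    rw [div_lt_iff₀ (by positivity)] at hD
    rw [div_le_iff₀ (by positivity)]
    push_cast
    nlinarith
  set GD := ∑ q ∈ range (D ^ 3 + 1), (|f q| + 1) with hGD
  have hGD0 : 0 ≤ GD := sum_nonneg fun _ _ => by positivity
  set K := S1 * ((p₀ + R + GD) + (p₀ + C)) with hK
  have hK0 : 0 ≤ K := by positivity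
  set c2 := σ * (p₀ + C) + S ^ 2 with hc2
  have hc20 : 0 ≤ c2 := by positivity
  -- large parameters
  obtain ⟨B₀, hB₀⟩ : ∃ B₀ : ℝ, B₀ = 1 + 2 * S1 + 8 * K / ε + 8 * S1 * (σ + 1) / ε + 8 * c2 / ε + c2 := ⟨_, rfl⟩
  have hB₀1 : 1 ≤ B₀ := by
    rw [hB₀]
    have e1 : 0 ≤ 8 * K / ε := by positivity
    have e2 : 0 ≤ 8 * S1 * (σ + 1) / ε := by positivity
    have e3 : 0 ≤ 8 * c2 / ε := by positivity
    linarith
  obtain ⟨X₁, hX₁⟩ := eventually_atTop.1 (hB.eventually (eventually_ge_atTop (B₀ ^ 2)))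
  obtain ⟨Z, hZ⟩ : ∃ Z : ℕ, Z = 3 + ∑ i, (a i + b i) + ⌈8 * (4 * m + 2) / ε⌉₊ := ⟨_, rfl⟩
  obtain ⟨X₂, hX₂⟩ : ∃ X₂ : ℕ, 16 * (Fintype.card ι : ℝ) / ε ≤ X₂ := ⟨_, Nat.le_ceil _⟩
  refine ⟨max X₁ (max (Z ^ R) (X₂ + 1)), fun X hX => lt_of_le_of_lt ?_ hεε⟩
  have hXa : X₁ ≤ X := (le_max_left _ _).trans hX
  have hXb : Z ^ R ≤ X := (le_max_left _ _).trans ((le_max_right _ _).trans hX)
  have hXc : X₂ + 1 ≤ X := (le_max_right _ _).trans ((le_max_right _ _).trans hX)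
  have hX1 : 1 ≤ X := by omega
  have hX0 : (0 : ℝ) < X := by exact_mod_cast hX1
  set B := Real.sqrt (Bq f X) with hBdef
  have hBB : B₀ ≤ B := by
    rw [hBdef]
    apply Real.le_sqrt_of_sq_le
    exact hX₁ X hXa
  have hB0 : 0 < B := by linarith
  have hBsq : B ^ 2 = Bq f X := Real.sq_sqrt (Bq_nonneg f X)
  have hBsqB : B ≤ B ^ 2 := by nlinarith
  -- the level
  obtain ⟨z, hz⟩ : ∃ z : ℕ, z = Nat.nthRoot R X := ⟨_, rfl⟩
  have hR0 : R ≠ 0 := by omega
  have hzR : z ^ R ≤ X := by rw [hz]; exact Nat.pow_nthRoot_le (Or.inl hR0)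
  have hzX : X < (z + 1) ^ R := by rw [hz]; exact Nat.lt_pow_nthRoot_add_one hR0 X
  have hzZ : Z ≤ z := by
    by_contra h
    have : (z + 1) ^ R ≤ Z ^ R := Nat.pow_le_pow_left (by omega) R
    omega
  have hz3 : 3 ≤ z := by omega
  have hz0 : (0 : ℝ) < z := by exact_mod_cast (by omega : 0 < z)
  have hzX' : z ≤ X := by
    refine le_trans ?_ hzR
    exact Nat.le_self_pow hR0 z
  have hCX := hC z X hz3 hzX
  set P := (Ioc p₀ z).filter Nat.Prime with hP
  have hPg : ∀ p ∈ P, GP a b p := by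
    intro p hp
    rw [hP, mem_filter, mem_Ioc] at hp
    exact hp₀ p hp.2 hp.1.1
  have hPz : ∀ p ∈ P, p ≤ z := by
    intro p hp
    rw [hP, mem_filter, mem_Ioc] at hp
    exact hp.1.2
  have hsys := nu_sys hf.le hB0 s hPg
  have hM0 : 0 ≤ S1 / B := by positivity
  have e3' : 0 ≤ 8 * K / ε := by positivity
  have e4' : 0 ≤ 8 * S1 * (σ + 1) / ε := by positivity
  have e5' : 0 ≤ 8 * c2 / ε := by positivity
  have hM : S1 / B ≤ 1 / 2 := by
    rw [div_le_iff₀ hB0]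
    linarith
  -- the variance
  set S2 := ∑ p ∈ P, Vr (nu f B s a b) p with hS2
  have hS20 : 0 ≤ S2 := sum_nonneg fun _ _ => Vr_nonneg _
  have hS2eq : S2 = σ / B ^ 2 * (∑ p ∈ P, f p ^ 2 / p) - S ^ 2 / B ^ 2 * ∑ p ∈ P, f p ^ 2 / (p : ℝ) ^ 2 := by
    rw [hS2, sum_congr rfl fun p hp => nu_var s (hPg p hp), sum_sub_distrib, ← mul_sum, ← mul_sum]
  have hfsq : ∀ p : ℕ, p.Prime → |f p ^ 2| ≤ 1 := by
    intro p hp
    rw [abs_pow]
    exact pow_le_one₀ (abs_nonneg _) (hf.le p hp)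
  have hleft := left_out (g := fun p => f p ^ 2) hfsq (p₀ := p₀) hCX hzX'
  have hsqs := sq_sum_le p₀ z hp₀1 (g := fun p => f p ^ 2) hfsq
  have hsqs0 : 0 ≤ ∑ p ∈ P, f p ^ 2 / (p : ℝ) ^ 2 := sum_nonneg fun _ _ => by positivity
  have hS2d : |S2 - σ| ≤ c2 / B ^ 2 := by
    have h1 : |Bq f X - ∑ p ∈ P, f p ^ 2 / p| ≤ p₀ + C := hleft
    have hB2 : (0 : ℝ) < B ^ 2 := by positivity
    have h2 : S2 - σ = -(σ * (Bq f X - ∑ p ∈ P, f p ^ 2 / p) + S ^ 2 * ∑ p ∈ P, f p ^ 2 / (p : ℝ) ^ 2) / B ^ 2 := by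
      rw [hS2eq, ← hBsq]
      field_simp
      ring
    rw [h2, abs_div, abs_neg, abs_of_pos hB2]
    apply div_le_div_of_nonneg_right _ hB2.le
    refine (abs_add_le _ _).trans ?_
    rw [abs_mul, abs_mul, abs_of_nonneg hσ0, abs_of_nonneg (sq_nonneg S), abs_of_nonneg hsqs0, hc2]
    apply add_le_add (mul_le_mul_of_nonneg_left h1 hσ0)
    have : S ^ 2 * ∑ p ∈ P, f p ^ 2 / (p : ℝ) ^ 2 ≤ S ^ 2 * 1 := mul_le_mul_of_nonneg_left hsqs (sq_nonneg _)
    linarith
  have hc2B : c2 / B ^ 2 ≤ min 1 (ε / 8) := by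
    rw [div_le_iff₀ (by positivity)]
    rcases min_choice 1 (ε / 8) with h | h <;> rw [h]
    · linarith
    · have h1 : 8 * c2 / ε ≤ B ^ 2 := by linarith
      rw [div_le_iff₀ hε] at h1
      linarith
  have hS2u : S2 ≤ σ + 1 := by
    have h1 := (abs_le.1 hS2d).2
    have h2 := hc2B.trans (min_le_left _ _)
    linarith
  -- the key estimate
  have hkey := key hsys hM0 hM (z := z) (by omega) hPz m X hX1
  have ht1 : S1 / B * S2 ≤ ε / 8 := by
    have h1 : 8 * S1 * (σ + 1) / ε ≤ B := by linarith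
    rw [div_le_iff₀ hε] at h1
    rw [div_mul_eq_mul_div, div_le_iff₀ hB0]
    have h2 : S1 * S2 ≤ S1 * (σ + 1) := mul_le_mul_of_nonneg_left hS2u hS10
    nlinarith
  have ht2 : 2 * Real.exp (4 * S2) / 4 ^ m ≤ ε / 8 := by
    refine le_trans ?_ hm
    apply div_le_div_of_nonneg_right _ (by positivity)
    have := Real.exp_le_exp.2 (by linarith : 4 * S2 ≤ 4 * (σ + 1))
    linarith
  have ht3 : (4 * m + 2) * (z : ℝ) ^ (4 * m) / X ≤ ε / 8 := by
    have h1 : (z : ℝ) ^ (4 * m) * z ≤ X := by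
      rw [← pow_succ]
      exact_mod_cast hzR
    have h2 : 8 * (4 * m + 2) / ε ≤ z := by
      refine (Nat.le_ceil _).trans ?_
      exact_mod_cast (by omega : ⌈8 * (4 * (m : ℝ) + 2) / ε⌉₊ ≤ z)
    rw [div_le_iff₀ hε] at h2
    rw [div_le_iff₀ hX0]
    have h3 : (0 : ℝ) < (z : ℝ) ^ (4 * m) := by positivity
    calc (4 * m + 2) * (z : ℝ) ^ (4 * m) = (8 * (4 * m + 2)) * (z : ℝ) ^ (4 * m) / 8 := by ring
      _ ≤ (z * ε) * (z : ℝ) ^ (4 * m) / 8 := by
          apply div_le_div_of_nonneg_right _ (by norm_num)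
          exact mul_le_mul_of_nonneg_right h2 h3.le
      _ = ε / 8 * ((z : ℝ) ^ (4 * m) * z) := by ring
      _ ≤ _ := mul_le_mul_of_nonneg_left h1 (by positivity)
  have ht4 : ‖(Real.exp (-S2 / 2) : ℂ) - (Real.exp (-σ / 2) : ℂ)‖ ≤ ε / 8 := by
    rw [← Complex.ofReal_sub, Complex.norm_real, Real.norm_eq_abs]
    have h1 := exp_lip (x := S2 / 2) (y := σ / 2) (by positivity) (by positivity)
    rw [neg_div, neg_div]
    refine h1.trans ?_
    rw [← sub_div, abs_div, abs_of_pos (by norm_num : (0 : ℝ) < 2)]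
    have h2 := hS2d.trans (hc2B.trans (min_le_right _ _))
    have h3 := abs_nonneg (S2 - σ)
    linarith
  -- the comparison
  have hleftf := left_out (g := f) hf.le (p₀ := p₀) hCX hzX'
  set bad := (range X).filter (fun n => ∃ i, a i * n + b i = 0 ∨ ¬ Good D (a i * n + b i)) with hbad
  have hcmp : ∀ n ∈ range X, ‖Complex.exp ((∑ i, s i * FF f X (a i * n + b i) : ℝ) * Complex.I) -
      Complex.exp (TT P (nu f B s a b) n * Complex.I)‖ ≤ K / B + (if n ∈ bad then 2 else 0) := by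
    intro n hn
    by_cases hnb : n ∈ bad
    · rw [if_pos hnb]
      refine (cis_two _ _).trans ?_
      have : 0 ≤ K / B := by positivity
      linarith
    · rw [if_neg hnb, add_zero]
      refine (cis_lip _ _).trans ?_
      rw [TT_nu, ← sum_sub_distrib]
      refine (abs_sum_le_sum_abs _ _).trans ?_
      have h1 : ∀ i ∈ (univ : Finset ι), |s i * FF f X (a i * n + b i) -
          s i * ((∑ p ∈ P, (if p ∣ a i * n + b i then f p else 0) - ∑ p ∈ P, f p / p) / B)| ≤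
          |s i| * (((p₀ + R + GD) + (p₀ + C)) / B) := by
        intro i _
        rw [← mul_sub, abs_mul]
        apply mul_le_mul_of_nonneg_left _ (abs_nonneg _)
        unfold FF
        rw [← hBdef, ← sub_div, abs_div, abs_of_pos hB0]
        apply div_le_div_of_nonneg_right _ hB0.le
        have h2 : ¬ (a i * n + b i = 0 ∨ ¬ Good D (a i * n + b i)) := by
          intro h
          exact hnb (mem_filter.2 ⟨hn, i, h⟩)
        push Not at h2
        rw [mem_range] at hn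
        have h3 : a i * n + b i < (z + 1) ^ (R + 1) := by
          have e1 : a i + b i ≤ z := by
            have := single_le_sum (f := fun i => a i + b i) (fun _ _ => Nat.zero_le _) (mem_univ i)
            have e2 : a i + b i ≤ ∑ i, (a i + b i) := this
            omega
          calc a i * n + b i ≤ (a i + b i) * X := by nlinarith [hn, hX1]
            _ ≤ (z + 1) * X := Nat.mul_le_mul_right _ (by omega)
            _ < (z + 1) * (z + 1) ^ R := Nat.mul_lt_mul_of_pos_left hzX (by omega)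
            _ = _ := by rw [pow_succ (z + 1) R, mul_comm]
        have h4 := f_trunc hf (p₀ := p₀) (N := a i * n + b i) (Nat.pos_of_ne_zero h2.1) h3 h2.2
        have h5 : f (a i * n + b i) - Am f X - (∑ p ∈ P, (if p ∣ a i * n + b i then f p else 0) -
            ∑ p ∈ P, f p / p) = (f (a i * n + b i) - ∑ p ∈ P, (if p ∣ a i * n + b i then f p else 0)) -
            (Am f X - ∑ p ∈ P, f p / p) := by ring
        rw [h5]
        refine (abs_sub _ _).trans (add_le_add h4 ?_)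
        exact hleftf
      refine (sum_le_sum h1).trans (le_of_eq ?_)
      rw [← sum_mul, hK]
      ring
  have hbadc : (bad.card : ℝ) ≤ ab * X / D + Fintype.card ι := by
    have h1 : bad ⊆ univ.biUnion (fun i =>
        (range X).filter (fun n => a i * n + b i = 0 ∨ ¬ Good D (a i * n + b i))) := by
      intro n hn
      rw [hbad, mem_filter] at hn
      obtain ⟨hn1, i, hi⟩ := hn
      rw [mem_biUnion]
      exact ⟨i, mem_univ _, mem_filter.2 ⟨hn1, hi⟩⟩
    have h2 := (card_le_card h1).trans card_biUnion_le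
    have h3 : ((∑ i, ((range X).filter
        (fun n => a i * n + b i = 0 ∨ ¬ Good D (a i * n + b i))).card : ℕ) : ℝ) ≤
        ∑ i, (((a i : ℝ) + b i) * X / D + 1) := by
      push_cast
      apply sum_le_sum
      intro i _
      refine (bad_form hD1 (ha i) X).trans ?_
      apply add_le_add_left
      apply div_le_div_of_nonneg_right _ (Nat.cast_nonneg _)
      push_cast
      have hX1' : (1 : ℝ) ≤ X := by exact_mod_cast hX1
      have : (0 : ℝ) ≤ b i := Nat.cast_nonneg _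
      nlinarith
    have h4 : (bad.card : ℝ) ≤ _ := le_trans (by exact_mod_cast h2) h3
    rw [sum_add_distrib, ← sum_div, ← sum_mul, ← hab] at h4
    simpa using h4
  have hdiff : ‖(∑ n ∈ range X, Complex.exp ((∑ i, s i * FF f X (a i * n + b i) : ℝ) * Complex.I)) / (X : ℂ) -
      (∑ n ∈ range X, Complex.exp (TT P (nu f B s a b) n * Complex.I)) / (X : ℂ)‖ ≤
      K / B + 2 * ab / D + 2 * Fintype.card ι / X := by
    rw [← sub_div, ← sum_sub_distrib, norm_div, Complex.norm_natCast, div_le_iff₀ hX0]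
    refine (norm_sum_le _ _).trans ((sum_le_sum hcmp).trans ?_)
    rw [sum_add_distrib, sum_const, card_range, nsmul_eq_mul, ← sum_filter, sum_const, nsmul_eq_mul]
    have h1 : (((range X).filter (fun n => n ∈ bad)).card : ℝ) ≤ bad.card := by
      exact_mod_cast card_le_card (fun n hn => (mem_filter.1 hn).2)
    have h2 : (K / B + 2 * ab / D + 2 * Fintype.card ι / X) * X =
        X * (K / B) + 2 * (ab * X / D + Fintype.card ι) := by
      have hD0 : (D : ℝ) ≠ 0 := by exact_mod_cast (by omega : D ≠ 0)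
      field_simp
      ring
    rw [h2]
    linarith
  have ht5 : K / B ≤ ε / 8 := by
    have h1 : 8 * K / ε ≤ B := by linarith
    rw [div_le_iff₀ hε] at h1
    rw [div_le_iff₀ hB0]
    linarith
  have ht6 : 2 * (Fintype.card ι : ℝ) / X ≤ ε / 8 := by
    have h1 : 16 * (Fintype.card ι : ℝ) / ε ≤ X := by
      refine hX₂.trans ?_
      exact_mod_cast (by omega : X₂ ≤ X)
    rw [div_le_iff₀ hε] at h1
    rw [div_le_iff₀ hX0]
    linarith
  rw [dist_eq_norm]
  calc _ = ‖((∑ n ∈ range X, Complex.exp ((∑ i, s i * FF f X (a i * n + b i) : ℝ) * Complex.I)) / (X : ℂ) -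
      (∑ n ∈ range X, Complex.exp (TT P (nu f B s a b) n * Complex.I)) / (X : ℂ)) +
      ((∑ n ∈ range X, Complex.exp (TT P (nu f B s a b) n * Complex.I)) / (X : ℂ) -
        (Real.exp (-S2 / 2) : ℂ)) + ((Real.exp (-S2 / 2) : ℂ) - (Real.exp (-σ / 2) : ℂ))‖ := by
        congr 1; ring
    _ ≤ _ := (norm_add_le _ _).trans (add_le_add ((norm_add_le _ _).trans (add_le_add hdiff hkey)) ht4)
    _ ≤ ε := by linarith

end Pool.Agent.H998_EK
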