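import Mathlib

/-!
Library H998_EK (helper998): sums of periodic functions with coprime periods; the characteristic
function of such a sum along an interval.
-/

set_option autoImplicit false
set_option linter.unusedSectionVars false

namespace Pool.Agent.H998_EK

open Finset

/-! ### Taylor's formula for `exp (i y)` -/

theorem cis_aux (c : ℂ) (hc : ‖c‖ = 1) (hre : c.re = 0) : ∀ (n : ℕ) (x : ℝ), 0 ≤ x →
    ‖Complex.exp (c * x) - ∑ k ∈ range n, (c * x) ^ k / (k.factorial : ℂ)‖ ≤ x ^ n / n.factorial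
  | 0, x, _ => by
    simp only [range_zero, sum_empty, sub_zero, pow_zero, Nat.factorial_zero, Nat.cast_one, div_one]
    rw [Complex.norm_exp]
    simp [hre]
  | n + 1, x, hx => by
    have hd : ∀ t : ℝ, HasDerivAt (fun t : ℝ => Complex.exp (c * t) -
        ∑ k ∈ range (n + 1), (c * t) ^ k / (k.factorial : ℂ))
        (c * (Complex.exp (c * t) - ∑ k ∈ range n, (c * t) ^ k / (k.factorial : ℂ))) t := by
      intro t
      have h0 : HasDerivAt (fun t : ℝ => c * (t : ℂ)) c t := by
        simpa using (Complex.ofRealCLM.hasDerivAt (x := t)).const_mul c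
      have h1 : HasDerivAt (fun t : ℝ => Complex.exp (c * t)) (Complex.exp (c * t) * c) t :=
        h0.cexp
      have h2 : HasDerivAt (fun t : ℝ => ∑ k ∈ range (n + 1), (c * t) ^ k / (k.factorial : ℂ))
          (∑ k ∈ range (n + 1), (k * (c * t) ^ (k - 1) * c) / (k.factorial : ℂ)) t := by
        apply HasDerivAt.fun_sum
        intro k _
        exact (h0.pow k).div_const _
      have h3 : ∑ k ∈ range (n + 1), (k * (c * t) ^ (k - 1) * c) / (k.factorial : ℂ) =
          c * ∑ k ∈ range n, (c * t) ^ k / (k.factorial : ℂ) := by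
        rw [sum_range_succ', mul_sum]
        simp only [Nat.cast_zero, zero_mul, zero_div, add_zero]
        apply sum_congr rfl
        intro k _
        rw [Nat.factorial_succ]
        have : ((k : ℂ) + 1) ≠ 0 := by exact_mod_cast Nat.succ_ne_zero k
        have : (k.factorial : ℂ) ≠ 0 := by exact_mod_cast k.factorial_ne_zero
        push_cast
        field_simp
      have h4 := h1.fun_sub h2
      rw [h3] at h4
      exact h4.congr_deriv (by ring)
    have hB : ∀ t : ℝ, HasDerivAt (fun t : ℝ => t ^ (n + 1) / (n + 1).factorial)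
        (t ^ n / n.factorial) t := by
      intro t
      have h1 := (hasDerivAt_pow (n + 1) t).div_const ((n + 1).factorial : ℝ)
      refine h1.congr_deriv ?_
      rw [Nat.factorial_succ]
      have : ((n : ℝ) + 1) ≠ 0 := by positivity
      have : (n.factorial : ℝ) ≠ 0 := by positivity
      push_cast
      field_simp
    have := image_norm_le_of_norm_deriv_right_le_deriv_boundary (a := 0) (b := x)
      (f := fun t : ℝ => Complex.exp (c * t) - ∑ k ∈ range (n + 1), (c * t) ^ k / (k.factorial : ℂ))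
      (f' := fun t : ℝ => c * (Complex.exp (c * t) - ∑ k ∈ range n, (c * t) ^ k / (k.factorial : ℂ)))
      (B := fun t : ℝ => t ^ (n + 1) / (n + 1).factorial) (B' := fun t : ℝ => t ^ n / n.factorial)
      (fun t _ => (hd t).continuousAt.continuousWithinAt) (fun t _ => (hd t).hasDerivWithinAt)
      (by
        simp only [Complex.ofReal_zero, mul_zero, Complex.exp_zero]
        rw [sum_range_succ']
        simp) hB
      (by
        intro t ht
        rw [norm_mul, hc, one_mul]
        exact cis_aux c hc hre n t ht.1)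
    exact this (Set.right_mem_Icc.2 hx)

theorem cis_taylor (n : ℕ) (y : ℝ) :
    ‖Complex.exp (y * Complex.I) - ∑ k ∈ range n, (y * Complex.I) ^ k / (k.factorial : ℂ)‖ ≤
      |y| ^ n / n.factorial := by
  rcases le_total 0 y with h | h
  · have := cis_aux Complex.I (by simp) (by simp) n y h
    rw [abs_of_nonneg h]
    convert this using 3
    · rw [mul_comm]
    · simp only [mul_comm]
  · have := cis_aux (-Complex.I) (by simp) (by simp) n (-y) (by linarith)
    rw [abs_of_nonpos h]
    convert this using 3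
    · push_cast; ring_nf
    · apply sum_congr rfl
      intro k _
      push_cast
      ring_nf

/-! ### sums over complete residue systems -/

section per

variable {R : Type*} [CommRing R]

lemma per_mul {G : ℕ → R} {H : ℕ} (hG : ∀ j, G (j + H) = G j) (j : ℕ) : ∀ k : ℕ, G (j + H * k) = G j
  | 0 => by simp
  | k + 1 => by rw [mul_add, mul_one, ← add_assoc, hG, per_mul hG j k]

lemma per_mod {G : ℕ → R} {H : ℕ} (hG : ∀ j, G (j + H) = G j) (j : ℕ) : G (j % H) = G j := by
  have := per_mul hG (j % H) (j / H)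
  rw [Nat.mod_add_div] at this
  exact this.symm

lemma cover {G : ℕ → R} {H : ℕ} (hH : 1 ≤ H) (hG : ∀ j, G (j + H) = G j) {v : ℕ}
    (hv : Nat.Coprime v H) (b : ℕ) : ∑ i ∈ range H, G (b + v * i) = ∑ i ∈ range H, G i := by
  classical
  have h1 : Set.InjOn (fun i => (b + v * i) % H) (range H : Set ℕ) := by
    intro i hi j hj hij
    have h2 : b + v * i ≡ b + v * j [MOD H] := hij
    have h3 : v * i ≡ v * j [MOD H] := Nat.ModEq.add_left_cancel' b h2
    have h4 : i ≡ j [MOD H] := Nat.ModEq.cancel_left_of_coprime hv.symm h3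
    rw [coe_range, Set.mem_Iio] at hi hj
    exact Nat.ModEq.eq_of_lt_of_lt h4 hi hj
  have h2 : (range H).image (fun i => (b + v * i) % H) = range H := by
    apply eq_of_subset_of_card_le
    · intro x hx
      rw [mem_image] at hx
      obtain ⟨i, _, rfl⟩ := hx
      rw [mem_range]
      exact Nat.mod_lt _ hH
    · rw [card_image_of_injOn h1]
  calc ∑ i ∈ range H, G (b + v * i) = ∑ i ∈ range H, G ((b + v * i) % H) :=
        sum_congr rfl fun i _ => (per_mod hG _).symm
    _ = ∑ x ∈ (range H).image (fun i => (b + v * i) % H), G x := by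
        rw [sum_image]
        exact h1
    _ = _ := by rw [h2]

lemma sum_blocks (F : ℕ → R) (a : ℕ) : ∀ b : ℕ,
    ∑ y ∈ range (a * b), F y = ∑ i ∈ range b, ∑ r ∈ range a, F (r + a * i)
  | 0 => by simp
  | b + 1 => by
    rw [mul_add, mul_one, sum_range_add, sum_blocks F a b, sum_range_succ]
    congr 1
    apply sum_congr rfl
    intro r _
    congr 1
    ring

lemma sum_per_mul {F : ℕ → R} {a : ℕ} (hF : ∀ x, F (x + a) = F x) (b : ℕ) :
    ∑ y ∈ range (a * b), F y = b * ∑ y ∈ range a, F y := by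
  rw [sum_blocks F a b]
  have : ∀ i ∈ range b, ∑ r ∈ range a, F (r + a * i) = ∑ r ∈ range a, F r := by
    intro i _
    exact sum_congr rfl fun r _ => per_mul hF r i
  rw [sum_congr rfl this, sum_const, card_range, nsmul_eq_mul]

lemma sum_mul_per {f g : ℕ → R} {a b : ℕ} (hb : 1 ≤ b) (hab : Nat.Coprime a b)
    (hf : ∀ x, f (x + a) = f x) (hg : ∀ x, g (x + b) = g x) :
    ∑ y ∈ range (a * b), f y * g y = (∑ y ∈ range a, f y) * ∑ y ∈ range b, g y := by
  rw [sum_blocks (fun x => f x * g x), sum_comm, sum_mul]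
  apply sum_congr rfl
  intro r _
  have h1 : ∀ i ∈ range b, f (r + a * i) * g (r + a * i) = f r * g (r + a * i) := by
    intro i _
    rw [per_mul hf]
  rw [sum_congr rfl h1, ← mul_sum, cover hb hg hab r]

lemma prod_per {S : Finset ℕ} {φ : ℕ → ℕ → R} (hφ : ∀ p ∈ S, ∀ x, φ p (x + p) = φ p x)
    (x : ℕ) : ∏ p ∈ S, φ p (x + ∏ p ∈ S, p) = ∏ p ∈ S, φ p x := by
  apply prod_congr rfl
  intro p hp
  obtain ⟨k, hk⟩ := dvd_prod_of_mem (fun p => p) hp
  rw [hk]
  exact per_mul (hφ p hp) x k

lemma sum_prod_per {S : Finset ℕ} {φ : ℕ → ℕ → R} (hS : ∀ p ∈ S, p.Prime)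
    (hφ : ∀ p ∈ S, ∀ x, φ p (x + p) = φ p x) :
    ∑ i ∈ range (∏ p ∈ S, p), ∏ p ∈ S, φ p i = ∏ p ∈ S, ∑ i ∈ range p, φ p i := by
  classical
  induction S using Finset.induction_on with
  | empty => simp
  | insert p S hp ih =>
    rw [prod_insert hp, prod_insert hp]
    have h1 : ∀ i ∈ range (p * ∏ r ∈ S, r), ∏ r ∈ insert p S, φ r i = φ p i * ∏ r ∈ S, φ r i :=
      fun i _ => prod_insert hp
    rw [sum_congr rfl h1, sum_mul_per (f := φ p) (g := fun i => ∏ r ∈ S, φ r i)]
    · rw [ih (fun r hr => hS r (mem_insert_of_mem hr))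
        (fun r hr => hφ r (mem_insert_of_mem hr))]
    · apply Nat.succ_le_of_lt
      apply prod_pos
      intro r hr
      exact (hS r (mem_insert_of_mem hr)).pos
    · apply Nat.Coprime.prod_right
      intro r hr
      rw [Nat.coprime_primes (hS p (mem_insert_self _ _)) (hS r (mem_insert_of_mem hr))]
      rintro rfl
      exact hp hr
    · exact hφ p (mem_insert_self _ _)
    · exact prod_per (fun r hr => hφ r (mem_insert_of_mem hr))

end per

/-- the mean of a periodic function over an interval -/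
lemma per_avg {F : ℕ → ℝ} {D : ℕ} (hD : 1 ≤ D) (hF : ∀ x, F (x + D) = F x) {C : ℝ}
    (hC : ∀ x, |F x| ≤ C) (X : ℕ) :
    |∑ n ∈ range X, F n - X * ((∑ n ∈ range D, F n) / D)| ≤ 2 * D * C := by
  have hD0 : (0 : ℝ) < D := by exact_mod_cast hD
  have hC0 : 0 ≤ C := (abs_nonneg _).trans (hC 0)
  have h1 : ∑ n ∈ range X, F n = (X / D : ℕ) * ∑ n ∈ range D, F n + ∑ n ∈ range (X % D), F n := by
    conv_lhs => rw [← Nat.div_add_mod X D]
    rw [sum_range_add, sum_per_mul hF]
    congr 1
    apply sum_congr rfl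
    intro n _
    rw [add_comm]
    exact per_mul hF n _
  have h2 : (X : ℝ) = D * (X / D : ℕ) + (X % D : ℕ) := by
    exact_mod_cast (Nat.div_add_mod X D).symm
  have h3 : |∑ n ∈ range (X % D), F n| ≤ D * C := by
    refine (abs_sum_le_sum_abs _ _).trans ((sum_le_sum fun n _ => hC n).trans ?_)
    rw [sum_const, card_range, nsmul_eq_mul]
    apply mul_le_mul_of_nonneg_right _ hC0
    exact_mod_cast (Nat.mod_lt X hD).le
  have h4 : |(∑ n ∈ range D, F n) / D| ≤ C := by
    rw [abs_div, Nat.abs_cast, div_le_iff₀ hD0]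
    refine (abs_sum_le_sum_abs _ _).trans ((sum_le_sum fun n _ => hC n).trans (le_of_eq ?_))
    rw [sum_const, card_range, nsmul_eq_mul, mul_comm]
  have h5 : ∑ n ∈ range X, F n - X * ((∑ n ∈ range D, F n) / D) =
      ∑ n ∈ range (X % D), F n - (X % D : ℕ) * ((∑ n ∈ range D, F n) / D) := by
    rw [h1]
    conv_lhs => rw [h2]
    field_simp
    ring
  rw [h5]
  have h6 : |((X % D : ℕ) : ℝ) * ((∑ n ∈ range D, F n) / D)| ≤ D * C := by
    rw [abs_mul, Nat.abs_cast]
    apply mul_le_mul _ h4 (abs_nonneg _) hD0.le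
    exact_mod_cast (Nat.mod_lt X hD).le
  calc _ ≤ |∑ n ∈ range (X % D), F n| + |((X % D : ℕ) : ℝ) * ((∑ n ∈ range D, F n) / D)| := abs_sub _ _
    _ ≤ _ := by linarith

/-- two periods give the same mean -/
lemma mean_eq {F : ℕ → ℝ} {D Q : ℕ} (hD : 1 ≤ D) (hQ : 1 ≤ Q) (hF : ∀ x, F (x + D) = F x)
    (hF' : ∀ x, F (x + Q) = F x) : (∑ n ∈ range D, F n) / D = (∑ n ∈ range Q, F n) / Q := by
  have h1 := sum_per_mul hF Q
  have h2 := sum_per_mul hF' D
  rw [mul_comm D Q] at h1
  have hD0 : (0 : ℝ) < D := by exact_mod_cast hD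
  have hQ0 : (0 : ℝ) < Q := by exact_mod_cast hQ
  rw [div_eq_div_iff hD0.ne' hQ0.ne']
  linarith

end Pool.Agent.H998_EK
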