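import Pool.Agent.H998_EK.Law

/-!
Library H998_EK (helper998): the terms of prescribed size.
-/

set_option autoImplicit false

namespace Pool.Agent.H998_EK

open Finset Filter Topology
open Pool.Agent.R344.SP

/-- the parity -/
noncomputable def pr (x : ℤ) : ℝ := if x % 2 = 0 then 0 else 1

theorem parity_law {T : ℤ → ℤ} (hT : ∀ x, T x = if x % 2 = 0 then x / 2 else (3 * x + 1) / 2)
    {κ : ℝ} (hκ : κ < 2 / Real.log (4 / 3)) {c : ℝ} (hc : 0 < c) : Ap T pr κ (1 / 2) c := by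
  have h := law_prime hT hκ (F := pr) (fun x => by unfold pr; split_ifs <;> simp) (H := 2) (by norm_num)
    (by norm_num) (fun x z => by
      unfold pr
      have : (x + ((2 : ℕ) : ℤ) * z) % 2 = x % 2 := by push_cast; omega
      rw [this]) hc
  have e : mn pr 2 = 1 / 2 := by
    unfold mn pr
    norm_num [sum_range_succ]
  rwa [e] at h

/-- one step -/
theorem step_log {T : ℤ → ℤ} (hT : ∀ x, T x = if x % 2 = 0 then x / 2 else (3 * x + 1) / 2)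
    {x : ℤ} {M : ℝ} (hM : 1 ≤ M) (hx : M ≤ |(x : ℝ)|) :
    |Real.log |((T x : ℤ) : ℝ)| - (Real.log |(x : ℝ)| + pr x * Real.log 3 - Real.log 2)| ≤ 1 / M := by
  have hx0 : 0 < |(x : ℝ)| := by linarith
  have hxne : (x : ℝ) ≠ 0 := abs_pos.1 hx0
  obtain ⟨s, hs⟩ : ∃ s : ℝ, s = 1 / M := ⟨_, rfl⟩
  have hs0 : 0 < s := by rw [hs]; positivity
  have hs1 : s ≤ 1 := by rw [hs, div_le_one (by linarith)]; exact hM
  rw [← hs]
  unfold pr
  by_cases h : x % 2 = 0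
  · have e : ((T x : ℤ) : ℝ) = (x : ℝ) / 2 := by
      rw [hT, if_pos h]
      obtain ⟨y, rfl⟩ : ∃ y, x = 2 * y := ⟨x / 2, by omega⟩
      rw [Int.mul_ediv_cancel_left _ (by norm_num)]
      push_cast; ring
    rw [e, if_pos h, abs_div, abs_of_pos (show (0 : ℝ) < 2 by norm_num), Real.log_div hx0.ne' (by norm_num)]
    simp
    linarith
  · have e : ((T x : ℤ) : ℝ) = (3 / 2 * (x : ℝ)) * (1 + 1 / (3 * x)) := by
      rw [hT, if_neg h]
      obtain ⟨y, hy⟩ : ∃ y, x = 2 * y + 1 := ⟨x / 2, by omega⟩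
      have h3 : (3 * x + 1) / 2 = 3 * y + 2 := by omega
      have h4 : ((3 * y + 2 : ℤ) : ℝ) = (3 * (x : ℝ) + 1) / 2 := by rw [hy]; push_cast; ring
      rw [h3, h4]
      field_simp
    obtain ⟨y, hy⟩ : ∃ y : ℝ, y = 1 / (3 * (x : ℝ)) := ⟨_, rfl⟩
    have hyb : |y| ≤ s / 3 := by
      rw [hy, abs_div, abs_one, abs_mul, abs_of_pos (show (0 : ℝ) < 3 by norm_num), hs, div_div,
        mul_comm M 3]
      exact div_le_div_of_nonneg_left (by norm_num) (by positivity) (by linarith)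
    obtain ⟨hy1, hy2⟩ := abs_le.1 hyb
    have hpos : 0 < 1 + y := by linarith
    have h1 := Real.log_le_sub_one_of_pos hpos
    have h2 := Real.one_sub_inv_le_log_of_pos hpos
    have h3 : (1 + y)⁻¹ ≤ 1 + s := by
      rw [inv_eq_one_div, div_le_iff₀ hpos]
      nlinarith
    rw [e, if_neg h, abs_mul, abs_mul, abs_of_pos (show (0 : ℝ) < 3 / 2 by norm_num), ← hy, abs_of_pos hpos,
      Real.log_mul (by positivity) hpos.ne', Real.log_mul (by norm_num) hx0.ne',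
      Real.log_div (by norm_num) (by norm_num), abs_le]
    constructor <;> linarith

/-- the size of the terms, from the law for the parity -/
theorem size {T : ℤ → ℤ} (hT : ∀ x, T x = if x % 2 = 0 then x / 2 else (3 * x + 1) / 2)
    {n : ℤ} (hn : n ≠ 0) {κ c M lam : ℝ} (hκ : 0 ≤ κ) (hc : 0 ≤ c) (hM : 1 ≤ M) (hlam : lam = Real.log (4 / 3) / 2)
    (hlog : 0 ≤ Real.log |(n : ℝ)|)
    (hpar : ∀ t : ℕ, (t : ℝ) ≤ κ * Real.log |(n : ℝ)| →
      |∑ k ∈ range t, (pr (T^[k] n) - 1 / 2)| ≤ c * Real.log |(n : ℝ)|)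
    (hbig : Real.log M ≤ Real.log |(n : ℝ)| * (1 - c * Real.log 3 - κ * lam - κ / M)) :
    ∀ t : ℕ, (t : ℝ) ≤ κ * Real.log |(n : ℝ)| → M ≤ |((T^[t] n : ℤ) : ℝ)| ∧
      |Real.log |((T^[t] n : ℤ) : ℝ)| - (Real.log |(n : ℝ)| - t * lam)|
        ≤ c * Real.log 3 * Real.log |(n : ℝ)| + t / M := by
  have hl3 : 0 < Real.log 3 := Real.log_pos (by norm_num)
  have hlam0 : 0 < lam := by
    rw [hlam]; have : 0 < Real.log (4 / 3) := Real.log_pos (by norm_num)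
    linarith
  have hlam2 : lam = Real.log 2 - Real.log 3 / 2 := by
    rw [hlam, Real.log_div (by norm_num) (by norm_num)]
    have : Real.log 4 = 2 * Real.log 2 := by
      rw [show (4 : ℝ) = 2 ^ 2 by norm_num, Real.log_pow]; norm_num
    rw [this]; ring
  have hM0 : 0 < M := by linarith
  set ℓ := Real.log |(n : ℝ)| with hℓ
  have hstep : ∀ t : ℕ, (t : ℝ) ≤ κ * ℓ → M ≤ |((T^[t] n : ℤ) : ℝ)| ∧
      |Real.log |((T^[t] n : ℤ) : ℝ)| - (ℓ + (∑ k ∈ range t, pr (T^[k] n)) * Real.log 3 - t * Real.log 2)|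
        ≤ t / M := by
    intro t
    induction t with
    | zero =>
      intro _
      refine ⟨?_, by simp [hℓ]⟩
      simp only [Function.iterate_zero, id_eq]
      have h1 : Real.log M ≤ ℓ := by
        refine hbig.trans ?_
        have : 0 ≤ ℓ * (c * Real.log 3 + κ * lam + κ / M) := by positivity
        linarith
      have hn0 : 0 < |(n : ℝ)| := by rw [abs_pos]; exact_mod_cast hn
      exact (Real.log_le_log_iff hM0 hn0).1 h1
    | succ t ih =>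
      intro ht
      have ht' : (t : ℝ) ≤ κ * ℓ := by push_cast at ht; linarith
      obtain ⟨h1, h2⟩ := ih ht'
      have h3 := step_log hT hM h1
      have h4 := hpar (t + 1) ht
      rw [Function.iterate_succ_apply', sum_range_succ]
      have h5 : |Real.log |((T (T^[t] n) : ℤ) : ℝ)| - (ℓ + (∑ k ∈ range t, pr (T^[k] n) + pr (T^[t] n)) * Real.log 3
          - ((t + 1 : ℕ) : ℝ) * Real.log 2)| ≤ ((t + 1 : ℕ) : ℝ) / M := by
        have e1 : Real.log |((T (T^[t] n) : ℤ) : ℝ)| - (ℓ + (∑ k ∈ range t, pr (T^[k] n) + pr (T^[t] n)) * Real.log 3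
          - ((t + 1 : ℕ) : ℝ) * Real.log 2) = (Real.log |((T (T^[t] n) : ℤ) : ℝ)| -
            (Real.log |((T^[t] n : ℤ) : ℝ)| + pr (T^[t] n) * Real.log 3 - Real.log 2)) +
            (Real.log |((T^[t] n : ℤ) : ℝ)| - (ℓ + (∑ k ∈ range t, pr (T^[k] n)) * Real.log 3 - t * Real.log 2)) := by
          push_cast; ring
        have e2 : ((t + 1 : ℕ) : ℝ) / M = 1 / M + t / M := by push_cast; ring
        rw [e1, e2]
        exact (abs_add_le _ _).trans (add_le_add h3 h2)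
      refine ⟨?_, h5⟩
      have hpos : 0 < |((T (T^[t] n) : ℤ) : ℝ)| := by
        rw [abs_pos]
        have hx : T^[t] n ≠ 0 := by
          intro h0
          rw [h0] at h1
          simp at h1
          linarith
        have hx2 : T (T^[t] n) ≠ 0 := by
          rw [hT]
          split_ifs <;> omega
        exact_mod_cast hx2
      rw [← Real.log_le_log_iff hM0 hpos]
      have h6 : ∑ k ∈ range (t + 1), (pr (T^[k] n) - 1 / 2) = (∑ k ∈ range t, pr (T^[k] n) + pr (T^[t] n))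
          - ((t + 1 : ℕ) : ℝ) / 2 := by
        rw [sum_sub_distrib, sum_range_succ, sum_const, card_range, nsmul_eq_mul]; ring
      rw [h6] at h4
      have h7 := (abs_le.1 h4).1
      have h8 := (abs_le.1 h5).1
      have h9 : ((t + 1 : ℕ) : ℝ) / M ≤ κ * ℓ / M := div_le_div_of_nonneg_right ht hM0.le
      have h10 := mul_le_mul_of_nonneg_right h7 hl3.le
      have h11 := mul_le_mul_of_nonneg_right ht hlam0.le
      rw [hlam2] at h11 hbig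
      have e3 : ℓ * (1 - c * Real.log 3 - κ * (Real.log 2 - Real.log 3 / 2) - κ / M) =
        ℓ - c * ℓ * Real.log 3 - κ * ℓ * (Real.log 2 - Real.log 3 / 2) - κ * ℓ / M := by ring
      rw [e3] at hbig
      linarith
  intro t ht
  obtain ⟨h1, h2⟩ := hstep t ht
  refine ⟨h1, ?_⟩
  have h4 := hpar t ht
  have h6 : ∑ k ∈ range t, (pr (T^[k] n) - 1 / 2) = (∑ k ∈ range t, pr (T^[k] n)) - (t : ℝ) / 2 := by
    rw [sum_sub_distrib, sum_const, card_range, nsmul_eq_mul]; ring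
  rw [h6] at h4
  have e1 : Real.log |((T^[t] n : ℤ) : ℝ)| - (ℓ - t * lam) = (∑ k ∈ range t, pr (T^[k] n) - (t : ℝ) / 2) * Real.log 3
      + (Real.log |((T^[t] n : ℤ) : ℝ)| - (ℓ + (∑ k ∈ range t, pr (T^[k] n)) * Real.log 3 - t * Real.log 2)) := by
    rw [hlam2]; ring
  rw [e1]
  refine (abs_add_le _ _).trans (add_le_add ?_ h2)
  rw [abs_mul, abs_of_pos hl3]
  have := mul_le_mul_of_nonneg_right h4 hl3.le
  linarith

theorem few_small {c : ℝ} (hc : 0 < c) (ℓ₀ : ℝ) : Few c (fun (_ : Unit) n => Real.log |(n : ℝ)| ≤ ℓ₀) := by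
  obtain ⟨N₀, hN₀⟩ := exists_nat_gt ((2 * Real.exp ℓ₀ + 1) / c)
  refine ⟨N₀, fun N hN _ => ?_⟩
  have hNR : (N₀ : ℝ) ≤ N := by exact_mod_cast hN
  have h1 : 2 * Real.exp ℓ₀ + 1 ≤ c * N := by
    have := hN₀.le.trans hNR
    rw [div_le_iff₀ hc] at this
    linarith
  refine le_trans ?_ h1
  have hsub : {n : ℤ | n ≠ 0 ∧ |n| ≤ N ∧ Real.log |(n : ℝ)| ≤ ℓ₀} ⊆
      ((Icc (-(⌊Real.exp ℓ₀⌋₊ : ℤ)) (⌊Real.exp ℓ₀⌋₊ : ℤ) : Finset ℤ) : Set ℤ) := by
    rintro n ⟨hn, _, h2⟩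
    have hn0 : 0 < |(n : ℝ)| := by rw [abs_pos]; exact_mod_cast hn
    have h3 : |(n : ℝ)| ≤ Real.exp ℓ₀ := (Real.log_le_iff_le_exp hn0).1 h2
    have h4 : n.natAbs ≤ ⌊Real.exp ℓ₀⌋₊ := by
      rw [Nat.le_floor_iff (Real.exp_pos _).le, Nat.cast_natAbs]
      exact_mod_cast h3
    rw [coe_Icc, Set.mem_Icc]
    omega
  have h2 := Set.ncard_le_ncard hsub (Finset.finite_toSet _)
  rw [Set.ncard_coe_finset, Int.card_Icc] at h2
  have h3 : ((Set.ncard {n : ℤ | n ≠ 0 ∧ |n| ≤ N ∧ Real.log |(n : ℝ)| ≤ ℓ₀} : ℕ) : ℝ)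
      ≤ 2 * ⌊Real.exp ℓ₀⌋₊ + 1 := by
    have h4 : ((⌊Real.exp ℓ₀⌋₊ : ℤ) + 1 - -(⌊Real.exp ℓ₀⌋₊ : ℤ)).toNat = 2 * ⌊Real.exp ℓ₀⌋₊ + 1 := by omega
    rw [h4] at h2
    exact_mod_cast h2
  have h4 := Nat.floor_le (Real.exp_pos ℓ₀).le
  linarith

/-- **terms of prescribed size** -/
theorem descent {T : ℤ → ℤ} (hT : ∀ x, T x = if x % 2 = 0 then x / 2 else (3 * x + 1) / 2)
    {g : ℤ → ℝ} {V a b : ℝ} (hV : 0 < V)
    (hg : ∀ κ c : ℝ, κ < 2 / Real.log (4 / 3) → 0 < c → Ap T g κ V c) (ha : 0 < a) (hab : a < b)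
    (hb : b ≤ 1) {c : ℝ} (hc : 0 < c) :
    Few c (fun (_ : Unit) n => ¬ ∃ k : ℕ, |(n : ℝ)| ^ a ≤ |((T^[k] n : ℤ) : ℝ)| ∧
      |((T^[k] n : ℤ) : ℝ)| ≤ |(n : ℝ)| ^ b ∧ g (T^[k] n) ≠ 0) := by
  have hl3 : 0 < Real.log 3 := Real.log_pos (by norm_num)
  have hl43 : 0 < Real.log (4 / 3) := Real.log_pos (by norm_num)
  obtain ⟨lam, hlam⟩ : ∃ lam : ℝ, lam = Real.log (4 / 3) / 2 := ⟨_, rfl⟩
  have hlam0 : 0 < lam := by rw [hlam]; positivity
  obtain ⟨η, hη⟩ : ∃ η : ℝ, η = (b - a) / 4 := ⟨_, rfl⟩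
  have hη0 : 0 < η := by rw [hη]; linarith
  obtain ⟨κ, hκ⟩ : ∃ κ : ℝ, κ = (1 - a - η) / lam := ⟨_, rfl⟩
  obtain ⟨κ', hκ'⟩ : ∃ κ' : ℝ, κ' = (1 - b + η) / lam := ⟨_, rfl⟩
  have hκl : κ * lam = 1 - a - η := by rw [hκ]; field_simp
  have hκl' : κ' * lam = 1 - b + η := by rw [hκ']; field_simp
  have hκ0 : 0 < κ := by rw [hκ]; apply div_pos _ hlam0; linarith
  have hκ0' : 0 < κ' := by rw [hκ']; apply div_pos _ hlam0; linarith
  have hκstar : κ < 2 / Real.log (4 / 3) := by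
    rw [lt_div_iff₀ hl43]
    have : κ * Real.log (4 / 3) = 2 * (κ * lam) := by rw [hlam]; ring
    rw [this, hκl]; linarith
  obtain ⟨d, hd⟩ : ∃ d : ℝ, d = κ - κ' := ⟨_, rfl⟩
  have hdl : d * lam = 2 * η := by rw [hd, sub_mul, hκl, hκl', hη]; ring
  have hd0 : 0 < d := by
    by_contra hcon
    push Not at hcon
    have := mul_nonpos_of_nonpos_of_nonneg hcon hlam0.le
    linarith
  obtain ⟨c₁, hc₁⟩ : ∃ c₁ : ℝ, c₁ = min (c / 4) (η / (2 * Real.log 3)) := ⟨_, rfl⟩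
  have hc₁0 : 0 < c₁ := by rw [hc₁]; positivity
  have hc₁c : c₁ ≤ c / 4 := by rw [hc₁]; exact min_le_left _ _
  have hc₁η : c₁ * Real.log 3 ≤ η / 2 := by
    have : c₁ ≤ η / (2 * Real.log 3) := by rw [hc₁]; exact min_le_right _ _
    rw [le_div_iff₀ (by positivity)] at this
    linarith
  obtain ⟨c₂, hc₂⟩ : ∃ c₂ : ℝ, c₂ = min (c / 4) (V * d / 4) := ⟨_, rfl⟩
  have hc₂0 : 0 < c₂ := by rw [hc₂]; positivity
  have hc₂c : c₂ ≤ c / 4 := by rw [hc₂]; exact min_le_left _ _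
  have hc₂V : c₂ ≤ V * d / 4 := by rw [hc₂]; exact min_le_right _ _
  obtain ⟨M, hM⟩ : ∃ M : ℝ, M = max 1 (2 * κ / η) := ⟨_, rfl⟩
  have hM1 : 1 ≤ M := by rw [hM]; exact le_max_left _ _
  have hM0 : 0 < M := by linarith
  have hMκ : κ / M ≤ η / 2 := by
    have : 2 * κ / η ≤ M := by rw [hM]; exact le_max_right _ _
    rw [div_le_iff₀ hη0] at this
    rw [div_le_iff₀ hM0]; linarith
  obtain ⟨ℓ₀, hℓ₀⟩ : ∃ ℓ₀ : ℝ, ℓ₀ = max (Real.log M / a) (4 / d) := ⟨_, rfl⟩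
  have h1 := parity_law hT hκstar hc₁0
  have h2 := hg κ c₂ hκstar hc₂0
  have h3 := few_small (show 0 < c / 4 by positivity) ℓ₀
  let w1 : Wt := ⟨fun _ => 1, fun _ => by simp⟩
  have h12 := Few.union h1 h2 (B'' := fun (_ : Unit) n =>
    (∃ t : ℕ, (t : ℝ) ≤ κ * Real.log |(n : ℝ)| ∧ c₁ * Real.log |(n : ℝ)| <
      |∑ k ∈ range t, w1.1 k * (pr (T^[k] n) - 1 / 2)|) ∨
    (∃ t : ℕ, (t : ℝ) ≤ κ * Real.log |(n : ℝ)| ∧ c₂ * Real.log |(n : ℝ)| <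
      |∑ k ∈ range t, w1.1 k * (g (T^[k] n) - V)|)) (fun _ => w1) (fun _ => w1) (fun w n _ h => h)
  have h123 := Few.union h12 h3 (B'' := fun (_ : Unit) n => ¬ ∃ k : ℕ, |(n : ℝ)| ^ a ≤ |((T^[k] n : ℤ) : ℝ)| ∧
      |((T^[k] n : ℤ) : ℝ)| ≤ |(n : ℝ)| ^ b ∧ g (T^[k] n) ≠ 0) id id ?_
  · exact Few.mono h123 (by linarith) id (fun _ _ _ h => h)
  intro _ n hn hbad
  by_contra hcon
  rw [not_or, not_or] at hcon
  obtain ⟨⟨b1, b2⟩, b3⟩ := hcon
  push Not at b1 b2 b3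
  apply hbad
  have hn0 : 0 < |(n : ℝ)| := by rw [abs_pos]; exact_mod_cast hn
  set ℓ := Real.log |(n : ℝ)| with hℓ
  have hℓ1 : Real.log M / a < ℓ := by
    refine lt_of_le_of_lt ?_ b3
    rw [hℓ₀]; exact le_max_left _ _
  have hℓ2 : 4 / d < ℓ := by
    refine lt_of_le_of_lt ?_ b3
    rw [hℓ₀]; exact le_max_right _ _
  have hℓ0 : 0 < ℓ := lt_trans (by positivity) hℓ2
  rw [div_lt_iff₀ ha] at hℓ1
  rw [div_lt_iff₀ hd0] at hℓ2
  simp only [w1, one_mul] at b1 b2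
  have hsz := size hT hn hκ0.le hc₁0.le hM1 hlam hℓ0.le b1 (by
    refine hℓ1.le.trans ?_
    rw [hκl]
    apply mul_le_mul_of_nonneg_left _ hℓ0.le
    linarith)
  -- the times
  obtain ⟨t₁, ht₁⟩ : ∃ t₁ : ℕ, t₁ = ⌈κ' * ℓ⌉₊ := ⟨_, rfl⟩
  obtain ⟨t₂, ht₂⟩ : ∃ t₂ : ℕ, t₂ = ⌊κ * ℓ⌋₊ := ⟨_, rfl⟩
  have ht1a : κ' * ℓ ≤ t₁ := by rw [ht₁]; exact Nat.le_ceil _
  have ht1b : (t₁ : ℝ) < κ' * ℓ + 1 := by rw [ht₁]; exact Nat.ceil_lt_add_one (by positivity)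
  have ht2a : (t₂ : ℝ) ≤ κ * ℓ := by rw [ht₂]; exact Nat.floor_le (by positivity)
  have ht2b : κ * ℓ < t₂ + 1 := by rw [ht₂]; exact Nat.lt_floor_add_one _
  have hdℓ : κ * ℓ - κ' * ℓ = d * ℓ := by rw [hd]; ring
  have ht12 : t₁ ≤ t₂ := by
    have : (t₁ : ℝ) ≤ t₂ := by linarith
    exact_mod_cast this
  have key : ∃ k ∈ Ico t₁ t₂, g (T^[k] n) ≠ 0 := by
    by_contra hno
    push Not at hno
    have e1 := b2 t₂ ht2a
    have e2 := b2 t₁ (le_trans (by exact_mod_cast ht12) ht2a)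
    have e3 : ∑ k ∈ range t₂, (g (T^[k] n) - V) - ∑ k ∈ range t₁, (g (T^[k] n) - V)
        = -(V * ((t₂ : ℝ) - t₁)) := by
      rw [← sum_Ico_eq_sub _ ht12, sum_congr rfl (fun k hk => by rw [hno k hk]), sum_const, Nat.card_Ico,
        nsmul_eq_mul, Nat.cast_sub ht12]
      ring
    have e4 := (abs_le.1 e1).1
    have e5 := (abs_le.1 e2).2
    have e6 : V * ((t₂ : ℝ) - t₁) ≤ 2 * (c₂ * ℓ) := by linarith
    have e7 : V * (d * ℓ - 2) ≤ V * ((t₂ : ℝ) - t₁) := mul_le_mul_of_nonneg_left (by linarith) hV.le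
    have e8 : 2 * (c₂ * ℓ) ≤ V * (d * ℓ) / 2 := by
      have := mul_le_mul_of_nonneg_right hc₂V hℓ0.le
      linarith
    have e9 : V * (d * ℓ) ≤ V * 4 := by linarith
    have e10 := le_of_mul_le_mul_left e9 hV
    linarith
  obtain ⟨k, hk, hgk⟩ := key
  rw [mem_Ico] at hk
  have hk1 : κ' * ℓ ≤ k := ht1a.trans (by exact_mod_cast hk.1)
  have hk2 : (k : ℝ) ≤ κ * ℓ := le_trans (by exact_mod_cast hk.2.le) ht2a
  obtain ⟨g1, g2⟩ := hsz k hk2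
  have hpos : 0 < |((T^[k] n : ℤ) : ℝ)| := by linarith
  have g3 : (k : ℝ) / M ≤ η / 2 * ℓ := by
    have : (k : ℝ) / M ≤ κ * ℓ / M := div_le_div_of_nonneg_right hk2 hM0.le
    have e : κ * ℓ / M = κ / M * ℓ := by ring
    rw [e] at this
    exact this.trans (mul_le_mul_of_nonneg_right hMκ hℓ0.le)
  have g4 : c₁ * Real.log 3 * ℓ ≤ η / 2 * ℓ := mul_le_mul_of_nonneg_right hc₁η hℓ0.le
  obtain ⟨g5, g6⟩ := abs_le.1 g2
  have g7 := mul_le_mul_of_nonneg_right hk1 hlam0.le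
  have g8 := mul_le_mul_of_nonneg_right hk2 hlam0.le
  have e1 : κ' * ℓ * lam = (1 - b + η) * ℓ := by rw [← hκl']; ring
  have e2 : κ * ℓ * lam = (1 - a - η) * ℓ := by rw [← hκl]; ring
  rw [e1] at g7
  rw [e2] at g8
  refine ⟨k, ?_, ?_, hgk⟩
  · rw [Real.rpow_def_of_pos hn0, ← Real.exp_log hpos]
    apply Real.exp_le_exp.2
    rw [← hℓ]
    linarith
  · rw [Real.rpow_def_of_pos hn0, ← Real.exp_log hpos]
    apply Real.exp_le_exp.2
    rw [← hℓ]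
    linarith

end Pool.Agent.H998_EK
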