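import Pool.Agent.H998_EK.Own

/-!
Library H998_EK (helper998): doubling the argument does not matter.
-/

set_option autoImplicit false
set_option linter.unusedSectionVars false

namespace Pool.Agent.H998_EK

open Finset Filter Topology

lemma f_double {f : ℕ → ℝ} (hf : AddF f) {M D : ℕ} (hM : 1 ≤ M) (hD : Good D M) :
    |f (2 * M) - f M| ≤ 2 * ∑ q ∈ range (2 * D ^ 3 + 5), |f q| := by
  obtain ⟨v, M', hodd, hM'⟩ := Nat.exists_eq_two_pow_mul_odd (n := M) (by omega)
  have hM'1 : 1 ≤ M' := hodd.pos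
  have hc : ∀ k : ℕ, Nat.Coprime (2 ^ k) M' := fun k =>
    Nat.Coprime.pow_left k ((Nat.coprime_two_left).2 hodd)
  have h1 : f M = f (2 ^ v) + f M' := by
    rw [hM']
    exact hf.add _ _ Nat.one_le_two_pow hM'1 (hc v)
  have h2 : f (2 * M) = f (2 ^ (v + 1)) + f M' := by
    rw [hM', ← mul_assoc, ← pow_succ']
    exact hf.add _ _ Nat.one_le_two_pow hM'1 (hc (v + 1))
  have h3 : 2 ^ v ≤ D ^ 3 + 2 := by
    rcases Nat.lt_or_ge v 2 with h | h
    · have : 2 ^ v ≤ 2 ^ 1 := Nat.pow_le_pow_right (by norm_num) (by omega)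
      omega
    · have h4 : (2 ^ (v / 2)) ^ 2 ∣ M := by
        rw [hM', ← pow_mul]
        exact (pow_dvd_pow 2 (by omega)).mul_right _
      have h5 := hD _ h4
      have h6 : 2 ^ v ≤ (2 ^ (v / 2)) ^ 3 := by
        rw [← pow_mul]
        exact Nat.pow_le_pow_right (by norm_num) (by omega)
      have h7 := Nat.pow_le_pow_left h5 3
      omega
  have hq : ∀ q : ℕ, q < 2 * D ^ 3 + 5 → |f q| ≤ ∑ q ∈ range (2 * D ^ 3 + 5), |f q| := by
    intro q hq
    exact single_le_sum (f := fun q => |f q|) (fun _ _ => abs_nonneg _) (mem_range.2 hq)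
  have h4 := hq (2 ^ v) (by omega)
  have h5 := hq (2 ^ (v + 1)) (by rw [pow_succ]; omega)
  rw [h1, h2]
  have h6 : f (2 ^ (v + 1)) + f M' - (f (2 ^ v) + f M') = f (2 ^ (v + 1)) - f (2 ^ v) := by ring
  rw [h6]
  have := abs_sub (f (2 ^ (v + 1))) (f (2 ^ v))
  linarith

/-- the normalised value is at most `u` -/
def Ev (f α β : ℕ → ℝ) (u : ℝ) (N : ℕ) : Prop := f N ≤ α N + u * β N

open scoped Classical in
/-- the indicator function -/
noncomputable def ie (f α β : ℕ → ℝ) (u : ℝ) (N : ℕ) : ℝ := if Ev f α β u N then 1 else 0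

open scoped Classical in
theorem flip_lim {f α β : ℕ → ℝ} (hf : AddF f) (hB : Tendsto (Bq f) atTop atTop) (hn : Nrm f α β)
    (u : ℝ) {a b : ℕ} (ha : 1 ≤ a) :
    MV (fun n => |ie f α β u (2 * (a * n + b)) - ie f α β u (a * n + b)|) 0 := by
  unfold MV
  rw [Metric.tendsto_atTop]
  intro ε hε
  obtain ⟨η, hη, hη2, hη3⟩ : ∃ η : ℝ, 0 < η ∧ |Phi (u + η) - Phi u| < ε / 8 ∧
      |Phi (u + -η) - Phi u| < ε / 8 := by
    have hcont : Continuous (fun η : ℝ => Phi (u + η)) := Phi_cont.comp (by fun_prop)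
    obtain ⟨δ, hδ, h⟩ := Metric.continuousAt_iff.1 (hcont.continuousAt (x := 0)) (ε / 8) (by positivity)
    simp only [add_zero, Real.dist_eq, sub_zero] at h
    refine ⟨δ / 2, by positivity, h ?_, h ?_⟩
    · rw [abs_of_pos (by positivity)]; linarith
    · rw [abs_neg, abs_of_pos (by positivity)]; linarith
  have hne : ∀ i j : Unit, i ≠ j → a * b ≠ a * b := fun i j h => absurd rfl h
  have hup := box_lim (ι := Unit) hf hB (a := fun _ => a) (b := fun _ => b) (fun _ => ha) hne
    (fun _ => u + η)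
  have hlo := box_lim (ι := Unit) hf hB (a := fun _ => a) (b := fun _ => b) (fun _ => ha) hne
    (fun _ => u + -η)
  simp only [forall_const, univ_unique, prod_singleton] at hup hlo
  obtain ⟨D, hD1, hD⟩ : ∃ D : ℕ, 1 ≤ D ∧ ((a : ℝ) + b) / D ≤ ε / 8 := by
    obtain ⟨D, hD⟩ := exists_nat_gt (((a : ℝ) + b) / (ε / 8))
    refine ⟨D + 1, by omega, ?_⟩
    rw [div_lt_iff₀ (by positivity)] at hD
    rw [div_le_iff₀ (by positivity)]
    push_cast
    nlinarith
  set K := 2 * ∑ q ∈ range (2 * D ^ 3 + 5), |f q| with hK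
  have hK0 : 0 ≤ K := by positivity
  obtain ⟨X₁, hX₁⟩ := Metric.tendsto_atTop.1 hup (ε / 8) (by positivity)
  obtain ⟨X₂, hX₂⟩ := Metric.tendsto_atTop.1 hlo (ε / 8) (by positivity)
  obtain ⟨X₃, hX₃⟩ := Metric.tendsto_atTop.1 sqrt_div (ε / 8) (by positivity)
  obtain ⟨X₀, hX₀⟩ := thr hf hB hn u (η / 4) (by positivity)
  obtain ⟨X₄, hX₄⟩ := eventually_atTop.1 (hB.eventually (eventually_ge_atTop ((1 + 4 * K / η) ^ 2)))
  obtain ⟨X₅, hX₅⟩ := exists_nat_gt (8 / ε)
  refine ⟨1 + X₁ + X₂ + X₃ + X₄ + X₀ + X₅ + 2 * a + 2 * b, fun X hX => ?_⟩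
  have hX1 : 1 ≤ X := by omega
  have hX0 : (0 : ℝ) < X := by exact_mod_cast hX1
  have hBX : 1 + 4 * K / η ≤ Real.sqrt (Bq f X) := Real.le_sqrt_of_sq_le (hX₄ X (by omega))
  have h4K : 0 ≤ 4 * K / η := by positivity
  have hB1 : 0 < Real.sqrt (Bq f X) := by linarith
  have hKB : K ≤ η / 4 * Real.sqrt (Bq f X) := by
    have : 4 * K / η ≤ Real.sqrt (Bq f X) := by linarith
    rw [div_le_iff₀ hη] at this
    linarith
  have h1 := hX₁ X (by omega)
  have h2 := hX₂ X (by omega)
  have h3 := hX₃ X (by omega)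
  have h5 : 1 / (X : ℝ) ≤ ε / 8 := by
    have : 8 / ε < X := hX₅.trans_le (by exact_mod_cast (by omega : X₅ ≤ X))
    rw [div_lt_iff₀ hε] at this
    rw [div_le_iff₀ hX0]
    linarith
  rw [Real.dist_eq, sub_zero, abs_of_nonneg (by positivity)] at h3
  rw [Real.dist_eq] at h1 h2 ⊢
  rw [sub_zero, abs_of_nonneg (by positivity)]
  have hsize : ∀ n, Nat.sqrt X ≤ n → n < X → (X < (a * n + b + 1) ^ 2 ∧
      a * n + b < (X + 1) ^ 2) ∧ (X < (2 * (a * n + b) + 1) ^ 2 ∧ 2 * (a * n + b) < (X + 1) ^ 2) := by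
    intro n hn1 hn2
    have e0 : n ≤ a * n := Nat.le_mul_of_pos_left n ha
    have e1 : X < (a * n + b + 1) ^ 2 := by
      refine (Nat.lt_succ_sqrt' X).trans_le ?_
      apply Nat.pow_le_pow_left
      have := Nat.succ_eq_add_one (Nat.sqrt X)
      omega
    have e2 : 2 * a * n ≤ X * X := Nat.mul_le_mul (by omega) (by omega)
    have e3 : 2 * (a * n + b) < (X + 1) ^ 2 := by nlinarith
    refine ⟨⟨e1, by omega⟩, e1.trans_le (Nat.pow_le_pow_left (by omega) 2), e3⟩
  set S1 := (range X).filter (fun n => a * n + b = 0 ∨ ¬ Good D (a * n + b)) with hS1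
  set Su := (range X).filter (fun n => FF f X (a * n + b) ≤ u + η) with hSu
  set Sl := (range X).filter (fun n => FF f X (a * n + b) ≤ u + -η) with hSl
  have hSlu : Sl ⊆ Su := by
    intro n hn
    rw [hSl, mem_filter] at hn
    rw [hSu, mem_filter]
    exact ⟨hn.1, by linarith [hn.2]⟩
  have hpt : ∀ n ∈ range X, |ie f α β u (2 * (a * n + b)) - ie f α β u (a * n + b)| ≤
      (if n ∈ S1 ∪ range (Nat.sqrt X) ∪ (Su \ Sl) then 1 else 0) := by
    intro n hn
    have hb1 : |ie f α β u (2 * (a * n + b)) - ie f α β u (a * n + b)| ≤ 1 := by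
      unfold ie
      split_ifs <;> norm_num
    by_cases hm : n ∈ S1 ∪ range (Nat.sqrt X) ∪ (Su \ Sl)
    · rw [if_pos hm]; exact hb1
    · rw [if_neg hm]
      rw [mem_union, mem_union, Finset.mem_sdiff] at hm
      push Not at hm
      obtain ⟨⟨hm1, hm2⟩, hm3⟩ := hm
      rw [hS1, mem_filter] at hm1
      rw [mem_range] at hm2 hn
      have hm1' : ¬ (a * n + b = 0 ∨ ¬ Good D (a * n + b)) := fun h => hm1 ⟨mem_range.2 hn, h⟩
      push Not at hm1'
      have hs := hsize n (by omega) hn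
      have ha1 := abs_le.1 (hX₀ X (by omega) _ hs.1.1 hs.1.2)
      have ha2 := abs_le.1 (hX₀ X (by omega) _ hs.2.1 hs.2.2)
      have hfd := abs_le.1 (f_double hf (Nat.pos_of_ne_zero hm1'.1) hm1'.2)
      rw [← hK] at hfd
      have hiff : Ev f α β u (2 * (a * n + b)) ↔ Ev f α β u (a * n + b) := by
        by_contra hcon
        have hF : n ∈ Su := by
          rw [hSu, mem_filter]
          refine ⟨mem_range.2 hn, ?_⟩
          unfold FF
          rw [div_le_iff₀ hB1]
          unfold Ev at hcon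
          by_cases hE : f (a * n + b) ≤ α (a * n + b) + u * β (a * n + b)
          · nlinarith
          · have hE2 : f (2 * (a * n + b)) ≤ α (2 * (a * n + b)) + u * β (2 * (a * n + b)) := by
              by_contra hE3
              exact hcon ⟨fun h => absurd h hE3, fun h => absurd h hE⟩
            nlinarith
        have hF2 := hm3 hF
        rw [hSl, mem_filter] at hF2
        have hF3 := hF2.2
        unfold FF at hF3
        rw [div_le_iff₀ hB1] at hF3
        unfold Ev at hcon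
        apply hcon
        constructor
        · intro _
          nlinarith
        · intro _
          nlinarith
      unfold ie
      simp only [hiff, sub_self, abs_zero, le_refl]
  have hsum := sum_le_sum hpt
  rw [← sum_filter, sum_const, nsmul_eq_mul, mul_one] at hsum
  have hc1 : (((range X).filter (fun n => n ∈ S1 ∪ range (Nat.sqrt X) ∪ (Su \ Sl))).card : ℝ) ≤
      S1.card + Nat.sqrt X + (Su.card - Sl.card) := by
    have e1 : ((range X).filter (fun n => n ∈ S1 ∪ range (Nat.sqrt X) ∪ (Su \ Sl))).card ≤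
        S1.card + Nat.sqrt X + (Su \ Sl).card := by
      refine (card_le_card (fun n hn => (mem_filter.1 hn).2)).trans ?_
      refine (card_union_le _ _).trans (Nat.add_le_add_right ((card_union_le _ _).trans ?_) _)
      rw [card_range]
    have e2 : ((Su \ Sl).card : ℝ) = Su.card - Sl.card := by
      rw [card_sdiff_of_subset hSlu, Nat.cast_sub (card_le_card hSlu)]
    rw [← e2]
    exact_mod_cast e1
  have hc2 := bad_form (b := b) hD1 ha X
  rw [← hS1] at hc2
  have hc3 : (S1.card : ℝ) / X ≤ ((a : ℝ) + b) / D + 1 / X := by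
    rw [div_le_iff₀ hX0]
    refine hc2.trans ?_
    have hD0 : (0 : ℝ) < D := by exact_mod_cast hD1
    have e1 : (((a : ℝ) + b) / D + 1 / X) * X = ((a + b) * X) / D + 1 := by field_simp
    rw [e1]
    apply add_le_add_left
    apply div_le_div_of_nonneg_right _ hD0.le
    push_cast
    have hX1' : (1 : ℝ) ≤ X := by exact_mod_cast hX1
    have : (0 : ℝ) ≤ b := Nat.cast_nonneg _
    nlinarith
  have hfin := div_le_div_of_nonneg_right (hsum.trans hc1) hX0.le
  rw [add_div, add_div, sub_div] at hfin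
  have g1 := abs_lt.1 h1
  have g2 := abs_lt.1 h2
  have g3 := abs_lt.1 hη2
  have g4 := abs_lt.1 hη3
  linarith

end Pool.Agent.H998_EK
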