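import Pool.Agent.H998_EK.Key
import Pool.Agent.H998_EK.Add

/-!
Library H998_EK (helper998): divisibility of several linear forms by primes.
-/

set_option autoImplicit false

namespace Pool.Agent.H998_EK

open Finset

/-- the centred indicator function of `p ∣ a x + b` -/
noncomputable def yy (a b p x : ℕ) : ℝ := (if p ∣ a * x + b then 1 else 0) - 1 / p

lemma ind_per (a b p x : ℕ) : (if p ∣ a * (x + p) + b then (1 : ℝ) else 0) =
    if p ∣ a * x + b then 1 else 0 := by
  have : p ∣ a * (x + p) + b ↔ p ∣ a * x + b := by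
    rw [show a * (x + p) + b = (a * x + b) + p * a by ring]
    exact Nat.dvd_add_left (dvd_mul_right p a)
  simp only [this]

lemma yy_per (a b p x : ℕ) : yy a b p (x + p) = yy a b p x := by
  unfold yy
  rw [ind_per]

lemma yy_abs {a b p x : ℕ} (hp : p.Prime) : |yy a b p x| ≤ 1 := by
  have hp1 : (1 : ℝ) ≤ p := by exact_mod_cast hp.one_lt.le
  have h1 : 0 < (1 : ℝ) / p := by positivity
  have h2 : (1 : ℝ) / p ≤ 1 := by rw [div_le_one (by linarith)]; exact hp1
  unfold yy
  rw [abs_le]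
  split_ifs <;> constructor <;> linarith

lemma ind_sum {a b p : ℕ} (hp : p.Prime) (ha : ¬ p ∣ a) :
    ∑ r ∈ range p, (if p ∣ a * r + b then (1 : ℝ) else 0) = 1 := by
  have hc : Nat.Coprime a p := ((Nat.Prime.coprime_iff_not_dvd hp).2 ha).symm
  have h1 := cover (G := fun n => if p ∣ n then (1 : ℝ) else 0) hp.one_lt.le (by
    intro j
    have : p ∣ j + p ↔ p ∣ j := Nat.dvd_add_self_right
    simp only [this]) hc b
  simp only [add_comm b] at h1
  rw [h1]
  rw [sum_eq_single 0]
  · simp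
  · intro r hr hr0
    rw [mem_range] at hr
    rw [if_neg]
    intro hd
    have := Nat.le_of_dvd (Nat.pos_of_ne_zero hr0) hd
    omega
  · intro h
    exact absurd (mem_range.2 hp.pos) h

lemma yy_sum {a b p : ℕ} (hp : p.Prime) (ha : ¬ p ∣ a) : ∑ r ∈ range p, yy a b p r = 0 := by
  have hp0 : (p : ℝ) ≠ 0 := by exact_mod_cast hp.ne_zero
  unfold yy
  rw [sum_sub_distrib, ind_sum hp ha, sum_const, card_range, nsmul_eq_mul]
  field_simp
  ring

lemma yy_sq {a b p : ℕ} (hp : p.Prime) (ha : ¬ p ∣ a) :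
    ∑ r ∈ range p, yy a b p r * yy a b p r = 1 - 1 / p := by
  have hp0 : (p : ℝ) ≠ 0 := by exact_mod_cast hp.ne_zero
  have h1 : ∀ r ∈ range p, yy a b p r * yy a b p r =
      (1 - 2 / p) * (if p ∣ a * r + b then (1 : ℝ) else 0) + 1 / (p : ℝ) ^ 2 := by
    intro r _
    unfold yy
    split_ifs
    · field_simp
      ring
    · field_simp
      ring
  rw [sum_congr rfl h1, sum_add_distrib, ← mul_sum, ind_sum hp ha, sum_const, card_range, nsmul_eq_mul]
  field_simp
  ring

lemma yy_cross {a b a' b' p : ℕ} (hp : p.Prime) (ha : ¬ p ∣ a) (ha' : ¬ p ∣ a')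
    (hne : ¬ a * b' ≡ a' * b [MOD p]) :
    ∑ r ∈ range p, yy a b p r * yy a' b' p r = 0 - 1 / p := by
  have hp0 : (p : ℝ) ≠ 0 := by exact_mod_cast hp.ne_zero
  have h1 : ∀ r ∈ range p, yy a b p r * yy a' b' p r =
      (-1 / p) * (if p ∣ a * r + b then (1 : ℝ) else 0) +
      (-1 / p) * (if p ∣ a' * r + b' then (1 : ℝ) else 0) + 1 / (p : ℝ) ^ 2 := by
    intro r _
    unfold yy
    by_cases h1 : p ∣ a * r + b
    · have h2 : ¬ p ∣ a' * r + b' := by
        intro h2
        apply hne
        have e1 : a' * (a * r + b) ≡ 0 [MOD p] := (Nat.modEq_zero_iff_dvd).2 (h1.mul_left a')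
        have e2 : a * (a' * r + b') ≡ 0 [MOD p] := (Nat.modEq_zero_iff_dvd).2 (h2.mul_left a)
        have e3 : a * a' * r + a * b' ≡ a * a' * r + a' * b [MOD p] := by
          have := e2.trans e1.symm
          rw [show a * (a' * r + b') = a * a' * r + a * b' by ring,
            show a' * (a * r + b) = a * a' * r + a' * b by ring] at this
          exact this
        exact Nat.ModEq.add_left_cancel' _ e3
      rw [if_pos h1, if_neg h2]
      field_simp
      ring
    · rw [if_neg h1]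
      split_ifs
      · field_simp
        ring
      · field_simp
        ring
  rw [sum_congr rfl h1, sum_add_distrib, sum_add_distrib, ← mul_sum, ← mul_sum, ind_sum hp ha,
    ind_sum hp ha', sum_const, card_range, nsmul_eq_mul]
  field_simp
  ring

variable {ι : Type} [Fintype ι]

/-- the contribution of the prime `p` -/
noncomputable def nu (f : ℕ → ℝ) (B : ℝ) (s : ι → ℝ) (a b : ι → ℕ) (p x : ℕ) : ℝ :=
  f p / B * ∑ i, s i * yy (a i) (b i) p x

/-- the prime `p` is good for the linear forms -/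
structure GP (a b : ι → ℕ) (p : ℕ) : Prop where
  pr : p.Prime
  nd : ∀ i, ¬ p ∣ a i
  cr : ∀ i j, i ≠ j → ¬ a i * b j ≡ a j * b i [MOD p]

lemma nu_sys {f : ℕ → ℝ} (hf : ∀ p : ℕ, p.Prime → |f p| ≤ 1) {B : ℝ} (hB : 0 < B) (s : ι → ℝ)
    {a b : ι → ℕ} {P : Finset ℕ} (hP : ∀ p ∈ P, GP a b p) :
    Sys P (nu f B s a b) ((∑ i, |s i|) / B) := by
  refine ⟨fun p hp => (hP p hp).pr, fun p hp x => ?_, fun p hp x => ?_, fun p hp => ?_⟩
  · unfold nu
    congr 1
    apply sum_congr rfl
    intro i _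
    rw [yy_per]
  · unfold nu
    rw [abs_mul, abs_div, abs_of_pos hB, div_mul_eq_mul_div]
    apply div_le_div_of_nonneg_right _ hB.le
    calc |f p| * |∑ i, s i * yy (a i) (b i) p x| ≤ 1 * ∑ i, |s i| := by
          apply mul_le_mul (hf p (hP p hp).pr) _ (abs_nonneg _) zero_le_one
          refine (abs_sum_le_sum_abs _ _).trans (sum_le_sum fun i _ => ?_)
          rw [abs_mul]
          have := yy_abs (a := a i) (b := b i) (x := x) (hP p hp).pr
          calc |s i| * |yy (a i) (b i) p x| ≤ |s i| * 1 :=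
                mul_le_mul_of_nonneg_left this (abs_nonneg _)
            _ = _ := mul_one _
      _ = _ := one_mul _
  · unfold nu
    rw [← mul_sum, sum_comm]
    have : ∀ i ∈ (univ : Finset ι), ∑ r ∈ range p, s i * yy (a i) (b i) p r = 0 := by
      intro i _
      rw [← mul_sum, yy_sum (hP p hp).pr ((hP p hp).nd i), mul_zero]
    rw [sum_eq_zero this, mul_zero]

lemma nu_var {f : ℕ → ℝ} {B : ℝ} (s : ι → ℝ) {a b : ι → ℕ} {p : ℕ} (hp : GP a b p) :
    Vr (nu f B s a b) p = (∑ i, s i ^ 2) / B ^ 2 * (f p ^ 2 / p) -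
      (∑ i, s i) ^ 2 / B ^ 2 * (f p ^ 2 / (p : ℝ) ^ 2) := by
  classical
  have hp0 : (p : ℝ) ≠ 0 := by exact_mod_cast hp.pr.ne_zero
  have h1 : ∑ r ∈ range p, (∑ i, s i * yy (a i) (b i) p r) ^ 2 =
      (∑ i, s i ^ 2) - (∑ i, s i) ^ 2 / p := by
    have h2 : ∀ r ∈ range p, (∑ i, s i * yy (a i) (b i) p r) ^ 2 =
        ∑ i, ∑ j, s i * s j * (yy (a i) (b i) p r * yy (a j) (b j) p r) := by
      intro r _
      rw [sq, sum_mul_sum]
      apply sum_congr rfl
      intro i _
      apply sum_congr rfl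
      intro j _
      ring
    rw [sum_congr rfl h2, sum_comm]
    have h3 : ∀ i ∈ (univ : Finset ι), ∑ r ∈ range p, ∑ j, s i * s j *
        (yy (a i) (b i) p r * yy (a j) (b j) p r) = ∑ j, s i * s j * ((if i = j then 1 else 0) - 1 / p) := by
      intro i _
      rw [sum_comm]
      apply sum_congr rfl
      intro j _
      rw [← mul_sum]
      congr 1
      split_ifs with hij
      · subst hij
        exact yy_sq hp.pr (hp.nd i)
      · exact yy_cross hp.pr (hp.nd i) (hp.nd j) (hp.cr i j hij)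
    rw [sum_congr rfl h3]
    have h4 : ∀ i ∈ (univ : Finset ι), ∑ j, s i * s j * ((if i = j then (1 : ℝ) else 0) - 1 / p) =
        s i ^ 2 - s i * ((∑ j, s j) / p) := by
      intro i _
      simp only [mul_sub, sum_sub_distrib, mul_ite, mul_one, mul_zero, sum_ite_eq, mem_univ, if_true]
      congr 1
      · ring
      · rw [sum_div, mul_sum]
        apply sum_congr rfl
        intro j _
        ring
    rw [sum_congr rfl h4, sum_sub_distrib, ← sum_mul]
    ring
  unfold Vr nu
  have h2 : ∀ r ∈ range p, (f p / B * ∑ i, s i * yy (a i) (b i) p r) ^ 2 =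
      (f p / B) ^ 2 * (∑ i, s i * yy (a i) (b i) p r) ^ 2 := fun r _ => mul_pow _ _ _
  rw [sum_congr rfl h2, ← mul_sum, h1]
  field_simp

/-- only finitely many primes are bad for a family of linear forms which are pairwise not proportional -/
lemma gp_large {a b : ι → ℕ} (ha : ∀ i, 1 ≤ a i) (hne : ∀ i j, i ≠ j → a i * b j ≠ a j * b i) :
    ∃ p₀ : ℕ, 1 ≤ p₀ ∧ ∀ p : ℕ, p.Prime → p₀ < p → GP a b p := by
  refine ⟨1 + ∑ i, a i + ∑ i, ∑ j, a i * b j, by omega, fun p hp hlt => ?_⟩
  have h1 : ∀ i, a i < p := by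
    intro i
    have := single_le_sum (f := a) (fun _ _ => Nat.zero_le _) (mem_univ i)
    omega
  have h2 : ∀ i j, a i * b j < p := by
    intro i j
    have e1 := single_le_sum (f := fun j => a i * b j) (fun _ _ => Nat.zero_le _) (mem_univ j)
    have e2 := single_le_sum (f := fun i => ∑ j, a i * b j) (fun _ _ => Nat.zero_le _) (mem_univ i)
    have e3 : a i * b j ≤ ∑ j, a i * b j := e1
    have e4 : ∑ j, a i * b j ≤ ∑ i, ∑ j, a i * b j := e2
    omega
  refine ⟨hp, fun i hd => ?_, fun i j hij hmod => ?_⟩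
  · have := Nat.le_of_dvd (ha i) hd
    have := h1 i
    omega
  · exact hne i j hij (Nat.ModEq.eq_of_lt_of_lt hmod (h2 i j) (h2 j i))

end Pool.Agent.H998_EK
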