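import Pool.Agent.H998_EK.Cis

/-!
Library H998_EK (helper998): the key estimate for the characteristic function of a sum of periodic
functions with different prime periods.
-/

set_option autoImplicit false

namespace Pool.Agent.H998_EK

open Finset

/-- a system of centred periodic functions, one for each prime of `P` -/
structure Sys (P : Finset ℕ) (ν : ℕ → ℕ → ℝ) (M : ℝ) : Prop where
  pr : ∀ p ∈ P, p.Prime
  per : ∀ p ∈ P, ∀ x, ν p (x + p) = ν p x
  bd : ∀ p ∈ P, ∀ x, |ν p x| ≤ M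
  zero : ∀ p ∈ P, ∑ r ∈ range p, ν p r = 0

/-- the variance -/
noncomputable def Vr (ν : ℕ → ℕ → ℝ) (p : ℕ) : ℝ := (∑ r ∈ range p, ν p r ^ 2) / p

/-- the sum -/
noncomputable def TT (P : Finset ℕ) (ν : ℕ → ℕ → ℝ) (n : ℕ) : ℝ := ∑ p ∈ P, ν p n

variable {P : Finset ℕ} {ν : ℕ → ℕ → ℝ} {M : ℝ}

lemma Vr_nonneg (p : ℕ) : 0 ≤ Vr ν p := by unfold Vr; positivity

lemma QQ_pos (h : Sys P ν M) : 0 < ∏ p ∈ P, p := prod_pos fun p hp => (h.pr p hp).pos

lemma Vr_le (h : Sys P ν M) {p : ℕ} (hp : p ∈ P) : Vr ν p ≤ M ^ 2 := by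
  have hp0 : (0 : ℝ) < p := by exact_mod_cast (h.pr p hp).pos
  unfold Vr
  rw [div_le_iff₀ hp0]
  refine (sum_le_sum (g := fun _ => M ^ 2) fun r _ => ?_).trans ?_
  · have := h.bd p hp r
    rw [← sq_abs]
    exact pow_le_pow_left₀ (abs_nonneg _) this 2
  · rw [sum_const, card_range, nsmul_eq_mul, mul_comm]

lemma TT_per (h : Sys P ν M) (n : ℕ) : TT P ν (n + ∏ p ∈ P, p) = TT P ν n := by
  unfold TT
  apply sum_congr rfl
  intro p hp
  obtain ⟨k, hk⟩ := dvd_prod_of_mem (fun p => p) hp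
  rw [hk]
  exact per_mul (h.per p hp) n k

lemma exp_mean (h : Sys P ν M) {l : ℝ} (hl : |l| * M ≤ 1) :
    (∑ n ∈ range (∏ p ∈ P, p), Real.exp (l * TT P ν n)) / (∏ p ∈ P, p : ℕ) ≤
      Real.exp (l ^ 2 * ∑ p ∈ P, Vr ν p) := by
  have h1 : ∀ n ∈ range (∏ p ∈ P, p), Real.exp (l * TT P ν n) = ∏ p ∈ P, Real.exp (l * ν p n) := by
    intro n _
    rw [← Real.exp_sum]
    unfold TT
    rw [mul_sum]
  rw [sum_congr rfl h1, sum_prod_per (φ := fun p n => Real.exp (l * ν p n)) h.pr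
    (fun p hp x => by rw [h.per p hp])]
  push_cast
  rw [← prod_div_distrib, mul_sum, Real.exp_sum]
  apply prod_le_prod
  · intro p _
    positivity
  · intro p hp
    have hp0 : (0 : ℝ) < p := by exact_mod_cast (h.pr p hp).pos
    have h2 : ∀ r ∈ range p, Real.exp (l * ν p r) ≤ 1 + l * ν p r + l ^ 2 * ν p r ^ 2 := by
      intro r _
      have h3 : |l * ν p r| ≤ 1 := by
        rw [abs_mul]
        exact (mul_le_mul_of_nonneg_left (h.bd p hp r) (abs_nonneg _)).trans hl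
      have h4 := (abs_le.1 (Real.abs_exp_sub_one_sub_id_le h3)).2
      nlinarith
    calc (∑ r ∈ range p, Real.exp (l * ν p r)) / p
        ≤ (∑ r ∈ range p, (1 + l * ν p r + l ^ 2 * ν p r ^ 2)) / p :=
          div_le_div_of_nonneg_right (sum_le_sum h2) hp0.le
      _ = 1 + l ^ 2 * Vr ν p := by
          rw [sum_add_distrib, sum_add_distrib, ← mul_sum, ← mul_sum, h.zero p hp, sum_const,
            card_range]
          unfold Vr
          simp only [nsmul_eq_mul, mul_one, mul_zero, add_zero]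
          field_simp
      _ ≤ Real.exp (l ^ 2 * Vr ν p) := by
          have := Real.add_one_le_exp (l ^ 2 * Vr ν p)
          linarith

lemma pow_mean (h : Sys P ν M) (hM : M ≤ 1 / 2) (m : ℕ) :
    (∑ n ∈ range (∏ p ∈ P, p), TT P ν n ^ (2 * m)) / (∏ p ∈ P, p : ℕ) / (2 * m).factorial ≤
      Real.exp (4 * ∑ p ∈ P, Vr ν p) / 4 ^ m := by
  have hQ : (0 : ℝ) < (∏ p ∈ P, p : ℕ) := by exact_mod_cast QQ_pos h
  have h1 : ∀ n ∈ range (∏ p ∈ P, p), TT P ν n ^ (2 * m) ≤
      (2 * m).factorial / 4 ^ m * ((Real.exp (2 * TT P ν n) + Real.exp (-(2 * TT P ν n))) / 2) := by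
    intro n _
    have h2 := Real.hasSum_cosh (2 * TT P ν n)
    have h3 : (2 * TT P ν n) ^ (2 * m) / ((2 * m).factorial : ℝ) ≤ Real.cosh (2 * TT P ν n) := by
      apply le_hasSum h2 m
      intro k _
      rw [pow_mul]
      positivity
    rw [Real.cosh_eq] at h3
    have h4 : (2 * TT P ν n) ^ (2 * m) = 4 ^ m * TT P ν n ^ (2 * m) := by
      rw [mul_pow, pow_mul 2 2 m]; norm_num
    rw [h4] at h3
    have h5 : (0 : ℝ) < (2 * m).factorial := by positivity
    have h6 : (0 : ℝ) < 4 ^ m := by positivity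
    rw [div_le_iff₀ h5] at h3
    rw [div_mul_eq_mul_div, le_div_iff₀ h6]
    linarith
  have h2 := exp_mean h (l := 2) (by rw [abs_of_pos (by norm_num)]; linarith)
  have h3 := exp_mean h (l := -2) (by rw [abs_of_neg (by norm_num)]; linarith)
  norm_num at h2 h3
  have h4 := sum_le_sum h1
  rw [← mul_sum, ← sum_div, sum_add_distrib] at h4
  have h5 : (0 : ℝ) < (2 * m).factorial := by positivity
  have h6 : (0 : ℝ) < 4 ^ m := by positivity
  rw [div_div, div_le_iff₀ (by positivity)]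
  refine h4.trans ?_
  push_cast at hQ ⊢
  rw [div_le_iff₀ hQ] at h2 h3
  have h7 : Real.exp (4 * ∑ p ∈ P, Vr ν p) / 4 ^ m * ((∏ p ∈ P, (p : ℝ)) * (2 * m).factorial) =
      (2 * m).factorial / 4 ^ m * (Real.exp (4 * ∑ p ∈ P, Vr ν p) * ∏ p ∈ P, (p : ℝ)) := by
    field_simp
  rw [h7]
  apply mul_le_mul_of_nonneg_left _ (by positivity)
  linarith

lemma prod_diff (P : Finset ℕ) (a b : ℕ → ℂ) (ha : ∀ p ∈ P, ‖a p‖ ≤ 1) (hb : ∀ p ∈ P, ‖b p‖ ≤ 1) :
    ‖∏ p ∈ P, a p - ∏ p ∈ P, b p‖ ≤ ∑ p ∈ P, ‖a p - b p‖ := by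
  classical
  induction P using Finset.induction_on with
  | empty => simp
  | insert p S hp ih =>
    rw [prod_insert hp, prod_insert hp, sum_insert hp]
    have h1 := ih (fun r hr => ha r (mem_insert_of_mem hr)) (fun r hr => hb r (mem_insert_of_mem hr))
    have h2 : a p * ∏ r ∈ S, a r - b p * ∏ r ∈ S, b r =
        (a p - b p) * ∏ r ∈ S, a r + b p * (∏ r ∈ S, a r - ∏ r ∈ S, b r) := by ring
    rw [h2]
    refine (norm_add_le _ _).trans ?_
    rw [norm_mul, norm_mul]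
    have h3 : ‖∏ r ∈ S, a r‖ ≤ 1 := by
      rw [norm_prod]
      exact prod_le_one (fun _ _ => norm_nonneg _) (fun r hr => ha r (mem_insert_of_mem hr))
    have h4 := hb p (mem_insert_self _ _)
    have h5 := norm_nonneg (a p - b p)
    have h6 := norm_nonneg (∏ r ∈ S, a r - ∏ r ∈ S, b r)
    nlinarith

lemma cis_mean (h : Sys P ν M) (hM0 : 0 ≤ M) (hM : M ≤ 1 / 2) :
    ‖(∑ n ∈ range (∏ p ∈ P, p), Complex.exp (TT P ν n * Complex.I)) / (∏ p ∈ P, p : ℕ) -
      (Real.exp (-(∑ p ∈ P, Vr ν p) / 2) : ℂ)‖ ≤ M * ∑ p ∈ P, Vr ν p := by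
  have h1 : ∀ n ∈ range (∏ p ∈ P, p), Complex.exp (TT P ν n * Complex.I) =
      ∏ p ∈ P, Complex.exp (ν p n * Complex.I) := by
    intro n _
    rw [← Complex.exp_sum]
    unfold TT
    push_cast
    rw [sum_mul]
  rw [sum_congr rfl h1, sum_prod_per (φ := fun p n => Complex.exp (ν p n * Complex.I)) h.pr
    (fun p hp x => by rw [h.per p hp])]
  have h2 : (Real.exp (-(∑ p ∈ P, Vr ν p) / 2) : ℂ) = ∏ p ∈ P, (Real.exp (-Vr ν p / 2) : ℂ) := by
    rw [← Complex.ofReal_prod, ← Real.exp_sum]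
    congr 2
    rw [← sum_div, sum_neg_distrib]
  rw [h2]
  push_cast
  rw [← prod_div_distrib, mul_sum]
  refine (prod_diff P _ _ ?_ ?_).trans ?_
  · intro p hp
    have hp0 : (0 : ℝ) < p := by exact_mod_cast (h.pr p hp).pos
    rw [norm_div, Complex.norm_natCast, div_le_one hp0]
    refine (norm_sum_le _ _).trans ?_
    simp only [Complex.norm_exp_ofReal_mul_I]
    simp
  · intro p _
    rw [← Complex.ofReal_neg, show ((2 : ℂ)) = ((2 : ℝ) : ℂ) by norm_num, ← Complex.ofReal_div,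
      ← Complex.ofReal_exp, Complex.norm_real, Real.norm_eq_abs, abs_of_pos (Real.exp_pos _)]
    apply Real.exp_le_one_iff.2
    have := Vr_nonneg (ν := ν) p
    linarith
  · apply sum_le_sum
    intro p hp
    have hp0 : (0 : ℝ) < p := by exact_mod_cast (h.pr p hp).pos
    have hpc : (p : ℂ) ≠ 0 := by exact_mod_cast hp0.ne'
    have hV0 := Vr_nonneg (ν := ν) p
    have hV := Vr_le h hp
    have e1 : ‖(∑ r ∈ range p, Complex.exp (ν p r * Complex.I)) / (p : ℂ) - (1 - Vr ν p / 2 : ℝ)‖ ≤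
        M * Vr ν p / 6 := by
      have e2 : (∑ r ∈ range p, Complex.exp (ν p r * Complex.I)) / (p : ℂ) - (1 - Vr ν p / 2 : ℝ) =
          (∑ r ∈ range p, (Complex.exp (ν p r * Complex.I) -
            ∑ k ∈ range 3, (ν p r * Complex.I) ^ k / (k.factorial : ℂ))) / p := by
        have e3 : ∀ r ∈ range p, (Complex.exp (ν p r * Complex.I) -
            ∑ k ∈ range 3, (ν p r * Complex.I) ^ k / (k.factorial : ℂ)) =
            Complex.exp (ν p r * Complex.I) - 1 - (ν p r : ℂ) * Complex.I + (1 / 2) * ((ν p r : ℂ)) ^ 2 := by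
          intro r _
          simp only [sum_range_succ, range_zero, sum_empty, Nat.factorial]
          have := Complex.I_sq
          push_cast
          rw [mul_pow (ν p r : ℂ) Complex.I 2, this]
          ring
        rw [sum_congr rfl e3, sum_add_distrib, sum_sub_distrib, sum_sub_distrib, ← mul_sum, ← sum_mul,
          ← Complex.ofReal_sum, h.zero p hp]
        unfold Vr
        push_cast
        rw [sum_const, card_range]
        simp only [nsmul_eq_mul, mul_one, zero_mul, sub_zero]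
        generalize ∑ x ∈ range p, Complex.exp ((ν p x : ℂ) * Complex.I) = Z
        field_simp
        ring
      rw [e2, norm_div, Complex.norm_natCast, div_le_iff₀ hp0]
      refine (norm_sum_le _ _).trans ?_
      have e4 : ∀ r ∈ range p, ‖Complex.exp (ν p r * Complex.I) -
            ∑ k ∈ range 3, (ν p r * Complex.I) ^ k / (k.factorial : ℂ)‖ ≤ M / 6 * ν p r ^ 2 := by
        intro r _
        refine (cis_taylor 3 (ν p r)).trans ?_
        have e5 := h.bd p hp r
        have e6 : |ν p r| ^ 3 = |ν p r| * ν p r ^ 2 := by rw [pow_succ', sq_abs]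
        rw [e6]
        simp only [Nat.factorial]
        push_cast
        have e7 := sq_nonneg (ν p r)
        have e8 := mul_le_mul_of_nonneg_right e5 e7
        linarith
      refine (sum_le_sum e4).trans (le_of_eq ?_)
      rw [← mul_sum]
      unfold Vr
      field_simp
    have e2 : ‖((1 - Vr ν p / 2 : ℝ) : ℂ) - Complex.exp (-(Vr ν p : ℂ) / 2)‖ ≤ M * Vr ν p / 4 := by
      have e3 : Complex.exp (-(Vr ν p : ℂ) / 2) = (Real.exp (-Vr ν p / 2) : ℂ) := by
        push_cast; rfl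
      rw [e3, ← Complex.ofReal_sub, Complex.norm_real, Real.norm_eq_abs]
      have e4 : |(-Vr ν p / 2)| ≤ 1 := by
        rw [abs_le]
        constructor <;> nlinarith
      have e5 := Real.abs_exp_sub_one_sub_id_le e4
      have e6 : 1 - Vr ν p / 2 - Real.exp (-Vr ν p / 2) = -(Real.exp (-Vr ν p / 2) - 1 - (-Vr ν p / 2)) := by
        ring
      rw [e6, abs_neg]
      refine e5.trans ?_
      have e7 : Vr ν p ≤ M := hV.trans (by nlinarith)
      nlinarith
    calc _ = ‖((∑ r ∈ range p, Complex.exp (ν p r * Complex.I)) / (p : ℂ) - (1 - Vr ν p / 2 : ℝ)) +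
          (((1 - Vr ν p / 2 : ℝ) : ℂ) - Complex.exp (-(Vr ν p : ℂ) / 2))‖ := by congr 1; ring
      _ ≤ _ := norm_add_le _ _
      _ ≤ M * Vr ν p / 6 + M * Vr ν p / 4 := add_le_add e1 e2
      _ ≤ _ := by nlinarith [mul_nonneg hM0 hV0]

lemma pow_avg (h : Sys P ν M) (hM : M ≤ 1) {z : ℕ} (hz : ∀ p ∈ P, p ≤ z) (k X : ℕ) :
    |∑ n ∈ range X, TT P ν n ^ k -
      X * ((∑ n ∈ range (∏ p ∈ P, p), TT P ν n ^ k) / (∏ p ∈ P, p : ℕ))| ≤ 2 * (z : ℝ) ^ (2 * k) := by
  classical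
  have h1 : ∀ n, TT P ν n ^ k = ∑ t ∈ Fintype.piFinset (fun _ : Fin k => P), ∏ i, ν (t i) n := by
    intro n
    unfold TT
    rw [Finset.sum_pow']
  simp only [h1]
  rw [sum_comm, sum_comm (s := range (∏ p ∈ P, p)), sum_div, mul_sum, ← sum_sub_distrib]
  have h2 : ∀ t ∈ Fintype.piFinset (fun _ : Fin k => P),
      |∑ n ∈ range X, ∏ i, ν (t i) n - X * ((∑ n ∈ range (∏ p ∈ P, p), ∏ i, ν (t i) n) /
        (∏ p ∈ P, p : ℕ))| ≤ 2 * (z : ℝ) ^ k := by
    intro t ht
    rw [Fintype.mem_piFinset] at ht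
    have hD : 1 ≤ ∏ i, t i := Nat.succ_le_of_lt (prod_pos fun i _ => (h.pr _ (ht i)).pos)
    have hper : ∀ x, ∏ i, ν (t i) (x + ∏ i, t i) = ∏ i, ν (t i) x := by
      intro x
      apply prod_congr rfl
      intro i hi
      obtain ⟨c, hc⟩ := dvd_prod_of_mem t hi
      rw [hc]
      exact per_mul (h.per _ (ht i)) x c
    have hperQ : ∀ x, ∏ i, ν (t i) (x + ∏ p ∈ P, p) = ∏ i, ν (t i) x := by
      intro x
      apply prod_congr rfl
      intro i hi
      obtain ⟨c, hc⟩ := dvd_prod_of_mem (fun p => p) (ht i)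
      rw [hc]
      exact per_mul (h.per _ (ht i)) x c
    rw [← mean_eq (F := fun n => ∏ i, ν (t i) n) hD (QQ_pos h) hper hperQ]
    have hb : ∀ x, |∏ i, ν (t i) x| ≤ 1 := by
      intro x
      rw [abs_prod]
      exact prod_le_one (fun _ _ => abs_nonneg _) (fun i _ => (h.bd _ (ht i) x).trans hM)
    refine (per_avg (F := fun n => ∏ i, ν (t i) n) hD hper hb X).trans ?_
    have : ((∏ i, t i : ℕ) : ℝ) ≤ (z : ℝ) ^ k := by
      push_cast
      calc ∏ i, (t i : ℝ) ≤ ∏ _i : Fin k, (z : ℝ) :=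
            prod_le_prod (fun _ _ => Nat.cast_nonneg _) (fun i _ => by exact_mod_cast hz _ (ht i))
        _ = _ := by simp
    linarith
  refine (abs_sum_le_sum_abs _ _).trans ((sum_le_sum h2).trans ?_)
  rw [sum_const, Fintype.card_piFinset, nsmul_eq_mul]
  simp only [prod_const, card_univ, Fintype.card_fin]
  have h3 : P.card ≤ z := by
    have : P ⊆ Icc 1 z := fun p hp => mem_Icc.2 ⟨(h.pr p hp).pos, hz p hp⟩
    simpa using card_le_card this
  have h4 : ((P.card ^ k : ℕ) : ℝ) ≤ (z : ℝ) ^ k := by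
    exact_mod_cast Nat.pow_le_pow_left h3 k
  calc ((P.card ^ k : ℕ) : ℝ) * (2 * (z : ℝ) ^ k) ≤ (z : ℝ) ^ k * (2 * (z : ℝ) ^ k) :=
        mul_le_mul_of_nonneg_right h4 (by positivity)
    _ = _ := by ring

/-- **the key estimate** -/
theorem key (h : Sys P ν M) (hM0 : 0 ≤ M) (hM : M ≤ 1 / 2) {z : ℕ} (hz1 : 1 ≤ z) (hz : ∀ p ∈ P, p ≤ z)
    (m X : ℕ) (hX : 1 ≤ X) :
    ‖(∑ n ∈ range X, Complex.exp (TT P ν n * Complex.I)) / X -
      (Real.exp (-(∑ p ∈ P, Vr ν p) / 2) : ℂ)‖ ≤ M * ∑ p ∈ P, Vr ν p +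
      2 * Real.exp (4 * ∑ p ∈ P, Vr ν p) / 4 ^ m + (4 * m + 2) * (z : ℝ) ^ (4 * m) / X := by
  have hX0 : (0 : ℝ) < X := by exact_mod_cast hX
  have hXc : (X : ℂ) ≠ 0 := by exact_mod_cast hX0.ne'
  set Q := ∏ p ∈ P, p with hQdef
  have hQ0 : (0 : ℝ) < (Q : ℕ) := by exact_mod_cast QQ_pos h
  have hz1' : (1 : ℝ) ≤ z := by exact_mod_cast hz1
  -- averages
  set A : ℕ → ℕ → ℝ := fun Y k => (∑ n ∈ range Y, TT P ν n ^ k) / Y with hA
  set R : ℝ → ℂ := fun y => Complex.exp (y * Complex.I) -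
    ∑ k ∈ range (2 * m), (y * Complex.I) ^ k / (k.factorial : ℂ) with hR
  have hRb : ∀ y, ‖R y‖ ≤ y ^ (2 * m) / (2 * m).factorial := by
    intro y
    have := cis_taylor (2 * m) y
    rwa [pow_mul, sq_abs, ← pow_mul] at this
  have hpow : ∀ k, k ≤ 2 * m → |A X k - A Q k| ≤ 2 * (z : ℝ) ^ (4 * m) / X := by
    intro k hk
    have h1 := pow_avg h (by linarith) hz k X
    have h2 : A X k - A Q k = (∑ n ∈ range X, TT P ν n ^ k -
      X * ((∑ n ∈ range Q, TT P ν n ^ k) / (Q : ℕ))) / X := by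
      simp only [hA]
      field_simp
    rw [h2, abs_div, Nat.abs_cast]
    apply div_le_div_of_nonneg_right _ hX0.le
    refine h1.trans ?_
    have : (z : ℝ) ^ (2 * k) ≤ (z : ℝ) ^ (4 * m) := pow_le_pow_right₀ hz1' (by omega)
    linarith
  have hexp : ∀ Y : ℕ, 0 < Y → (∑ n ∈ range Y, Complex.exp (TT P ν n * Complex.I)) / Y =
      ∑ k ∈ range (2 * m), Complex.I ^ k / (k.factorial : ℂ) * (A Y k : ℂ) +
        (∑ n ∈ range Y, R (TT P ν n)) / Y := by
    intro Y hY
    have hYc : (Y : ℂ) ≠ 0 := by exact_mod_cast hY.ne'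
    have h1 : ∀ n ∈ range Y, Complex.exp (TT P ν n * Complex.I) =
        ∑ k ∈ range (2 * m), Complex.I ^ k / (k.factorial : ℂ) * ((TT P ν n : ℝ) : ℂ) ^ k +
          R (TT P ν n) := by
      intro n _
      simp only [hR]
      rw [← add_sub_assoc, add_comm, add_sub_assoc]
      have : ∑ k ∈ range (2 * m), Complex.I ^ k / (k.factorial : ℂ) * ((TT P ν n : ℝ) : ℂ) ^ k =
          ∑ k ∈ range (2 * m), ((TT P ν n : ℝ) * Complex.I) ^ k / (k.factorial : ℂ) := by
        apply sum_congr rfl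
        intro k _
        rw [mul_pow]; ring
      rw [this]; ring
    rw [sum_congr rfl h1, sum_add_distrib, add_div, sum_comm, sum_div]
    congr 1
    apply sum_congr rfl
    intro k _
    rw [← mul_sum]
    simp only [hA]
    push_cast
    ring
  have hrem : ∀ Y : ℕ, 0 < Y → ‖(∑ n ∈ range Y, R (TT P ν n)) / Y‖ ≤ A Y (2 * m) / (2 * m).factorial := by
    intro Y hY
    have hY0 : (0 : ℝ) < Y := by exact_mod_cast hY
    rw [norm_div, Complex.norm_natCast]
    simp only [hA]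
    rw [div_right_comm]
    apply div_le_div_of_nonneg_right _ hY0.le
    refine (norm_sum_le _ _).trans ((sum_le_sum fun n _ => hRb _).trans (le_of_eq ?_))
    rw [sum_div]
  have hm := pow_mean h hM m
  have hc := cis_mean h hM0 hM
  have hAQ : A Q (2 * m) / (2 * m).factorial ≤ Real.exp (4 * ∑ p ∈ P, Vr ν p) / 4 ^ m := hm
  have hfac : (1 : ℝ) ≤ (2 * m).factorial := by exact_mod_cast Nat.succ_le_of_lt (Nat.factorial_pos _)
  have hAX : A X (2 * m) / (2 * m).factorial ≤ Real.exp (4 * ∑ p ∈ P, Vr ν p) / 4 ^ m +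
      2 * (z : ℝ) ^ (4 * m) / X := by
    have h1 := (abs_le.1 (hpow (2 * m) le_rfl)).2
    have h2 : A X (2 * m) / (2 * m).factorial ≤ A Q (2 * m) / (2 * m).factorial +
        (2 * (z : ℝ) ^ (4 * m) / X) / (2 * m).factorial := by
      rw [← add_div]
      exact div_le_div_of_nonneg_right (by linarith) (by positivity)
    have h3 : (2 * (z : ℝ) ^ (4 * m) / X) / (2 * m).factorial ≤ 2 * (z : ℝ) ^ (4 * m) / X :=
      div_le_self (by positivity) hfac
    linarith
  have hdiff : ‖(∑ n ∈ range X, Complex.exp (TT P ν n * Complex.I)) / X -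
      (∑ n ∈ range Q, Complex.exp (TT P ν n * Complex.I)) / Q‖ ≤
      2 * m * (2 * (z : ℝ) ^ (4 * m) / X) + (Real.exp (4 * ∑ p ∈ P, Vr ν p) / 4 ^ m +
      2 * (z : ℝ) ^ (4 * m) / X) + Real.exp (4 * ∑ p ∈ P, Vr ν p) / 4 ^ m := by
    rw [hexp X hX, hexp Q (QQ_pos h)]
    have e1 : ∀ a b c d : ℂ, (a + b) - (c + d) = (a - c) + b - d := by intros; ring
    rw [e1]
    refine (norm_sub_le _ _).trans (add_le_add ((norm_add_le _ _).trans (add_le_add ?_ ?_)) ?_)
    · rw [← sum_sub_distrib]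
      refine (norm_sum_le _ _).trans ?_
      have e2 : ∀ k ∈ range (2 * m), ‖Complex.I ^ k / (k.factorial : ℂ) * (A X k : ℂ) -
          Complex.I ^ k / (k.factorial : ℂ) * (A Q k : ℂ)‖ ≤ 2 * (z : ℝ) ^ (4 * m) / X := by
        intro k hk
        rw [mem_range] at hk
        rw [← mul_sub, norm_mul, norm_div, norm_pow, Complex.norm_I, one_pow, Complex.norm_natCast,
          ← Complex.ofReal_sub, Complex.norm_real, Real.norm_eq_abs]
        have e3 : (1 : ℝ) ≤ k.factorial := by exact_mod_cast Nat.succ_le_of_lt (Nat.factorial_pos _)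
        have e4 : (1 : ℝ) / k.factorial ≤ 1 := by
          rw [div_le_one (by positivity)]; exact e3
        have e5 := hpow k hk.le
        calc _ ≤ 1 * |A X k - A Q k| := mul_le_mul_of_nonneg_right e4 (abs_nonneg _)
          _ ≤ _ := by rw [one_mul]; exact e5
      refine (sum_le_sum e2).trans (le_of_eq ?_)
      rw [sum_const, card_range, nsmul_eq_mul]
      push_cast; ring
    · exact (hrem X hX).trans hAX
    · exact (hrem Q (QQ_pos h)).trans hAQ
  calc _ = ‖((∑ n ∈ range X, Complex.exp (TT P ν n * Complex.I)) / X -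
      (∑ n ∈ range Q, Complex.exp (TT P ν n * Complex.I)) / Q) +
      ((∑ n ∈ range Q, Complex.exp (TT P ν n * Complex.I)) / Q -
      (Real.exp (-(∑ p ∈ P, Vr ν p) / 2) : ℂ))‖ := by congr 1; ring
    _ ≤ _ := norm_add_le _ _
    _ ≤ _ := add_le_add hdiff hc
    _ = _ := by ring

end Pool.Agent.H998_EK
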