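import Pool.Agent.H998_EK.Both

/-!
Library H998_EK (helper998): the law of the windows along almost all trajectories.
-/

set_option autoImplicit false
set_option linter.unusedSectionVars false

namespace Pool.Agent.H998_EK

open Finset Filter Topology
open Pool.Agent.H499R2.CO (Tz)
open Pool.Agent.R344.SP

variable {f α β : ℕ → ℝ}

open scoped Classical in
/-- the set of the bad integers has small density -/
lemma dens_bad {T : ℤ → ℤ} (hT : ∀ x, T x = if x % 2 = 0 then x / 2 else (3 * x + 1) / 2)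
    (hf : AddF f) (hB : Tendsto (Bq f) atTop atTop) (hn : Nrm f α β) {U : List ℝ} (hU : U ≠ [])
    (m : ℕ) {θ ε₁ : ℝ} (hθ : 0 < θ) (hε₁ : 0 < ε₁) : ∃ H : ℕ, 1 ≤ H ∧ ∃ X₀ : ℕ, ∀ X : ℕ, X₀ ≤ X →
      (Set.ncard {x : ℤ | |x| ≤ X ∧ x ∈ {x : ℤ | θ < |(∑ h ∈ range H,
        WZ f α β T U (x + (3 ^ m * (2 ^ (U.length - 1) : ℕ)) * h)) / H - VZ T U x|}} : ℝ) ≤ ε₁ * X := by
  set J := U.length - 1 with hJ
  have hK : 1 ≤ 3 ^ m := Nat.one_le_pow _ _ (by norm_num)
  set η := ε₁ * θ / 8 with hη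
  have hη0 : 0 < η := by positivity
  obtain ⟨H₁, hH₁⟩ := loc_avg hf hB hn (c := 2) (sg := 1) (by norm_num) (by norm_num) hU hK hη0
  obtain ⟨H₂, hH₂⟩ := loc_avg hf hB hn (c := 1) (sg := -1) (by norm_num) (by norm_num) hU hK hη0
  obtain ⟨H, hH⟩ : ∃ H, H = max H₁ H₂ := ⟨_, rfl⟩
  obtain ⟨X₁, hH1, hX₁⟩ := hH₁ H (by omega)
  obtain ⟨X₂, _, hX₂⟩ := hH₂ H (by omega)
  set q := 2 ^ J * 3 ^ m with hq
  obtain ⟨X₃, hX₃⟩ := exists_nat_gt ((4 * (q * H : ℕ) : ℝ) / ε₁)
  refine ⟨H, hH1, X₁ + X₂ + X₃ + 1, fun X hX => ?_⟩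
  have hX0 : (0 : ℝ) < X := by exact_mod_cast (by omega : 0 < X)
  have hX1 : (1 : ℝ) ≤ X := by exact_mod_cast (by omega : 1 ≤ X)
  -- the two sets
  set A : ℕ → Finset ℕ := fun c => (range (X + 1)).filter (fun n =>
    θ < |(∑ h ∈ range H, Wn f α β c U (n + 2 ^ J * 3 ^ m * h)) / H - Vb c U n|) with hA
  have hAc : ∀ c, (∑ x ∈ range (X + 1), |(∑ h ∈ range H, Wn f α β c U (x + 2 ^ J * 3 ^ m * h)) / H -
      Vb c U x| ≤ η * (X + 1 : ℕ)) → ((A c).card : ℝ) ≤ ε₁ * X / 4 := by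
    intro c hc
    have h3 : ((A c).card : ℝ) * θ ≤ η * (X + 1 : ℕ) := by
      rw [← nsmul_eq_mul, ← sum_const]
      refine le_trans (sum_le_sum (g := fun x => |(∑ h ∈ range H, Wn f α β c U (x + 2 ^ J * 3 ^ m * h)) / H -
        Vb c U x|) fun x hx => ?_)
        ((sum_le_sum_of_subset_of_nonneg (filter_subset _ _) fun _ _ _ => abs_nonneg _).trans hc)
      rw [mem_filter] at hx
      exact hx.2.le
    have h4 : ((A c).card : ℝ) * θ ≤ (ε₁ * X / 4) * θ := by
      refine h3.trans ?_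
      rw [hη]
      push_cast
      have : ε₁ * θ * (X + 1) ≤ ε₁ * θ * (2 * X) := mul_le_mul_of_nonneg_left (by linarith) (by positivity)
      linarith
    exact le_of_mul_le_mul_right h4 hθ
  have hA2 := hAc 2 (by have := hX₁ (X + 1) (by omega); exact_mod_cast this)
  have hA1 := hAc 1 (by have := hX₂ (X + 1) (by omega); exact_mod_cast this)
  have hqH : ((q * H : ℕ) : ℝ) ≤ ε₁ * X / 4 := by
    have : (4 * (q * H : ℕ) : ℝ) / ε₁ < X := hX₃.trans_le (by exact_mod_cast (by omega : X₃ ≤ X))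
    rw [div_lt_iff₀ hε₁] at this
    linarith
  have hsub : {x : ℤ | |x| ≤ X ∧ x ∈ {x : ℤ | θ < |(∑ h ∈ range H,
        WZ f α β T U (x + (3 ^ m * (2 ^ J : ℕ)) * h)) / H - VZ T U x|}} ⊆
      (((A 2).image (fun n : ℕ => (n : ℤ)) ∪ (A 1).image (fun n : ℕ => -((n : ℤ) + q * (H - 1 : ℕ)))) ∪
        (range (q * H)).image (fun n : ℕ => -(n : ℤ)) : Finset ℤ) := by
    rintro x ⟨hx1, hx2⟩
    rw [Set.mem_ofPred_eq] at hx2
    rw [mem_coe, mem_union, mem_union, mem_image, mem_image, mem_image]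
    rw [abs_le] at hx1
    rcases le_or_gt 0 x with h0 | h0
    · left; left
      obtain ⟨n, rfl⟩ := Int.eq_ofNat_of_zero_le h0
      refine ⟨n, ?_, rfl⟩
      rw [hA, mem_filter, mem_range]
      refine ⟨by omega, ?_⟩
      have e1 : ∀ h ∈ range H, WZ f α β T U ((n : ℤ) + (3 ^ m * (2 ^ J : ℕ)) * h) =
          Wn f α β 2 U (n + 2 ^ J * 3 ^ m * h) := by
        intro h _
        have := WZ_eq (f := f) (α := α) (β := β) hT (Or.inl ⟨rfl, rfl⟩) U (n + 2 ^ J * 3 ^ m * h)
        rw [← this, one_mul]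
        congr 1
        push_cast
        ring
      rw [sum_congr rfl e1] at hx2
      have e2 : VZ T U (n : ℤ) = Vb 2 U n := by
        have := VZ_eq hT (Or.inl ⟨rfl, rfl⟩) U n
        rwa [one_mul] at this
      rw [e2] at hx2
      exact hx2
    · obtain ⟨n, rfl⟩ : ∃ n : ℕ, x = -(n : ℤ) := ⟨x.natAbs, by omega⟩
      rcases Nat.lt_or_ge n (q * H) with h1 | h1
      · right
        exact ⟨n, mem_range.2 h1, rfl⟩
      · left; right
        have h2 : q * (H - 1) ≤ n := (Nat.mul_le_mul_left q (Nat.sub_le H 1)).trans h1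
        refine ⟨n - q * (H - 1), ?_, by push_cast [Nat.cast_sub h2]; ring⟩
        rw [hA, mem_filter, mem_range]
        refine ⟨by omega, ?_⟩
        obtain ⟨n', hn'⟩ : ∃ n', n = n' + q * (H - 1) := ⟨n - q * (H - 1), by omega⟩
        have e0 : n - q * (H - 1) = n' := by omega
        rw [e0]
        have e1 : ∑ h ∈ range H, WZ f α β T U (-(n : ℤ) + (3 ^ m * (2 ^ J : ℕ)) * h) =
            ∑ h ∈ range H, Wn f α β 1 U (n' + 2 ^ J * 3 ^ m * h) := by
          rw [← sum_range_reflect (fun h => Wn f α β 1 U (n' + 2 ^ J * 3 ^ m * h))]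
          apply sum_congr rfl
          intro h hh
          rw [mem_range] at hh
          have := WZ_eq (f := f) (α := α) (β := β) hT (Or.inr ⟨rfl, rfl⟩) U
            (n' + 2 ^ J * 3 ^ m * (H - 1 - h))
          rw [← this]
          congr 1
          rw [hn', hq]
          have h3 : ((H - 1 - h : ℕ) : ℤ) = ((H - 1 : ℕ) : ℤ) - h := by
            rw [Nat.cast_sub (by omega)]
          push_cast [h3]
          ring
        have e2 : VZ T U (-(n : ℤ)) = Vb 1 U n' := by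
          have h3 := VZ_eq hT (Or.inr ⟨rfl, rfl⟩) U n
          rw [neg_one_mul] at h3
          rw [h3, hn', hq, mul_assoc]
          exact Vb_per 1 U n' _
        rw [e1, e2] at hx2
        exact hx2
  have hcard := Set.ncard_le_ncard hsub (Finset.finite_toSet _)
  rw [Set.ncard_coe_finset] at hcard
  have hc2 : (((A 2).image (fun n : ℕ => (n : ℤ)) ∪ (A 1).image (fun n : ℕ => -((n : ℤ) + q * (H - 1 : ℕ)))) ∪
        (range (q * H)).image (fun n : ℕ => -(n : ℤ)) : Finset ℤ).card ≤ (A 2).card + (A 1).card + q * H := by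
    refine (card_union_le _ _).trans (Nat.add_le_add ((card_union_le _ _).trans
      (Nat.add_le_add card_image_le card_image_le)) ?_)
    refine card_image_le.trans ?_
    rw [card_range]
  have hc3 := hcard.trans hc2
  have hc4 : ((Set.ncard {x : ℤ | |x| ≤ X ∧ x ∈ {x : ℤ | θ < |(∑ h ∈ range H,
        WZ f α β T U (x + (3 ^ m * (2 ^ J : ℕ)) * h)) / H - VZ T U x|}} : ℕ) : ℝ) ≤
      (A 2).card + (A 1).card + (q * H : ℕ) := by exact_mod_cast hc3
  refine hc4.trans ?_
  have : 0 ≤ ε₁ * X := by positivity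
  linarith

/-- **the law of the windows** -/
theorem window_law {T : ℤ → ℤ} (hT : ∀ x, T x = if x % 2 = 0 then x / 2 else (3 * x + 1) / 2)
    (hf : AddF f) (hB : Tendsto (Bq f) atTop atTop) (hn : Nrm f α β) {U : List ℝ} (hU : U ≠ [])
    {κ : ℝ} (hκ : κ < 2 / Real.log (4 / 3)) {c : ℝ} (hc : 0 < c) :
    Ap T (WZ f α β T U) κ (Vl U) c := by
  classical
  obtain ⟨m, hm⟩ := sampling_gen hT hκ (ε := c / 4) (by positivity)
  obtain ⟨ε₁, hε₁, hsets⟩ := sets_both hT hκ (ε := c / 16) (by positivity)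
  set θ : ℝ := c / 128 with hθ
  have hθ0 : 0 < θ := by rw [hθ]; positivity
  obtain ⟨H, hH1, X₀, hX₀⟩ := dens_bad hT hf hB hn hU m hθ0 hε₁
  have hBs := hsets _ X₀ (fun X hX => hX₀ X (by exact_mod_cast hX))
  have hsamp := hm (2 ^ (U.length - 1)) H hH1
  have hlaw := law_prime hT hκ (F := VZ T U) (fun x => by
    have := VZ_01 T U x
    rw [abs_of_nonneg this.1]; exact this.2) (H := 2 ^ (U.length - 1)) Nat.one_le_two_pow
    (Nat.Coprime.pow_right _ (by norm_num)) (VZ_per hT U) (c := c / 4) (by positivity)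
  rw [VZ_mean hT U] at hlaw
  set B : Set ℤ := {x : ℤ | θ < |(∑ h ∈ range H,
        WZ f α β T U (x + (3 ^ m * (2 ^ (U.length - 1) : ℕ)) * h)) / H - VZ T U x|} with hBdef
  have hU1 := Few.union hlaw hBs (B'' := fun (w : Wt) n =>
    (∃ t : ℕ, (t : ℝ) ≤ κ * Real.log |(n : ℝ)| ∧ c / 4 * Real.log |(n : ℝ)| <
      |∑ k ∈ range t, w.1 k * (VZ T U (T^[k] n) - Vl U)|) ∨
    (∃ t : ℕ, (t : ℝ) ≤ κ * Real.log |(n : ℝ)| ∧ c / 16 * Real.log |(n : ℝ)| <
      (Set.ncard {k : ℕ | k < t ∧ T^[k] n ∈ B} : ℝ))) id (fun _ => ()) (fun w n _ h => h)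
  have hgw : ∀ (w : Wt) (k : ℕ) (x : ℤ), |w.1 k * WZ f α β T U x| ≤ 1 := by
    intro w k x
    rw [abs_mul]
    have := WZ_01 (f := f) (α := α) (β := β) T U x
    exact mul_le_one₀ (w.2 k) (abs_nonneg _) (by rw [abs_of_nonneg this.1]; exact this.2)
  have hU2 := Few.union hU1 hsamp (B'' := fun (w : Wt) n => ∃ t : ℕ, (t : ℝ) ≤ κ * Real.log |(n : ℝ)| ∧
    c * Real.log |(n : ℝ)| < |∑ k ∈ range t, w.1 k * (WZ f α β T U (T^[k] n) - Vl U)|) id
    (fun w => ⟨fun k x => w.1 k * WZ f α β T U x, hgw w⟩) ?_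
  · exact Few.mono hU2 (by linarith) id (fun _ _ _ hb => hb)
  · rintro w n hn0 ⟨t, ht, hb⟩
    by_contra hcon
    rw [not_or, not_or] at hcon
    obtain ⟨⟨b1, b2⟩, b3⟩ := hcon
    push Not at b1 b2 b3
    have c1 := b1 t ht
    have c2 := b2 t ht
    have c3 := b3 t ht
    simp only [id] at c1
    have hlog : 0 ≤ Real.log |(n : ℝ)| := by
      rw [Real.log_abs]
      have h1 : (1 : ℝ) ≤ |(n : ℝ)| := by
        rw [← Int.cast_abs]
        exact_mod_cast Int.one_le_abs hn0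
      rw [← Real.log_abs]
      exact Real.log_nonneg h1
    set av : ℤ → ℝ := fun x => (∑ h ∈ range H,
        WZ f α β T U (x + (3 ^ m * (2 ^ (U.length - 1) : ℕ)) * h)) / H with hav
    have e1 : ∑ k ∈ range t, w.1 k * (WZ f α β T U (T^[k] n) - Vl U)
        = ∑ k ∈ range t, (w.1 k * WZ f α β T U (T^[k] n) - (∑ h ∈ range H,
          w.1 k * WZ f α β T U (T^[k] n + (3 ^ m * (2 ^ (U.length - 1) : ℕ)) * h)) / H) +
          ∑ k ∈ range t, w.1 k * (av (T^[k] n) - VZ T U (T^[k] n)) +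
          ∑ k ∈ range t, w.1 k * (VZ T U (T^[k] n) - Vl U) := by
      rw [← sum_add_distrib, ← sum_add_distrib]
      apply sum_congr rfl
      intro k _
      rw [← mul_sum, hav]
      ring
    have hdiff : ∀ x, |av x - VZ T U x| ≤ 1 := by
      intro x
      have h1 := VZ_01 T U x
      have hH0 : (0 : ℝ) < H := by exact_mod_cast hH1
      have h2 : 0 ≤ av x := by
        rw [hav]
        exact div_nonneg (sum_nonneg fun h _ => (WZ_01 T U _).1) hH0.le
      have h3 : av x ≤ 1 := by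
        rw [hav]
        show (∑ h ∈ range H, WZ f α β T U (x + (3 ^ m * (2 ^ (U.length - 1) : ℕ)) * h)) / H ≤ 1
        rw [div_le_one hH0]
        refine (sum_le_sum fun h _ => (WZ_01 T U _).2).trans (le_of_eq ?_)
        simp
      rw [abs_le]
      constructor <;> linarith
    have e2 : |∑ k ∈ range t, w.1 k * (av (T^[k] n) - VZ T U (T^[k] n))| ≤
        t * θ + (Set.ncard {k : ℕ | k < t ∧ T^[k] n ∈ B} : ℝ) := by
      have h2 : {k : ℕ | k < t ∧ T^[k] n ∈ B} = ((range t).filter (fun k => T^[k] n ∈ B) : Finset ℕ) := by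
        ext x
        simp only [Set.mem_ofPred_eq, coe_filter, mem_range]
      rw [h2, Set.ncard_coe_finset]
      refine (abs_sum_le_sum_abs _ _).trans ?_
      calc ∑ k ∈ range t, |w.1 k * (av (T^[k] n) - VZ T U (T^[k] n))|
          ≤ ∑ k ∈ range t, (θ + (if T^[k] n ∈ B then 1 else 0)) := by
            apply sum_le_sum
            intro k _
            rw [abs_mul]
            have h3 : |w.1 k| * |av (T^[k] n) - VZ T U (T^[k] n)| ≤ |av (T^[k] n) - VZ T U (T^[k] n)| := by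
              calc _ ≤ 1 * |av (T^[k] n) - VZ T U (T^[k] n)| :=
                    mul_le_mul_of_nonneg_right (w.2 k) (abs_nonneg _)
                _ = _ := one_mul _
            refine h3.trans ?_
            by_cases hb : T^[k] n ∈ B
            · rw [if_pos hb]
              linarith [hdiff (T^[k] n)]
            · rw [if_neg hb, add_zero]
              rw [hBdef, Set.mem_ofPred_eq, not_lt] at hb
              exact hb
        _ = _ := by
            rw [sum_add_distrib, sum_const, card_range, nsmul_eq_mul, ← sum_filter, sum_const,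
              nsmul_eq_mul, mul_one]
    have hκ8 : κ ≤ 8 := Pool.Agent.R344.SP.kappa8 hκ
    have ht8 : (t : ℝ) ≤ 8 * Real.log |(n : ℝ)| := ht.trans (mul_le_mul_of_nonneg_right hκ8 hlog)
    have e3 : (t : ℝ) * θ ≤ c / 16 * Real.log |(n : ℝ)| := by
      rw [hθ]
      nlinarith
    rw [e1] at hb
    have hb2 := hb.trans_le ((abs_add_le _ _).trans (add_le_add (abs_add_le _ _) le_rfl))
    have hcl : 0 ≤ c * Real.log |(n : ℝ)| := by positivity
    have c3' : |∑ k ∈ range t, (w.1 k * WZ f α β T U (T^[k] n) - (∑ h ∈ range H,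
          w.1 k * WZ f α β T U (T^[k] n + (3 ^ m * (2 ^ (U.length - 1) : ℕ)) * h)) / H)| ≤
        c / 4 * Real.log |(n : ℝ)| := c3
    linarith

end Pool.Agent.H998_EK
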