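import Pool.Agent.H998_EK.Char

/-!
Library H998_EK (helper998): from characteristic functions to distribution functions.
-/

set_option autoImplicit false
set_option linter.unusedSectionVars false

namespace Pool.Agent.H998_EK

open Finset Filter Topology MeasureTheory ProbabilityTheory

/-- the standard normal distribution function -/
noncomputable def Phi (u : ℝ) : ℝ := (gaussianReal 0 1).real (Set.Iic u)

variable {ι : Type} [Fintype ι]

/-- the empirical measure -/
noncomputable def emp (v : ℕ → EuclideanSpace ℝ ι) (X : ℕ) : Measure (EuclideanSpace ℝ ι) :=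
  ((X + 1 : ℕ) : ENNReal)⁻¹ • ∑ n ∈ range (X + 1), Measure.dirac (v n)

instance (v : ℕ → EuclideanSpace ℝ ι) (X : ℕ) : IsProbabilityMeasure (emp v X) := by
  constructor
  unfold emp
  rw [Measure.smul_apply, Measure.finsetSum_apply]
  simp only [measure_univ, sum_const, card_range, nsmul_eq_mul, mul_one, smul_eq_mul]
  exact ENNReal.inv_mul_cancel (by simp) (by simp)

open scoped Classical in
lemma emp_real (v : ℕ → EuclideanSpace ℝ ι) (X : ℕ) {A : Set (EuclideanSpace ℝ ι)}
    (hA : MeasurableSet A) :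
    (emp v X).real A = (((range (X + 1)).filter (fun n => v n ∈ A)).card : ℝ) / (X + 1 : ℕ) := by
  unfold Measure.real emp
  rw [Measure.smul_apply, Measure.finsetSum_apply]
  have h1 : ∀ n ∈ range (X + 1), Measure.dirac (v n) A = if v n ∈ A then (1 : ENNReal) else 0 := by
    intro n _
    rw [Measure.dirac_apply' _ hA, Set.indicator_apply]
    rfl
  rw [sum_congr rfl h1, ← sum_filter, sum_const, nsmul_eq_mul, mul_one, smul_eq_mul,
    ENNReal.toReal_mul, ENNReal.toReal_inv, ENNReal.toReal_natCast, ENNReal.toReal_natCast]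
  rw [div_eq_mul_inv, mul_comm]

lemma emp_char (v : ℕ → EuclideanSpace ℝ ι) (X : ℕ) (t : EuclideanSpace ℝ ι) :
    charFun (emp v X) t = (∑ n ∈ range (X + 1), Complex.exp ((inner ℝ (v n) t : ℝ) * Complex.I)) /
      ((X + 1 : ℕ) : ℂ) := by
  rw [charFun_apply]
  unfold emp
  rw [integral_smul_measure, integral_finsetSum_measure]
  · simp only [integral_dirac]
    rw [ENNReal.toReal_inv, ENNReal.toReal_natCast, Complex.real_smul]
    push_cast
    rw [div_eq_mul_inv, mul_comm]
  · intro n _
    apply integrable_dirac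
    simp

lemma box_closed (u : ι → ℝ) : IsClosed {x : EuclideanSpace ℝ ι | ∀ i, x i ≤ u i} := by
  have : {x : EuclideanSpace ℝ ι | ∀ i, x i ≤ u i} = ⋂ i, {x : EuclideanSpace ℝ ι | x i ≤ u i} := by
    ext x; simp
  rw [this]
  apply isClosed_iInter
  intro i
  exact isClosed_le (by fun_prop) continuous_const

lemma pi_box (u : ι → ℝ) : (stdGaussian (EuclideanSpace ℝ ι)).real {x | ∀ i, x i ≤ u i} =
    ∏ i, Phi (u i) := by
  rw [← map_pi_eq_stdGaussian]
  unfold Measure.real
  rw [Measure.map_apply (by fun_prop) (box_closed u).measurableSet]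
  have : (WithLp.toLp 2 : (ι → ℝ) → EuclideanSpace ℝ ι) ⁻¹' {x | ∀ i, x i ≤ u i} =
      Set.pi Set.univ (fun i => Set.Iic (u i)) := by
    ext x; simp only [Set.mem_preimage, Set.mem_ofPred_eq, Set.mem_pi, Set.mem_univ, Set.mem_Iic, true_imp_iff]
  rw [this, Measure.pi_pi, ENNReal.toReal_prod]
  rfl

lemma frontier_null (u : ι → ℝ) :
    (stdGaussian (EuclideanSpace ℝ ι)) (frontier {x | ∀ i, x i ≤ u i}) = 0 := by
  have h1 : frontier {x : EuclideanSpace ℝ ι | ∀ i, x i ≤ u i} ⊆ ⋃ i, {x | x i = u i} := by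
    rw [(box_closed u).frontier_eq]
    intro x hx
    rw [Set.mem_sdiff] at hx
    by_contra hne
    apply hx.2
    rw [mem_interior]
    refine ⟨⋂ i, {x : EuclideanSpace ℝ ι | x i < u i}, ?_, ?_, ?_⟩
    · intro y hy i
      rw [Set.mem_iInter] at hy
      exact le_of_lt (hy i)
    · apply isOpen_iInter_of_finite
      intro i
      exact isOpen_lt (by fun_prop) continuous_const
    · rw [Set.mem_iInter]
      intro i
      rw [Set.mem_iUnion] at hne
      push Not at hne
      exact lt_of_le_of_ne (hx.1 i) (hne i)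
  apply measure_mono_null h1
  rw [measure_iUnion_null_iff]
  intro i
  rw [← map_pi_eq_stdGaussian, Measure.map_apply (by fun_prop)
    (measurableSet_eq_fun (by fun_prop) measurable_const)]
  have : (WithLp.toLp 2 : (ι → ℝ) → EuclideanSpace ℝ ι) ⁻¹' {x | x i = u i} =
      (Function.eval i : (ι → ℝ) → ℝ) ⁻¹' ({u i} : Set ℝ) := by
    ext x; simp
  rw [this]
  have : NullSingletonClass (gaussianReal 0 1) := nullSingletonClass_gaussianReal (by norm_num)
  exact Measure.pi_eval_preimage_null _ (by simp)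

open scoped Classical in
theorem levy_box (v : ℕ → ℕ → EuclideanSpace ℝ ι)
    (h : ∀ t : EuclideanSpace ℝ ι, Tendsto (fun X : ℕ => (∑ n ∈ range (X + 1),
      Complex.exp ((inner ℝ (v X n) t : ℝ) * Complex.I)) / ((X + 1 : ℕ) : ℂ)) atTop
      (𝓝 (Complex.exp (-‖t‖ ^ 2 / 2)))) (u : ι → ℝ) :
    Tendsto (fun X : ℕ => (((range (X + 1)).filter (fun n => ∀ i, v X n i ≤ u i)).card : ℝ) /
      (X + 1 : ℕ)) atTop (𝓝 (∏ i, Phi (u i))) := by
  set μ : ℕ → ProbabilityMeasure (EuclideanSpace ℝ ι) := fun X => ⟨emp (v X) X, inferInstance⟩ with hμ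
  set μ₀ : ProbabilityMeasure (EuclideanSpace ℝ ι) := ⟨stdGaussian _, inferInstance⟩ with hμ₀
  have h1 : Tendsto μ atTop (𝓝 μ₀) := by
    rw [ProbabilityMeasure.tendsto_iff_tendsto_charFun]
    intro t
    have h2 : charFun (μ₀ : Measure (EuclideanSpace ℝ ι)) t = Complex.exp (-‖t‖ ^ 2 / 2) :=
      charFun_stdGaussian t
    rw [h2]
    exact (h t).congr fun X => (emp_char (v X) X t).symm
  have h2 := ProbabilityMeasure.tendsto_measure_of_null_frontier_of_tendsto' h1
    (E := {x | ∀ i, x i ≤ u i}) (frontier_null u)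
  have h3 := (ENNReal.tendsto_toReal (measure_ne_top _ _)).comp h2
  have h4 : ((μ₀ : Measure (EuclideanSpace ℝ ι)) {x | ∀ i, x i ≤ u i}).toReal = ∏ i, Phi (u i) :=
    pi_box u
  rw [h4] at h3
  refine h3.congr fun X => ?_
  have h5 := emp_real (v X) X (box_closed u).measurableSet
  simp only [Set.mem_ofPred_eq] at h5
  exact h5

lemma Phi_cont : Continuous Phi := by
  have : NullSingletonClass (gaussianReal 0 1) := nullSingletonClass_gaussianReal (by norm_num)
  have h : Phi = fun u => cdf (gaussianReal 0 1) u := by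
    funext u
    rw [cdf_eq_real]
    rfl
  rw [h]
  rw [continuous_iff_continuousAt]
  intro x
  have hm : Monotone (cdf (gaussianReal 0 1)) := monotone_cdf _
  rw [hm.continuousAt_iff_leftLim_eq_rightLim, StieltjesFunction.rightLim_eq]
  have h1 := (cdf (gaussianReal 0 1)).measure_singleton x
  rw [measure_cdf, measure_singleton] at h1
  have h2 : (cdf (gaussianReal 0 1)) x - Function.leftLim (cdf (gaussianReal 0 1)) x ≤ 0 :=
    ENNReal.ofReal_eq_zero.1 h1.symm
  have h3 := hm.leftLim_le (le_refl x)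
  linarith

lemma Phi_mono : Monotone Phi := fun _ _ h => measureReal_mono (Set.Iic_subset_Iic.2 h)

lemma Phi_nonneg (u : ℝ) : 0 ≤ Phi u := measureReal_nonneg

lemma Phi_le_one (u : ℝ) : Phi u ≤ 1 := measureReal_le_one

open scoped Classical in
/-- the joint limit law of the values at several linear forms -/
theorem box_lim {f : ℕ → ℝ} (hf : AddF f) (hB : Tendsto (Bq f) atTop atTop) {a b : ι → ℕ}
    (ha : ∀ i, 1 ≤ a i) (hne : ∀ i j, i ≠ j → a i * b j ≠ a j * b i) (u : ι → ℝ) :
    Tendsto (fun X : ℕ => (((range X).filter (fun n => ∀ i, FF f X (a i * n + b i) ≤ u i)).card : ℝ) /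
      X) atTop (𝓝 (∏ i, Phi (u i))) := by
  rw [← tendsto_add_atTop_iff_nat 1]
  have := levy_box (fun X n => WithLp.toLp 2 (fun i => FF f (X + 1) (a i * n + b i))) (fun t => ?_) u
  · exact this
  have h1 := (tendsto_add_atTop_iff_nat 1).2 (char_lim hf hB (fun i => t i) ha hne)
  have h2 : (Real.exp (-(∑ i, t i ^ 2) / 2) : ℂ) = Complex.exp (-‖t‖ ^ 2 / 2) := by
    rw [← Complex.ofReal_pow, EuclideanSpace.real_norm_sq_eq]
    push_cast
    rfl
  rw [h2] at h1
  refine h1.congr fun X => ?_
  congr 1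

end Pool.Agent.H998_EK
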