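import Pool.Agent.H998_EK.Levy

/-!
Library H998_EK (helper998): each value is normalised with its own size.
-/

set_option autoImplicit false
set_option linter.unusedSectionVars false

namespace Pool.Agent.H998_EK

open Finset Filter Topology

/-- admissible normalising functions -/
structure Nrm (f α β : ℕ → ℝ) : Prop where
  al : Tendsto (fun N => (α N - Am f N) / Real.sqrt (Bq f N)) atTop (𝓝 0)
  be : Tendsto (fun N => β N / Real.sqrt (Bq f N)) atTop (𝓝 1)

lemma am_diff {C : ℝ} (hC : ∀ z X : ℕ, 3 ≤ z → X < (z + 1) ^ 2 →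
    ∑ p ∈ (Ioc z X).filter Nat.Prime, (1 : ℝ) / p ≤ C) {g : ℕ → ℝ} (hg : ∀ p : ℕ, p.Prime → |g p| ≤ 1)
    {N X : ℕ} (hN : 3 ≤ N) (hX : 3 ≤ X) (h1 : X < (N + 1) ^ 2) (h2 : N < (X + 1) ^ 2) :
    |∑ p ∈ (Icc 1 N).filter Nat.Prime, g p / p - ∑ p ∈ (Icc 1 X).filter Nat.Prime, g p / p| ≤ C := by
  have key : ∀ z Y : ℕ, 3 ≤ z → Y < (z + 1) ^ 2 → z ≤ Y →
      |∑ p ∈ (Icc 1 Y).filter Nat.Prime, g p / p - ∑ p ∈ (Icc 1 z).filter Nat.Prime, g p / p| ≤ C := by
    intro z Y hz hY hzY
    have h3 := left_out hg (p₀ := 0) (hC z Y hz hY) hzY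
    have h4 : Ioc 0 z = Icc 1 z := by
      ext p; simp only [mem_Ioc, mem_Icc]; omega
    rw [h4] at h3
    simpa using h3
  rcases le_total N X with h | h
  · rw [abs_sub_comm]
    exact key N X hN h1 h
  · exact key X N hX h2 h

theorem thr {f α β : ℕ → ℝ} (hf : AddF f) (hB : Tendsto (Bq f) atTop atTop) (hn : Nrm f α β)
    (u η : ℝ) (hη : 0 < η) : ∃ X₀ : ℕ, ∀ X ≥ X₀, ∀ N : ℕ, X < (N + 1) ^ 2 → N < (X + 1) ^ 2 →
      |α N + u * β N - (Am f X + u * Real.sqrt (Bq f X))| ≤ η * Real.sqrt (Bq f X) := by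
  obtain ⟨C, hC0, hC⟩ := tail_inv 2
  set η' := η / (4 * (1 + |u|)) with hη'
  have hu0 : 0 ≤ |u| := abs_nonneg u
  have hη'0 : 0 < η' := by positivity
  obtain ⟨N₁, hN₁⟩ := Metric.tendsto_atTop.1 hn.al η' hη'0
  obtain ⟨N₂, hN₂⟩ := Metric.tendsto_atTop.1 hn.be η' hη'0
  obtain ⟨T, hT⟩ : ∃ T : ℝ, T = 1 + C + 2 * C * (1 + |u|) / η := ⟨_, rfl⟩
  have hT1 : 1 ≤ T := by
    have : 0 ≤ 2 * C * (1 + |u|) / η := by positivity
    linarith
  obtain ⟨X₁, hX₁⟩ := eventually_atTop.1 (hB.eventually (eventually_ge_atTop (T ^ 2)))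
  obtain ⟨M, hM⟩ : ∃ M : ℕ, M = N₁ + N₂ + X₁ + 4 := ⟨_, rfl⟩
  refine ⟨(M + 1) ^ 2, fun X hX N h1 h2 => ?_⟩
  have hNM : M ≤ N := by
    by_contra h
    have : (N + 1) ^ 2 ≤ (M + 1) ^ 2 := Nat.pow_le_pow_left (by omega) 2
    omega
  have hXM : M ≤ X := by
    have : M + 1 ≤ (M + 1) ^ 2 := Nat.le_self_pow (by norm_num) _
    omega
  have hX1 := hX₁ X (by omega)
  have hN1 := hX₁ N (by omega)
  set B := Real.sqrt (Bq f X) with hBd
  set B' := Real.sqrt (Bq f N) with hB'd
  have hTB : T ≤ B := Real.le_sqrt_of_sq_le hX1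
  have hTB' : T ≤ B' := Real.le_sqrt_of_sq_le hN1
  have hB0 : 0 < B := by linarith
  have hB'0 : 0 < B' := by linarith
  have hBs : B ^ 2 = Bq f X := Real.sq_sqrt (Bq_nonneg f X)
  have hB's : B' ^ 2 = Bq f N := Real.sq_sqrt (Bq_nonneg f N)
  have hA := am_diff hC hf.le (by omega : 3 ≤ N) (by omega : 3 ≤ X) h1 h2
  have hfsq : ∀ p : ℕ, p.Prime → |f p ^ 2| ≤ 1 := by
    intro p hp
    rw [abs_pow]
    exact pow_le_one₀ (abs_nonneg _) (hf.le p hp)
  have hBB := am_diff hC hfsq (by omega : 3 ≤ N) (by omega : 3 ≤ X) h1 h2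
  have hA' : |Am f N - Am f X| ≤ C := hA
  have hBB' : |B' ^ 2 - B ^ 2| ≤ C := by
    rw [hBs, hB's]
    exact hBB
  have hd : |B' - B| ≤ 1 := by
    have e1 : |B' - B| * (B' + B) ≤ C := by
      rw [← abs_of_pos (by linarith : 0 < B' + B), ← abs_mul]
      have : (B' - B) * (B' + B) = B' ^ 2 - B ^ 2 := by ring
      rw [this]
      exact hBB'
    have e2 : 0 ≤ 2 * C * (1 + |u|) / η := by positivity
    have e3 : C + 1 ≤ B' + B := by linarith
    by_contra hc
    push Not at hc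
    nlinarith
  have hdd : |B' - B| ≤ C / B := by
    rw [le_div_iff₀ hB0]
    have e1 : |B' - B| * (B' + B) ≤ C := by
      rw [← abs_of_pos (by linarith : 0 < B' + B), ← abs_mul]
      have : (B' - B) * (B' + B) = B' ^ 2 - B ^ 2 := by ring
      rw [this]
      exact hBB'
    have := abs_nonneg (B' - B)
    nlinarith
  have hB2 : B' ≤ 2 * B := by
    have := (abs_le.1 hd).2
    linarith
  have e1 := hN₁ N (by omega)
  have e2 := hN₂ N (by omega)
  rw [Real.dist_eq, sub_zero, abs_div, abs_of_pos hB'0, div_lt_iff₀ hB'0] at e1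
  rw [Real.dist_eq] at e2
  have e3 : |β N - B'| ≤ η' * B' := by
    have : β N - B' = (β N / B' - 1) * B' := by field_simp
    rw [this, abs_mul, abs_of_pos hB'0]
    exact mul_le_mul_of_nonneg_right e2.le hB'0.le
  have e4 : α N + u * β N - (Am f X + u * B) =
      (α N - Am f N) + (Am f N - Am f X) + u * ((β N - B') + (B' - B)) := by ring
  rw [e4]
  have e5 : |(β N - B') + (B' - B)| ≤ η' * (2 * B) + C := by
    refine (abs_add_le _ _).trans (add_le_add (e3.trans ?_) ?_)
    · exact mul_le_mul_of_nonneg_left hB2 hη'0.le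
    · refine hdd.trans ?_
      apply div_le_self hC0
      linarith
  have e6 : |α N - Am f N| ≤ η' * (2 * B) := e1.le.trans (mul_le_mul_of_nonneg_left hB2 hη'0.le)
  have e7 : 2 * C * (1 + |u|) ≤ B * η := by
    have : 2 * C * (1 + |u|) / η ≤ B := by linarith
    rwa [div_le_iff₀ hη] at this
  have e8 : η' * (2 * B) * (1 + |u|) = η * B / 2 := by
    rw [hη']
    field_simp
    ring
  calc _ ≤ |α N - Am f N| + |Am f N - Am f X| + |u| * |(β N - B') + (B' - B)| := by
        refine (abs_add_le _ _).trans (add_le_add (abs_add_le _ _) ?_)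
        rw [abs_mul]
    _ ≤ η' * (2 * B) + C + |u| * (η' * (2 * B) + C) := by
        have := mul_le_mul_of_nonneg_left e5 hu0
        linarith
    _ = η' * (2 * B) * (1 + |u|) + C * (1 + |u|) := by ring
    _ ≤ _ := by
        rw [e8]
        linarith

/-- mean value along the natural numbers -/
def MV (F : ℕ → ℝ) (c : ℝ) : Prop := Tendsto (fun X : ℕ => (∑ n ∈ range X, F n) / X) atTop (𝓝 c)

variable {ι : Type} [Fintype ι]

lemma sum_ind (p : ℕ → Prop) [DecidablePred p] (X : ℕ) :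
    ∑ n ∈ range X, (if p n then (1 : ℝ) else 0) = ((range X).filter p).card := by
  rw [← sum_filter, sum_const, nsmul_eq_mul, mul_one]

lemma sqrt_div : Tendsto (fun X : ℕ => (Nat.sqrt X : ℝ) / X) atTop (𝓝 0) := by
  have h1 : Tendsto (fun X : ℕ => 1 / Real.sqrt (X : ℝ)) atTop (𝓝 0) := by
    have := (Real.tendsto_sqrt_atTop.comp tendsto_natCast_atTop_atTop).inv_tendsto_atTop
    refine this.congr fun X => ?_
    simp
  refine squeeze_zero (fun X => by positivity) (fun X => ?_) h1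
  rcases Nat.eq_zero_or_pos X with h | h
  · subst h; simp
  have hX : (0 : ℝ) < X := by exact_mod_cast h
  have h2 : (Nat.sqrt X : ℝ) ≤ Real.sqrt X := Real.nat_sqrt_le_real_sqrt
  have h3 : (0 : ℝ) < Real.sqrt X := Real.sqrt_pos.2 hX
  rw [div_le_div_iff₀ hX h3]
  have h4 := Real.mul_self_sqrt hX.le
  nlinarith

open scoped Classical in
/-- the joint limit law with the own normalisation -/
theorem own_lim {f α β : ℕ → ℝ} (hf : AddF f) (hB : Tendsto (Bq f) atTop atTop) (hn : Nrm f α β)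
    {a b : ι → ℕ} (ha : ∀ i, 1 ≤ a i) (hne : ∀ i j, i ≠ j → a i * b j ≠ a j * b i) (u : ι → ℝ) :
    MV (fun n => if ∀ i, f (a i * n + b i) ≤ α (a i * n + b i) + u i * β (a i * n + b i) then 1 else 0)
      (∏ i, Phi (u i)) := by
  unfold MV
  rw [Metric.tendsto_atTop]
  intro ε hε
  -- continuity
  have hcont : Continuous (fun η : ℝ => ∏ i, Phi (u i + η)) :=
    continuous_finsetProd _ fun i _ => Phi_cont.comp (by fun_prop)
  obtain ⟨η, hη, hη1⟩ : ∃ η : ℝ, 0 < η ∧ |∏ i, Phi (u i + η) - ∏ i, Phi (u i)| < ε / 4 ∧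
      |∏ i, Phi (u i + -η) - ∏ i, Phi (u i)| < ε / 4 := by
    obtain ⟨δ, hδ, h⟩ := Metric.continuousAt_iff.1 (hcont.continuousAt (x := 0)) (ε / 4) (by positivity)
    simp only [add_zero, Real.dist_eq, sub_zero] at h
    refine ⟨δ / 2, by positivity, h ?_, h ?_⟩
    · rw [abs_of_pos (by positivity)]; linarith
    · rw [abs_neg, abs_of_pos (by positivity)]; linarith
  obtain ⟨hη2, hη3⟩ := hη1
  have hup := box_lim hf hB ha hne (fun i => u i + η)
  have hlo := box_lim hf hB ha hne (fun i => u i + -η)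
  obtain ⟨X₁, hX₁⟩ := Metric.tendsto_atTop.1 hup (ε / 4) (by positivity)
  obtain ⟨X₂, hX₂⟩ := Metric.tendsto_atTop.1 hlo (ε / 4) (by positivity)
  obtain ⟨X₃, hX₃⟩ := Metric.tendsto_atTop.1 sqrt_div (ε / 4) (by positivity)
  have hth : ∀ i, ∃ X₀ : ℕ, ∀ X ≥ X₀, ∀ N : ℕ, X < (N + 1) ^ 2 → N < (X + 1) ^ 2 →
      |α N + u i * β N - (Am f X + u i * Real.sqrt (Bq f X))| ≤ η * Real.sqrt (Bq f X) :=
    fun i => thr hf hB hn (u i) η hη
  choose X₀ hX₀ using hth
  obtain ⟨X₄, hX₄⟩ := eventually_atTop.1 (hB.eventually (eventually_ge_atTop 1))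
  refine ⟨1 + X₁ + X₂ + X₃ + X₄ + ∑ i, (X₀ i + a i + b i), fun X hX => ?_⟩
  have hX1 : 1 ≤ X := by omega
  have hX0 : (0 : ℝ) < X := by exact_mod_cast hX1
  have hle : ∀ i, X₀ i + a i + b i ≤ X := by
    intro i
    have := single_le_sum (f := fun i => X₀ i + a i + b i) (fun _ _ => Nat.zero_le _) (mem_univ i)
    have e2 : X₀ i + a i + b i ≤ ∑ i, (X₀ i + a i + b i) := this
    omega
  have hB1 : 0 < Real.sqrt (Bq f X) := Real.sqrt_pos.2 (by linarith [hX₄ X (by omega)])
  have h1 := hX₁ X (by omega)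
  have h2 := hX₂ X (by omega)
  have h3 := hX₃ X (by omega)
  rw [Real.dist_eq, sub_zero, abs_of_nonneg (by positivity)] at h3
  rw [Real.dist_eq] at h1 h2 ⊢
  beta_reduce
  rw [sum_ind]
  have hsize : ∀ n, Nat.sqrt X ≤ n → n < X → ∀ i, X < (a i * n + b i + 1) ^ 2 ∧
      a i * n + b i < (X + 1) ^ 2 := by
    intro n hn1 hn2 i
    constructor
    · refine (Nat.lt_succ_sqrt' X).trans_le ?_
      apply Nat.pow_le_pow_left
      have : n ≤ a i * n := Nat.le_mul_of_pos_left n (ha i)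
      have := Nat.succ_eq_add_one (Nat.sqrt X)
      omega
    · have e1 := hle i
      have e2 : a i * n ≤ X * X := Nat.mul_le_mul (by omega) (by omega)
      nlinarith
  have hcu : (((range X).filter (fun n => ∀ i, f (a i * n + b i) ≤
      α (a i * n + b i) + u i * β (a i * n + b i))).card : ℝ) ≤
      ((range X).filter (fun n => ∀ i, FF f X (a i * n + b i) ≤ u i + η)).card + Nat.sqrt X := by
    have hs : (range X).filter (fun n => ∀ i, f (a i * n + b i) ≤
        α (a i * n + b i) + u i * β (a i * n + b i)) ⊆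
        (range X).filter (fun n => ∀ i, FF f X (a i * n + b i) ≤ u i + η) ∪ range (Nat.sqrt X) := by
      intro n hn
      rw [mem_filter, mem_range] at hn
      rw [mem_union, mem_filter, mem_range, mem_range]
      rcases Nat.lt_or_ge n (Nat.sqrt X) with h | h
      · exact Or.inr h
      · left
        refine ⟨hn.1, fun i => ?_⟩
        have e1 := hsize n h hn.1 i
        have e2 := abs_le.1 (hX₀ i X (by have := hle i; omega) _ e1.1 e1.2)
        have e3 := hn.2 i
        unfold FF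
        rw [div_le_iff₀ hB1]
        linarith
    have := (card_le_card hs).trans (card_union_le _ _)
    rw [card_range] at this
    exact_mod_cast this
  have hcl : (((range X).filter (fun n => ∀ i, FF f X (a i * n + b i) ≤ u i + -η)).card : ℝ) ≤
      ((range X).filter (fun n => ∀ i, f (a i * n + b i) ≤
      α (a i * n + b i) + u i * β (a i * n + b i))).card + Nat.sqrt X := by
    have hs : (range X).filter (fun n => ∀ i, FF f X (a i * n + b i) ≤ u i + -η) ⊆
        (range X).filter (fun n => ∀ i, f (a i * n + b i) ≤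
        α (a i * n + b i) + u i * β (a i * n + b i)) ∪ range (Nat.sqrt X) := by
      intro n hn
      rw [mem_filter, mem_range] at hn
      rw [mem_union, mem_filter, mem_range, mem_range]
      rcases Nat.lt_or_ge n (Nat.sqrt X) with h | h
      · exact Or.inr h
      · left
        refine ⟨hn.1, fun i => ?_⟩
        have e1 := hsize n h hn.1 i
        have e2 := abs_le.1 (hX₀ i X (by have := hle i; omega) _ e1.1 e1.2)
        have e3 := hn.2 i
        unfold FF at e3
        rw [div_le_iff₀ hB1] at e3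
        linarith
    have := (card_le_card hs).trans (card_union_le _ _)
    rw [card_range] at this
    exact_mod_cast this
  have hcu' := div_le_div_of_nonneg_right hcu hX0.le
  have hcl' := div_le_div_of_nonneg_right hcl hX0.le
  rw [add_div] at hcu' hcl'
  have g1 := abs_lt.1 h1
  have g2 := abs_lt.1 h2
  have g3 := abs_lt.1 hη2
  have g4 := abs_lt.1 hη3
  rw [abs_lt]
  constructor <;> linarith

end Pool.Agent.H998_EK
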