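import Pool.Agent.H998_EK.Flip

/-!
Library H998_EK (helper998): windows along the trajectories.
-/

set_option autoImplicit false
set_option linter.unusedSectionVars false

namespace Pool.Agent.H998_EK

open Finset Filter Topology

/-- one step of the map, `c = 2` for the positive and `c = 1` for the negative integers -/
def St (c n : ℕ) : ℕ := if n % 2 = 0 then n / 2 else 3 * (n / 2) + c

/-- the indicator function of a window -/
noncomputable def Wn (f α β : ℕ → ℝ) (c : ℕ) : List ℝ → ℕ → ℝ
  | [], _ => 1
  | u :: U, n => ie f α β u n * Wn f α β c U (St c n)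

/-- the local limit frequency -/
noncomputable def Vb (c : ℕ) : List ℝ → ℕ → ℝ
  | [], _ => 1
  | [u], _ => Phi u
  | u :: v :: U, n => if n % 2 = 0 then Vb c (min u v :: U) (n / 2) else
      Phi u * Vb c (v :: U) (3 * (n / 2) + c)
termination_by U => U.length

lemma ie_01 (f α β : ℕ → ℝ) (u : ℝ) (n : ℕ) : 0 ≤ ie f α β u n ∧ ie f α β u n ≤ 1 := by
  unfold ie
  split_ifs <;> norm_num

lemma Wn_01 (f α β : ℕ → ℝ) (c : ℕ) : ∀ (U : List ℝ) (n : ℕ), 0 ≤ Wn f α β c U n ∧ Wn f α β c U n ≤ 1
  | [], n => by simp [Wn]
  | u :: U, n => by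
    have h1 := ie_01 f α β u n
    have h2 := Wn_01 f α β c U (St c n)
    rw [Wn]
    exact ⟨mul_nonneg h1.1 h2.1, mul_le_one₀ h1.2 h2.1 h2.2⟩

lemma Vb_01 (c : ℕ) : ∀ (U : List ℝ) (n : ℕ), 0 ≤ Vb c U n ∧ Vb c U n ≤ 1
  | [], n => by simp [Vb]
  | [u], n => by rw [Vb]; exact ⟨Phi_nonneg u, Phi_le_one u⟩
  | u :: v :: U, n => by
    rw [Vb]
    split_ifs
    · exact Vb_01 c (min u v :: U) (n / 2)
    · have h1 := Vb_01 c (v :: U) (3 * (n / 2) + c)
      exact ⟨mul_nonneg (Phi_nonneg u) h1.1, mul_le_one₀ (Phi_le_one u) h1.1 h1.2⟩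
termination_by U => U.length

lemma Vb_per (c : ℕ) : ∀ (U : List ℝ) (n k : ℕ), Vb c U (n + 2 ^ (U.length - 1) * k) = Vb c U n
  | [], n, k => by simp [Vb]
  | [u], n, k => by simp [Vb]
  | u :: v :: U, n, k => by
    have h0 : (u :: v :: U).length - 1 = U.length + 1 := by simp
    rw [h0]
    have h1 : (n + 2 ^ (U.length + 1) * k) % 2 = n % 2 := by
      rw [pow_succ, mul_assoc, mul_comm (2 ^ U.length), mul_assoc, Nat.add_mul_mod_self_left]
    have h2 : (n + 2 ^ (U.length + 1) * k) / 2 = n / 2 + 2 ^ U.length * k := by
      rw [pow_succ, mul_assoc, mul_comm (2 ^ U.length), mul_assoc, Nat.add_mul_div_left _ _ (by norm_num),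
        mul_comm k]
    rw [Vb, Vb, h1, h2]
    split_ifs
    · have := Vb_per c (min u v :: U) (n / 2) k
      simpa using this
    · have := Vb_per c (v :: U) (3 * (n / 2) + c) (3 * k)
      congr 1
      simp only [List.length_cons, Nat.add_sub_cancel] at this
      rw [← this]
      congr 1
      ring
termination_by U => U.length

/-- an item of the family: a linear form and a window -/
structure Item where
  a : ℕ
  b : ℕ
  U : List ℝ

/-- position -/
noncomputable def Item.pos (sg : ℝ) (i : Item) : ℝ := sg * (i.b / i.a)

/-- reach -/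
noncomputable def Item.wd (i : Item) : ℝ := 2 ^ (i.U.length - 1) / (3 * i.a)

/-- one item lies before another one -/
def Bef (sg : ℝ) (i j : Item) : Prop := i.pos sg + i.wd ≤ j.pos sg

/-- the conditions for a single item -/
structure Ok (i : Item) : Prop where
  pos : 1 ≤ i.a
  ne : i.U ≠ []
  dv : 2 ^ (i.U.length - 1) ∣ i.a

/-- the product of the window functions -/
noncomputable def PW (f α β : ℕ → ℝ) (c : ℕ) (L : List Item) (y : ℕ) : ℝ :=
  (L.map (fun i => Wn f α β c i.U (i.a * y + i.b))).prod

noncomputable def PV (c : ℕ) (L : List Item) : ℝ := (L.map (fun i => Vb c i.U i.b)).prod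

lemma PW_01 (f α β : ℕ → ℝ) (c : ℕ) (L : List Item) (y : ℕ) :
    0 ≤ PW f α β c L y ∧ PW f α β c L y ≤ 1 := by
  induction L with
  | nil => simp [PW]
  | cons i L ih =>
    have h1 := Wn_01 f α β c i.U (i.a * y + i.b)
    have : PW f α β c (i :: L) y = Wn f α β c i.U (i.a * y + i.b) * PW f α β c L y := by
      simp [PW]
    rw [this]
    exact ⟨mul_nonneg h1.1 ih.1, mul_le_one₀ h1.2 ih.1 ih.2⟩

/-- total length -/
def tot (L : List Item) : ℕ := (L.map (fun i => i.U.length - 1)).sum

lemma MV.close {F G : ℕ → ℝ} {c : ℝ} (hF : MV F c) (h : MV (fun n => |G n - F n|) 0) : MV G c := by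
  unfold MV at *
  have h1 : Tendsto (fun X : ℕ => (∑ n ∈ range X, (G n - F n)) / X) atTop (𝓝 0) := by
    apply squeeze_zero_norm _ h
    intro X
    rw [Real.norm_eq_abs, abs_div, Nat.abs_cast]
    exact div_le_div_of_nonneg_right (abs_sum_le_sum_abs _ _) (Nat.cast_nonneg _)
  have h2 := hF.add h1
  rw [add_zero] at h2
  refine h2.congr fun X => ?_
  rw [sum_sub_distrib, ← add_div]
  congr 1
  ring

lemma MV.zero_of_le {F G : ℕ → ℝ} (h0 : ∀ n, 0 ≤ F n) (hG : MV G 0) {n₀ : ℕ}
    (h : ∀ n, n₀ ≤ n → F n ≤ G n) (h1 : ∀ n, F n ≤ 1) (hG0 : ∀ n, 0 ≤ G n) : MV F 0 := by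
  unfold MV at *
  have h2 : Tendsto (fun X : ℕ => (∑ n ∈ range X, G n) / X + (n₀ : ℝ) / X) atTop (𝓝 0) := by
    have := hG.add (tendsto_const_div_atTop_nhds_zero_nat (n₀ : ℝ))
    rwa [add_zero] at this
  apply squeeze_zero _ _ h2
  · intro X
    exact div_nonneg (sum_nonneg fun _ _ => h0 _) (Nat.cast_nonneg _)
  · intro X
    rw [← add_div]
    apply div_le_div_of_nonneg_right _ (Nat.cast_nonneg _)
    have h3 : ∀ n ∈ range X, F n ≤ G n + (if n < n₀ then 1 else 0) := by
      intro n _
      split_ifs with hn
      · linarith [h1 n, hG0 n]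
      · linarith [h n (by omega)]
    refine (sum_le_sum h3).trans ?_
    rw [sum_add_distrib]
    have h4 : ∑ n ∈ range X, (if n < n₀ then (1 : ℝ) else 0) ≤ n₀ := by
      rw [← sum_filter, sum_const, nsmul_eq_mul, mul_one]
      have : (range X).filter (fun n => n < n₀) ⊆ range n₀ := fun n hn =>
        mem_range.2 (mem_filter.1 hn).2
      have := card_le_card this
      rw [card_range] at this
      exact_mod_cast this
    linarith

lemma PW_split (f α β : ℕ → ℝ) (c : ℕ) (L₁ L₂ L₃ : List Item) (y : ℕ) :
    PW f α β c (L₁ ++ (L₂ ++ L₃)) y = PW f α β c L₁ y * (PW f α β c L₂ y * PW f α β c L₃ y) := by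
  unfold PW
  simp

lemma PV_split (c : ℕ) (L₁ L₂ L₃ : List Item) :
    PV c (L₁ ++ (L₂ ++ L₃)) = PV c L₁ * (PV c L₂ * PV c L₃) := by
  unfold PV
  simp

/-- the terminal case -/
lemma win_base {f α β : ℕ → ℝ} (hf : AddF f) (hB : Tendsto (Bq f) atTop atTop) (hn : Nrm f α β)
    (c : ℕ) (sg : ℝ) (L : List Item) (hok : ∀ i ∈ L, Ok i) (hp : L.Pairwise (Bef sg))
    (h0 : ∀ i ∈ L, i.U.length = 1) : MV (PW f α β c L) (PV c L) := by
  classical
  have hU : ∀ i ∈ L, ∃ u, i.U = [u] := fun i hi => List.length_eq_one_iff.1 (h0 i hi)
  set a : Fin L.length → ℕ := fun k => (L.get k).a with ha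
  set b : Fin L.length → ℕ := fun k => (L.get k).b with hb
  have hu : ∀ k : Fin L.length, ∃ u, (L.get k).U = [u] := fun k => hU _ (L.get_mem k)
  choose u hu using hu
  have ha1 : ∀ k, 1 ≤ a k := fun k => (hok _ (L.get_mem k)).pos
  have hlt : ∀ k l : Fin L.length, k < l → a k * b l ≠ a l * b k := by
    intro k l hkl heq
    have h1 : Bef sg (L.get k) (L.get l) := List.pairwise_iff_get.1 hp k l hkl
    unfold Bef Item.pos Item.wd at h1
    have hak : (0 : ℝ) < (L.get k).a := by exact_mod_cast ha1 k
    have hal : (0 : ℝ) < (L.get l).a := by exact_mod_cast ha1 l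
    have h2 : ((L.get k).b : ℝ) / (L.get k).a = (L.get l).b / (L.get l).a := by
      rw [div_eq_div_iff hak.ne' hal.ne']
      have : (L.get k).a * (L.get l).b = (L.get l).a * (L.get k).b := heq
      have h3 : ((L.get k).a : ℝ) * (L.get l).b = (L.get l).a * (L.get k).b := by exact_mod_cast this
      linarith
    rw [h2] at h1
    have h3 : (0 : ℝ) < 2 ^ ((L.get k).U.length - 1) / (3 * (L.get k).a) := by positivity
    linarith
  have hne : ∀ k l : Fin L.length, k ≠ l → a k * b l ≠ a l * b k := by
    intro k l hkl
    rcases lt_or_gt_of_ne hkl with h | h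
    · exact hlt k l h
    · exact fun e => hlt l k h e.symm
  have hmain := own_lim hf hB hn ha1 hne u
  have e1 : (∏ k, Phi (u k)) = PV c L := by
    unfold PV
    have : L.map (fun i => Vb c i.U i.b) = List.ofFn (fun k : Fin L.length => Phi (u k)) := by
      apply List.ext_get
      · simp
      · intro k h1 h2
        simp only [List.get_eq_getElem, List.getElem_map, List.getElem_ofFn]
        have := hu ⟨k, by simpa using h1⟩
        simp only [List.get_eq_getElem] at this
        rw [this, Vb]
    rw [this, List.prod_ofFn]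
  rw [← e1]
  have e2 : PW f α β c L = fun n => if ∀ i, f (a i * n + b i) ≤ α (a i * n + b i) + u i * β (a i * n + b i)
      then 1 else 0 := by
    funext n
    unfold PW
    have : L.map (fun i => Wn f α β c i.U (i.a * n + i.b)) =
        List.ofFn (fun k : Fin L.length => ie f α β (u k) (a k * n + b k)) := by
      apply List.ext_get
      · simp
      · intro k h1 h2
        simp only [List.get_eq_getElem, List.getElem_map, List.getElem_ofFn]
        have := hu ⟨k, by simpa using h1⟩
        simp only [List.get_eq_getElem] at this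
        rw [this, Wn, Wn, mul_one]
        rfl
    rw [this, List.prod_ofFn]
    unfold ie Ev
    rw [Finset.prod_ite_zero]
    simp
  rw [e2]
  convert hmain

lemma bef_trans {sg : ℝ} {i j k : Item} (hj : 1 ≤ j.a) (h1 : Bef sg i j) (h2 : Bef sg j k) : Bef sg i k := by
  unfold Bef at *
  have hj0 : (0 : ℝ) < j.a := by exact_mod_cast hj
  have : 0 < j.wd := by unfold Item.wd; positivity
  linarith

/-- replacing an item by items inside its reach -/
lemma pair_replace {sg : ℝ} {L₁ L₃ M N : List Item} (hp : (L₁ ++ (M ++ L₃)).Pairwise (Bef sg))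
    {m : Item} (hm : m ∈ M) (hN : N.Pairwise (Bef sg))
    (h1 : ∀ n ∈ N, m.pos sg ≤ n.pos sg) (h2 : ∀ n ∈ N, n.pos sg + n.wd ≤ m.pos sg + m.wd) :
    (L₁ ++ (N ++ L₃)).Pairwise (Bef sg) := by
  rw [List.pairwise_append, List.pairwise_append] at hp ⊢
  obtain ⟨hp1, ⟨_, hp3, hp4⟩, hp5⟩ := hp
  refine ⟨hp1, ⟨hN, hp3, fun n hn l hl => ?_⟩, fun l hl k hk => ?_⟩
  · have := hp4 m hm l hl
    unfold Bef at *
    linarith [h2 n hn]
  · rw [List.mem_append] at hk
    rcases hk with hk | hk
    · have := hp5 l hl m (List.mem_append_left _ hm)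
      unfold Bef at *
      linarith [h1 k hk]
    · exact hp5 l hl k (List.mem_append_right _ hk)

/-- **the mean value of products of windows** -/
theorem win {f α β : ℕ → ℝ} (hf : AddF f) (hB : Tendsto (Bq f) atTop atTop) (hn : Nrm f α β)
    {c : ℕ} {sg : ℝ} (hc : sg = 2 * c - 3) (hsg : sg ^ 2 = 1) : ∀ (k : ℕ) (L : List Item), tot L = k →
    (∀ i ∈ L, Ok i) → L.Pairwise (Bef sg) → MV (PW f α β c L) (PV c L)
  | 0, L, ht, hok, hp => by
    apply win_base hf hB hn c sg L hok hp
    intro i hi
    have h1 : i.U.length - 1 ∈ L.map (fun i => i.U.length - 1) := List.mem_map_of_mem hi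
    have h2 : i.U.length - 1 = 0 := by
      have := List.single_le_sum (fun x _ => Nat.zero_le x) _ h1
      unfold tot at ht
      omega
    have h3 : i.U.length ≠ 0 := by
      intro h
      exact (hok i hi).ne (List.length_eq_zero_iff.1 h)
    omega
  | k + 1, L, ht, hok, hp => by
    -- an item which is not terminal
    obtain ⟨i, hi, hlen⟩ : ∃ i ∈ L, 2 ≤ i.U.length := by
      by_contra hcon
      push Not at hcon
      have : tot L = 0 := by
        unfold tot
        apply List.sum_eq_zero
        intro x hx
        rw [List.mem_map] at hx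
        obtain ⟨i, hi, rfl⟩ := hx
        have := hcon i hi
        omega
      omega
    obtain ⟨L₁, L₃, rfl⟩ := List.append_of_mem hi
    obtain ⟨u, v, U, hU⟩ : ∃ u v U, i.U = u :: v :: U := by
      match hh : i.U with
      | [] => rw [hh] at hlen; simp at hlen
      | [u] => rw [hh] at hlen; simp at hlen
      | u :: v :: U => exact ⟨u, v, U, rfl⟩
    have hoki := hok i hi
    have hi1 := hoki.pos
    have hlU : i.U.length - 1 = U.length + 1 := by rw [hU]; simp
    have hdv := hoki.dv
    rw [hlU] at hdv
    obtain ⟨a', ha'⟩ : ∃ a', i.a = 2 * a' := by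
      obtain ⟨t, ht⟩ := hdv
      exact ⟨2 ^ U.length * t, by rw [ht, pow_succ]; ring⟩
    have ha'1 : 1 ≤ a' := by omega
    have hdv' : 2 ^ U.length ∣ a' := by
      obtain ⟨t, ht⟩ := hdv
      refine ⟨t, ?_⟩
      rw [ha', pow_succ] at ht
      have : 2 * a' = 2 * (2 ^ U.length * t) := by rw [ht]; ring
      omega
    have hi0 : (0 : ℝ) < i.a := by exact_mod_cast hi1
    have ha0 : (0 : ℝ) < a' := by exact_mod_cast ha'1
    have hia : (i.a : ℝ) = 2 * a' := by rw [ha']; push_cast; ring
    have hp' : (L₁ ++ ([i] ++ L₃)).Pairwise (Bef sg) := by simpa using hp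
    have hwd : i.wd = 2 ^ U.length / (3 * a') := by
      unfold Item.wd
      rw [hlU, hia, pow_succ]
      field_simp
    have htot : ∀ N : List Item, tot (L₁ ++ (N ++ L₃)) = tot L₁ + (tot N + tot L₃) := by
      intro N
      unfold tot
      simp
    have htL : tot L₁ + tot L₃ + (U.length + 1) = k + 1 := by
      have h1 := htot [i]
      have h2 : tot [i] = U.length + 1 := by unfold tot; simp [hlU]
      rw [h2] at h1
      have h3 : L₁ ++ ([i] ++ L₃) = L₁ ++ i :: L₃ := by simp
      rw [h3] at h1
      omega
    have hL : L₁ ++ i :: L₃ = L₁ ++ ([i] ++ L₃) := by simp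
    have hok1 : ∀ j ∈ L₁, Ok j := fun j hj => hok j (List.mem_append_left _ hj)
    have hok3 : ∀ j ∈ L₃, Ok j := fun j hj =>
      hok j (List.mem_append_right _ (List.mem_cons_of_mem _ hj))
    rcases Nat.even_or_odd' i.b with ⟨b', hb' | hb'⟩
    · -- even case
      set i' : Item := ⟨a', b', min u v :: U⟩ with hi'
      have hib : (i.b : ℝ) = 2 * b' := by rw [hb']; push_cast; ring
      have hpos : i'.pos sg = i.pos sg := by
        unfold Item.pos
        rw [hi', hia, hib]
        simp only
        rw [mul_div_mul_left _ _ (by norm_num : (2 : ℝ) ≠ 0)]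
      have hwd' : i'.wd = i.wd := by
        rw [hwd]
        unfold Item.wd
        rw [hi']
        simp
      have hnew := pair_replace hp' (m := i) (List.mem_singleton_self i) (N := [i'])
        (List.pairwise_singleton _ _) (by
          intro n hn
          rw [List.mem_singleton] at hn
          rw [hn, hpos]) (by
          intro n hn
          rw [List.mem_singleton] at hn
          rw [hn, hpos, hwd'])
      have htn : tot (L₁ ++ ([i'] ++ L₃)) = k := by
        rw [htot]
        have : tot [i'] = U.length := by unfold tot; simp [hi']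
        omega
      have hokn : ∀ j ∈ L₁ ++ ([i'] ++ L₃), Ok j := by
        intro j hj
        rw [List.mem_append, List.mem_append, List.mem_singleton] at hj
        rcases hj with hj | hj | hj
        · exact hok1 j hj
        · rw [hj]
          exact ⟨ha'1, by simp [hi'], by simpa [hi'] using hdv'⟩
        · exact hok3 j hj
      have hIH := win hf hB hn hc hsg k _ htn hokn hnew
      have hPV : PV c (L₁ ++ i :: L₃) = PV c (L₁ ++ ([i'] ++ L₃)) := by
        rw [hL, PV_split, PV_split]
        congr 2
        unfold PV
        simp only [List.map_cons, List.map_nil, List.prod_cons, List.prod_nil, mul_one]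
        rw [hU, Vb, if_pos (by omega)]
        rw [hi']
        simp only
        congr 1
        omega
      rw [hPV]
      refine hIH.close ?_
      have hflip := flip_lim hf hB hn u (a := a') (b := b') ha'1
      -- the scale is eventually nonnegative
      obtain ⟨n₁, hn₁⟩ : ∃ n₁ : ℕ, ∀ N ≥ n₁, 0 ≤ β N := by
        have h1 := hn.be.eventually (lt_mem_nhds (by norm_num : (0 : ℝ) < 1))
        obtain ⟨n₁, hn₁⟩ := eventually_atTop.1 h1
        refine ⟨n₁, fun N hN => ?_⟩
        have h2 := hn₁ N hN
        by_contra hc
        push Not at hc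
        have : β N / Real.sqrt (Bq f N) ≤ 0 := div_nonpos_of_nonpos_of_nonneg hc.le (Real.sqrt_nonneg _)
        linarith
      refine MV.zero_of_le (fun _ => abs_nonneg _) hflip (n₀ := n₁) ?_ ?_ (fun _ => abs_nonneg _)
      · intro y hy
        rw [hL, PW_split, PW_split]
        have e1 := PW_01 f α β c L₁ y
        have e3 := PW_01 f α β c L₃ y
        have e4 : PW f α β c L₁ y * (PW f α β c [i] y * PW f α β c L₃ y) -
            PW f α β c L₁ y * (PW f α β c [i'] y * PW f α β c L₃ y) =
            PW f α β c L₁ y * PW f α β c L₃ y * (PW f α β c [i] y - PW f α β c [i'] y) := by ring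
        rw [e4, abs_mul, abs_of_nonneg (mul_nonneg e1.1 e3.1)]
        have e5 : PW f α β c L₁ y * PW f α β c L₃ y ≤ 1 := mul_le_one₀ e1.2 e3.1 e3.2
        have e6 : |PW f α β c [i] y - PW f α β c [i'] y| ≤
            |ie f α β u (2 * (a' * y + b')) - ie f α β u (a' * y + b')| := by
          have g1 : i.a * y + i.b = 2 * (a' * y + b') := by rw [ha', hb']; ring
          have g2 : PW f α β c [i] y = ie f α β u (2 * (a' * y + b')) * (ie f α β v (a' * y + b') *
              Wn f α β c U (St c (a' * y + b'))) := by
            unfold PW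
            simp only [List.map_cons, List.map_nil, List.prod_cons, List.prod_nil, mul_one]
            rw [hU, Wn, Wn, g1]
            have g3 : St c (2 * (a' * y + b')) = a' * y + b' := by
              unfold St
              rw [if_pos (by omega)]
              omega
            rw [g3]
          have g4 : PW f α β c [i'] y = ie f α β u (a' * y + b') * (ie f α β v (a' * y + b') *
              Wn f α β c U (St c (a' * y + b'))) := by
            unfold PW
            simp only [List.map_cons, List.map_nil, List.prod_cons, List.prod_nil, mul_one]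
            rw [hi']
            simp only
            rw [Wn, ← mul_assoc]
            congr 1
            have g5 : 0 ≤ β (a' * y + b') := by
              apply hn₁
              have : y ≤ a' * y := Nat.le_mul_of_pos_left y ha'1
              omega
            have g6 : Ev f α β (min u v) (a' * y + b') ↔
                Ev f α β u (a' * y + b') ∧ Ev f α β v (a' * y + b') := by
              unfold Ev
              constructor
              · intro h
                have q1 : min u v * β (a' * y + b') ≤ u * β (a' * y + b') :=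
                  mul_le_mul_of_nonneg_right (min_le_left _ _) g5
                have q2 : min u v * β (a' * y + b') ≤ v * β (a' * y + b') :=
                  mul_le_mul_of_nonneg_right (min_le_right _ _) g5
                exact ⟨by linarith, by linarith⟩
              · rintro ⟨h1, h2⟩
                rcases min_choice u v with h | h <;> rw [h] <;> assumption
            unfold ie
            by_cases q1 : Ev f α β u (a' * y + b') <;> by_cases q2 : Ev f α β v (a' * y + b') <;>
              simp [g6, q1, q2]
          rw [g2, g4, ← sub_mul, abs_mul]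
          have g7 := ie_01 f α β v (a' * y + b')
          have g8 := Wn_01 f α β c U (St c (a' * y + b'))
          have g9 : |ie f α β v (a' * y + b') * Wn f α β c U (St c (a' * y + b'))| ≤ 1 := by
            rw [abs_of_nonneg (mul_nonneg g7.1 g8.1)]
            exact mul_le_one₀ g7.2 g8.1 g8.2
          calc _ ≤ |ie f α β u (2 * (a' * y + b')) - ie f α β u (a' * y + b')| * 1 :=
                mul_le_mul_of_nonneg_left g9 (abs_nonneg _)
            _ = _ := mul_one _
        calc _ ≤ 1 * |PW f α β c [i] y - PW f α β c [i'] y| :=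
              mul_le_mul_of_nonneg_right e5 (abs_nonneg _)
          _ ≤ _ := by rw [one_mul]; exact e6
      · intro y
        have e1 := PW_01 f α β c (L₁ ++ i :: L₃) y
        have e2 := PW_01 f α β c (L₁ ++ ([i'] ++ L₃)) y
        rw [abs_le]
        constructor <;> linarith
    · -- odd case
      set i₁ : Item := ⟨i.a, i.b, [u]⟩ with hi₁
      set i₂ : Item := ⟨3 * a', 3 * b' + c, v :: U⟩ with hi₂
      have hib : (i.b : ℝ) = 2 * b' + 1 := by rw [hb']; push_cast; ring
      have hpos1 : i₁.pos sg = i.pos sg := rfl
      have hwd1 : i₁.wd = 1 / (6 * a') := by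
        unfold Item.wd
        rw [hi₁]
        simp only [List.length_singleton, Nat.sub_self, pow_zero]
        rw [hia]
        congr 1
        ring
      have hpos2 : i₂.pos sg = i.pos sg + 1 / (6 * a') := by
        unfold Item.pos
        rw [hi₂, hia, hib]
        push_cast
        have : (c : ℝ) = (sg + 3) / 2 := by linarith
        rw [this]
        field_simp
        nlinarith
      have hwd2 : i₂.wd = 2 ^ U.length / (9 * a') := by
        unfold Item.wd
        rw [hi₂]
        simp only [List.length_cons, Nat.add_sub_cancel]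
        push_cast
        congr 1
        ring
      have h2p : (1 : ℝ) ≤ 2 ^ U.length := one_le_pow₀ (by norm_num)
      have hnew := pair_replace hp' (m := i) (List.mem_singleton_self i) (N := [i₁, i₂])
        (by
          rw [List.pairwise_pair]
          unfold Bef
          rw [hpos1, hwd1, hpos2]) (by
          intro n hn
          simp only [List.mem_cons, List.not_mem_nil, or_false] at hn
          rcases hn with hn | hn
          · rw [hn, hpos1]
          · rw [hn, hpos2]
            have : (0 : ℝ) ≤ 1 / (6 * a') := by positivity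
            linarith) (by
          intro n hn
          simp only [List.mem_cons, List.not_mem_nil, or_false] at hn
          rcases hn with hn | hn
          · rw [hn, hpos1, hwd1, hwd]
            have : (1 : ℝ) / (6 * a') ≤ 2 ^ U.length / (3 * a') := by
              rw [div_le_div_iff₀ (by positivity) (by positivity)]
              nlinarith
            linarith
          · rw [hn, hpos2, hwd2, hwd]
            have : (1 : ℝ) / (6 * a') + 2 ^ U.length / (9 * a') ≤ 2 ^ U.length / (3 * a') := by
              have e1 : (1 : ℝ) / (6 * a') + 2 ^ U.length / (9 * a') =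
                  (3 + 2 * 2 ^ U.length) / (18 * a') := by field_simp; ring
              rw [e1, div_le_div_iff₀ (by positivity) (by positivity)]
              nlinarith
            linarith)
      have htn : tot (L₁ ++ ([i₁, i₂] ++ L₃)) = k := by
        rw [htot]
        have : tot [i₁, i₂] = U.length := by unfold tot; simp [hi₁, hi₂]
        omega
      have hokn : ∀ j ∈ L₁ ++ ([i₁, i₂] ++ L₃), Ok j := by
        intro j hj
        rw [List.mem_append, List.mem_append] at hj
        simp only [List.mem_cons, List.not_mem_nil, or_false] at hj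
        rcases hj with hj | (hj | hj) | hj
        · exact hok1 j hj
        · rw [hj]
          exact ⟨hi1, by simp [hi₁], by simp [hi₁]⟩
        · rw [hj]
          exact ⟨by show 1 ≤ 3 * a'; omega, by simp [hi₂], by
            show 2 ^ ((v :: U).length - 1) ∣ 3 * a'
            simp only [List.length_cons, Nat.add_sub_cancel]
            exact hdv'.mul_left 3⟩
        · exact hok3 j hj
      have hIH := win hf hB hn hc hsg k _ htn hokn hnew
      have hPV : PV c (L₁ ++ i :: L₃) = PV c (L₁ ++ ([i₁, i₂] ++ L₃)) := by
        rw [hL, PV_split, PV_split]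
        congr 2
        unfold PV
        simp only [List.map_cons, List.map_nil, List.prod_cons, List.prod_nil, mul_one]
        have q1 : Vb c (u :: v :: U) i.b = Phi u * Vb c (v :: U) (3 * (i.b / 2) + c) := by
          rw [Vb, if_neg (by omega)]
        have q2 : Vb c i₁.U i₁.b = Phi u := by
          rw [hi₁]
          simp only
          rw [Vb]
        have q3 : 3 * (i.b / 2) + c = i₂.b := by
          rw [hi₂]
          simp only
          omega
        rw [hU, q1, q2, q3]
      have hPW : PW f α β c (L₁ ++ i :: L₃) = PW f α β c (L₁ ++ ([i₁, i₂] ++ L₃)) := by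
        funext y
        rw [hL, PW_split, PW_split]
        congr 2
        unfold PW
        simp only [List.map_cons, List.map_nil, List.prod_cons, List.prod_nil, mul_one]
        have g1 : i.a * y + i.b = 2 * (a' * y + b') + 1 := by rw [ha', hb']; ring
        have g2 : (2 * (a' * y + b') + 1) / 2 = a' * y + b' := by omega
        have q1 : Wn f α β c (u :: v :: U) (i.a * y + i.b) = ie f α β u (i.a * y + i.b) *
            Wn f α β c (v :: U) (St c (i.a * y + i.b)) := by rw [Wn]
        have q2 : Wn f α β c i₁.U (i₁.a * y + i₁.b) = ie f α β u (i.a * y + i.b) := by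
          rw [hi₁]
          simp only
          rw [Wn, Wn, mul_one]
        have q3 : St c (i.a * y + i.b) = i₂.a * y + i₂.b := by
          rw [hi₂]
          simp only
          unfold St
          rw [g1, if_neg (by omega), g2]
          ring
        rw [hU, q1, q2, q3]
      rw [hPV, hPW]
      exact hIH

end Pool.Agent.H998_EK
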